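import Pool.Agent.N538.MR.Seq

/-!
# Bivectors and trivectors in dimension four
-/

set_option autoImplicit false

namespace Pool.Agent.N538.MR

section ring

variable {R : Type*} [CommRing R]

/-- scalar product -/
def dt (u V : Fin 4 → R) : R := u 0 * V 0 + u 1 * V 1 + u 2 * V 2 + u 3 * V 3

/-- the bivector `u ∧ v` (coordinates `01, 02, 03, 12, 13, 23`) -/
def W (u v : Fin 4 → R) : Fin 6 → R :=
  ![u 0 * v 1 - u 1 * v 0, u 0 * v 2 - u 2 * v 0, u 0 * v 3 - u 3 * v 0,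
    u 1 * v 2 - u 2 * v 1, u 1 * v 3 - u 3 * v 1, u 2 * v 3 - u 3 * v 2]

/-- the minor of three vectors -/
def m3 (u v w : Fin 4 → R) (i j k : Fin 4) : R :=
  u i * (v j * w k - v k * w j) - u j * (v i * w k - v k * w i) + u k * (v i * w j - v j * w i)

/-- the cross product of three vectors -/
def C (u v w : Fin 4 → R) : Fin 4 → R :=
  ![-m3 u v w 1 2 3, m3 u v w 0 2 3, -m3 u v w 0 1 3, m3 u v w 0 1 2]

/-- the pairing of `u ∧ z` and `B` -/
def D (u z : Fin 4 → R) (B : Fin 6 → R) : R :=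
  (u 0 * z 1 - u 1 * z 0) * B 5 - (u 0 * z 2 - u 2 * z 0) * B 4 + (u 0 * z 3 - u 3 * z 0) * B 3 +
    (u 1 * z 2 - u 2 * z 1) * B 2 - (u 1 * z 3 - u 3 * z 1) * B 1 + (u 2 * z 3 - u 3 * z 2) * B 0

/-- the determinant of `z` and `B` in the last three coordinates -/
def T (z : Fin 4 → R) (B : Fin 6 → R) : R := z 1 * B 5 - z 2 * B 4 + z 3 * B 3

/-- the contraction of `B` with `V` -/
def ct (V : Fin 4 → R) (B : Fin 6 → R) : Fin 4 → R :=
  ![-(V 1 * B 0) - V 2 * B 1 - V 3 * B 2, V 0 * B 0 - V 2 * B 3 - V 3 * B 4,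
    V 0 * B 1 + V 1 * B 3 - V 3 * B 5, V 0 * B 2 + V 1 * B 4 + V 2 * B 5]

lemma ct_W (V u v : Fin 4 → R) (i : Fin 4) : ct V (W u v) i = dt u V * v i - dt v V * u i := by
  fin_cases i <;> simp [ct, W, dt] <;> ring

lemma D_eq (V u z : Fin 4 → R) (B : Fin 6 → R) (hV : V 0 = 1) :
    D u z B = dt u V * T z B - dt z V * T u B +
      ((u 1 * z 2 - u 2 * z 1) * ct V B 3 - (u 1 * z 3 - u 3 * z 1) * ct V B 2 +
        (u 2 * z 3 - u 3 * z 2) * ct V B 1) := by
  simp only [D, dt, T, ct, Matrix.cons_val, hV]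
  ring

lemma D_smul (u z : Fin 4 → R) (B : Fin 6 → R) (g : R) : D u z (g • B) = g * D u z B := by
  simp only [D, Pi.smul_apply, smul_eq_mul]
  ring

lemma C_eq (V u v w : Fin 4 → R) :
    (C u v w 0 * V 1 - C u v w 1 * V 0 =
      -(dt u V * W v w 5 - dt v V * W u w 5 + dt w V * W u v 5)) ∧
    (C u v w 0 * V 2 - C u v w 2 * V 0 =
      (dt u V * W v w 4 - dt v V * W u w 4 + dt w V * W u v 4)) ∧
    (C u v w 0 * V 3 - C u v w 3 * V 0 =
      -(dt u V * W v w 3 - dt v V * W u w 3 + dt w V * W u v 3)) ∧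
    (C u v w 1 * V 2 - C u v w 2 * V 1 =
      -(dt u V * W v w 2 - dt v V * W u w 2 + dt w V * W u v 2)) ∧
    (C u v w 1 * V 3 - C u v w 3 * V 1 =
      (dt u V * W v w 1 - dt v V * W u w 1 + dt w V * W u v 1)) ∧
    (C u v w 2 * V 3 - C u v w 3 * V 2 =
      -(dt u V * W v w 0 - dt v V * W u w 0 + dt w V * W u v 0)) := by
  simp only [C, m3, W, dt, Matrix.cons_val]
  refine ⟨?_, ?_, ?_, ?_, ?_, ?_⟩ <;> ring

lemma D_W (u v w z : Fin 4 → R) : D u v (W w z) = dt (C u v w) z := by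
  simp only [D, C, m3, W, dt, Matrix.cons_val]
  ring

lemma D_perm (u v w z : Fin 4 → R) : D u z (W v w) = D u v (W w z) := by
  simp only [D, W, Matrix.cons_val]
  ring

lemma W_add_smul (u v : Fin 4 → R) (x y : R) (i : Fin 6) :
    W v (x • u + y • v) i = -(x * W u v i) := by
  fin_cases i <;> simp [W] <;> ring

lemma W_smul (u v : Fin 4 → R) (z : R) (i : Fin 6) : W u (z • v) i = z * W u v i := by
  fin_cases i <;> simp [W] <;> ring

end ring

/-- the integer vectors as real vectors -/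
def cst {d : ℕ} (u : Fin d → ℤ) : Fin d → ℝ := fun i => (u i : ℝ)

lemma cst_W (u v : Fin 4 → ℤ) : W (cst u) (cst v) = cst (W u v) := by
  funext i
  fin_cases i <;> simp [W, cst]

lemma cst_D (u z : Fin 4 → ℤ) (B : Fin 6 → ℤ) : D (cst u) (cst z) (cst B) = (D u z B : ℤ) := by
  simp only [D, cst]
  push_cast
  ring

lemma cst_T (z : Fin 4 → ℤ) (B : Fin 6 → ℤ) : T (cst z) (cst B) = (T z B : ℤ) := by
  simp only [T, cst]
  push_cast
  ring

lemma cst_C (u v w : Fin 4 → ℤ) : C (cst u) (cst v) (cst w) = cst (C u v w) := by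
  funext i
  fin_cases i <;> simp [C, m3, cst]

lemma cst_dt (u v : Fin 4 → ℤ) : dt (cst u) (cst v) = (dt u v : ℤ) := by
  simp only [dt, cst]
  push_cast
  ring

lemma sub_bound (a b c d A B : ℝ) (ha : |a| ≤ A) (hb : |b| ≤ B) (hc : |c| ≤ B) (hd : |d| ≤ A) :
    |a * b - c * d| ≤ 2 * (A * B) := by
  have hA : 0 ≤ A := (abs_nonneg _).trans ha
  have hB : 0 ≤ B := (abs_nonneg _).trans hb
  refine (abs_sub _ _).trans ?_
  rw [abs_mul, abs_mul]
  have h1 := mul_le_mul ha hb (abs_nonneg _) hA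
  have h2 := mul_le_mul hc hd (abs_nonneg _) hB
  linarith

/-- the size of a bivector -/
lemma W_le (u v : Fin 4 → ℤ) (i : Fin 6) : |((W u v i : ℤ) : ℝ)| ≤ 2 * (ht u * ht v) := by
  have h : ∀ a b : Fin 4, |((u a * v b - u b * v a : ℤ) : ℝ)| ≤ 2 * (ht u * ht v) := by
    intro a b
    push_cast
    rw [mul_comm (u b : ℝ)]
    exact sub_bound _ _ _ _ _ _ (abs_le_ht u a) (abs_le_ht v b) (abs_le_ht v a) (abs_le_ht u b)
  fin_cases i
  · exact h 0 1
  · exact h 0 2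
  · exact h 0 3
  · exact h 1 2
  · exact h 1 3
  · exact h 2 3

/-- three vectors are independent -/
def Ind3 (u v w : Fin 4 → ℤ) : Prop :=
  ∀ a b c : ℤ, a • u + b • v + c • w = 0 → a = 0 ∧ b = 0 ∧ c = 0

/-- a vanishing determinant gives a relation -/
lemma dep4 (u z b b' : Fin 4 → ℤ) (h : D u z (W b b') = 0) :
    ∃ c : Fin 4 → ℤ, c ≠ 0 ∧ c 0 • u + c 1 • z + c 2 • b + c 3 • b' = 0 := by
  obtain ⟨M, hM⟩ : ∃ M : Matrix (Fin 4) (Fin 4) ℤ, M = Matrix.of ![u, z, b, b'] := ⟨_, rfl⟩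
  have hdet : M.det = 0 := by
    rw [← h, hM, Matrix.det_succ_row_zero]
    simp [Fin.sum_univ_succ, Matrix.det_fin_three, D, W, Fin.succAbove, Matrix.submatrix]
    ring
  obtain ⟨c, hc0, hc⟩ := Matrix.exists_vecMul_eq_zero_iff.2 hdet
  refine ⟨c, hc0, ?_⟩
  funext i
  have h1 := congrFun hc i
  rw [hM] at h1
  simp only [Matrix.vecMul, dotProduct, Fin.sum_univ_four, Matrix.of_apply, Matrix.cons_val,
    Pi.zero_apply] at h1
  simp only [Pi.add_apply, Pi.smul_apply, smul_eq_mul, Pi.zero_apply]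
  exact h1

/-- a vector orthogonal to three vectors -/
lemma exists_orth (u v w : Fin 4 → ℤ) : ∃ N : Fin 4 → ℤ, N ≠ 0 ∧ dt u N = 0 ∧ dt v N = 0 ∧
    dt w N = 0 := by
  obtain ⟨M, hM⟩ : ∃ M : Matrix (Fin 4) (Fin 4) ℤ, M = Matrix.of ![u, v, w, 0] := ⟨_, rfl⟩
  have hdet : M.det = 0 := by
    apply Matrix.det_eq_zero_of_row_eq_zero 3
    intro j
    rw [hM]
    simp
  obtain ⟨N, hN0, hN⟩ := Matrix.exists_mulVec_eq_zero_iff.2 hdet
  refine ⟨N, hN0, ?_, ?_, ?_⟩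
  · have h1 := congrFun hN 0
    rw [hM] at h1
    simpa [Matrix.mulVec, dotProduct, Fin.sum_univ_four, dt] using h1
  · have h1 := congrFun hN 1
    rw [hM] at h1
    simpa [Matrix.mulVec, dotProduct, Fin.sum_univ_four, dt] using h1
  · have h1 := congrFun hN 2
    rw [hM] at h1
    simpa [Matrix.mulVec, dotProduct, Fin.sum_univ_four, dt] using h1

/-- primitive vectors -/
def Prim {d : ℕ} (B : Fin d → ℤ) : Prop := ∃ c : Fin d → ℤ, ∑ i, c i * B i = 1

lemma exists_prim {d : ℕ} (B : Fin d → ℤ) (hB : B ≠ 0) :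
    ∃ (g : ℤ) (B0 : Fin d → ℤ), g ≠ 0 ∧ Prim B0 ∧ B = g • B0 := by
  obtain ⟨I, hI⟩ : ∃ I : Ideal ℤ, I = Ideal.span (Set.range B) := ⟨_, rfl⟩
  obtain ⟨g, hg⟩ : ∃ g, g = Submodule.IsPrincipal.generator I := ⟨_, rfl⟩
  have h1 : g ∈ Ideal.span (Set.range B) := by
    rw [hg, ← hI]
    exact Submodule.IsPrincipal.generator_mem I
  obtain ⟨c, hc⟩ := Ideal.mem_span_range_iff_exists_fun.1 h1
  have h2 : ∀ i, g ∣ B i := by
    intro i
    have h3 : B i ∈ I := by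
      rw [hI]
      exact Ideal.subset_span ⟨i, rfl⟩
    rw [hg]
    exact (Submodule.IsPrincipal.mem_iff_generator_dvd I).1 h3
  choose B0 hB0 using h2
  have hg0 : g ≠ 0 := by
    rintro h0
    apply hB
    funext i
    rw [hB0 i, h0, zero_mul]
    rfl
  refine ⟨g, B0, hg0, ⟨c, ?_⟩, ?_⟩
  · apply mul_left_cancel₀ hg0
    rw [mul_one, Finset.mul_sum]
    nth_rewrite 2 [← hc]
    refine Finset.sum_congr rfl fun i _ => ?_
    rw [hB0 i]
    ring
  · funext i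
    rw [Pi.smul_apply, smul_eq_mul]
    exact hB0 i

/-- a multiple of a primitive vector -/
lemma prim_mul {d : ℕ} {B B0 : Fin d → ℤ} (h0 : Prim B0) {z y : ℤ} (hz : z ≠ 0)
    (h : ∀ i, z * B i = y * B0 i) : ∃ g : ℤ, B = g • B0 := by
  obtain ⟨c, hc⟩ := h0
  refine ⟨∑ i, c i * B i, ?_⟩
  funext i
  apply mul_left_cancel₀ hz
  rw [Pi.smul_apply, smul_eq_mul, h i]
  have h1 : z * ∑ j, c j * B j = y := by
    rw [Finset.mul_sum]
    have : ∑ j, z * (c j * B j) = ∑ j, y * (c j * B0 j) := by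
      refine Finset.sum_congr rfl fun j _ => ?_
      have := h j
      linear_combination c j * this
    rw [this, ← Finset.mul_sum, hc, mul_one]
  rw [← mul_assoc, h1]

end Pool.Agent.N538.MR
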