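import Pool.Agent.N538.MR.Seq

/-!
# Finite sequences of minimal points of a linear form
-/

set_option autoImplicit false

namespace Pool.Agent.N538.MR

open Filter Topology

/-- a finite sequence of minimal points of the form `L` -/
structure MinF {d : ℕ} (L : (Fin d → ℤ) →+ ℝ) (w : ℝ) (v : ℕ → Fin d → ℤ) (x : ℕ → ℕ) (n : ℕ) :
    Prop where
  pos : 1 ≤ x 0
  lt : ∀ k, k < n → x k < x (k + 1)
  ht_le : ∀ k, k ≤ n → ht (v k) ≤ x k
  ne : ∀ k, k ≤ n → v k ≠ 0
  dec : ∀ k, k < n → |L (v (k + 1))| < |L (v k)|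
  small : ∀ k, k < n → |L (v k)| ≤ 2 ^ w * (x (k + 1) : ℝ) ^ (-w)
  indep : ∀ k, k < n → ∀ a b : ℤ, a • v k + b • v (k + 1) = 0 → a = 0 ∧ b = 0

/-- near relations at all scales between `N0` and `N1` give a finite sequence of minimal
points -/
theorem exists_minF {d : ℕ} (hd : 0 < d) (L : (Fin d → ℤ) →+ ℝ) (w : ℝ) (hw : 0 < w)
    (N0 N1 : ℕ) (h01 : N0 ≤ N1) (hN0 : 1 ≤ N0)
    (hU : ∀ N : ℕ, N0 ≤ N → N ≤ N1 → ∃ v : Fin d → ℤ, v ≠ 0 ∧ ht v ≤ N ∧ |L v| ≤ (N : ℝ) ^ (-w)) :
    ∃ (v : ℕ → Fin d → ℤ) (x : ℕ → ℕ) (n : ℕ), MinF L w v x n ∧ x 0 = N0 ∧ x n ≤ N1 ∧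
      ∀ u : Fin d → ℤ, u ≠ 0 → ht u ≤ N1 → |L (v n)| ≤ |L u| := by
  classical
  -- minimal points
  have hmin : ∀ N : ℕ, ∃ v : Fin d → ℤ, 1 ≤ N → v ≠ 0 ∧ ht v ≤ N ∧
      ∀ u : Fin d → ℤ, u ≠ 0 → ht u ≤ N → |L v| ≤ |L u| := by
    intro N
    by_cases hN : 1 ≤ N
    · obtain ⟨S, hS⟩ : ∃ S : Finset (Fin d → ℤ), S =
        (Fintype.piFinset fun _ => Finset.Icc (-(N : ℤ)) N).filter (· ≠ 0) := ⟨_, rfl⟩
      have hmem : ∀ u : Fin d → ℤ, u ∈ S ↔ u ≠ 0 ∧ ht u ≤ N := by
        intro u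
        rw [hS, Finset.mem_filter, Fintype.mem_piFinset, ht_le_iff]
        constructor
        · rintro ⟨h1, h2⟩
          refine ⟨h2, fun i => ?_⟩
          have := Finset.mem_Icc.1 (h1 i)
          omega
        · rintro ⟨h1, h2⟩
          refine ⟨fun i => ?_, h1⟩
          have := h2 i
          rw [Finset.mem_Icc]
          omega
      have hne : S.Nonempty := by
        refine ⟨Pi.single ⟨0, hd⟩ 1, ?_⟩
        rw [hmem]
        constructor
        · intro h
          have := congrFun h ⟨0, hd⟩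
          simp at this
        · rw [ht_le_iff]
          intro i
          by_cases hi : i = ⟨0, hd⟩
          · rw [hi, Pi.single_eq_same]
            simpa using hN
          · rw [Pi.single_eq_of_ne hi]
            simp
      obtain ⟨v, hv, hv2⟩ := Finset.exists_min_image S (fun u => |L u|) hne
      refine ⟨v, fun _ => ⟨((hmem v).1 hv).1, ((hmem v).1 hv).2, fun u hu hu2 => ?_⟩⟩
      exact hv2 u ((hmem u).2 ⟨hu, hu2⟩)
    · exact ⟨0, fun h => absurd h hN⟩
  choose V hV using hmin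
  obtain ⟨g, hg⟩ : ∃ g : ℕ → ℝ, g = fun N => |L (V N)| := ⟨_, rfl⟩
  have hgN : ∀ N, g N = |L (V N)| := fun N => by rw [hg]
  have hg0 : ∀ N, 0 ≤ g N := fun N => by rw [hgN]; exact abs_nonneg _
  have hgsmall : ∀ N : ℕ, N0 ≤ N → N ≤ N1 → g N ≤ (N : ℝ) ^ (-w) := by
    intro N hN hN'
    obtain ⟨u, hu0, hu1, hu2⟩ := hU N hN hN'
    rw [hgN]
    exact ((hV N (hN0.trans hN)).2.2 u hu0 hu1).trans hu2
  -- two minimal points are independent
  have hind : ∀ N M : ℕ, 1 ≤ N → 1 ≤ M → g M < g N → ∀ a b : ℤ, a • V N + b • V M = 0 →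
      a = 0 ∧ b = 0 := by
    intro N M hN hM h2 a b hab
    have hvk := hV N hN
    have hvk1 := hV M hM
    by_cases ha : a = 0
    · refine ⟨ha, ?_⟩
      rw [ha, zero_smul, zero_add] at hab
      exact (smul_eq_zero.1 hab).resolve_right hvk1.1
    · exfalso
      have hb : b ≠ 0 := by
        rintro rfl
        rw [zero_smul, add_zero] at hab
        exact ha ((smul_eq_zero.1 hab).resolve_right hvk.1)
      have e1 : a • V N = (-b) • V M := by
        rw [neg_smul]
        exact eq_neg_of_add_eq_zero_left hab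
      have e2 : (a.natAbs : ℝ) * g N = (b.natAbs : ℝ) * g M := by
        have h4 : ∀ (c : ℤ) (z : Fin d → ℤ), L (c • z) = c * L z := fun c z => by
          rw [map_zsmul, zsmul_eq_mul]
        have h5 : |L (a • V N)| = |L ((-b) • V M)| := by rw [e1]
        rw [h4, h4, abs_mul, abs_mul, Int.cast_neg, abs_neg] at h5
        rw [hgN, hgN, Nat.cast_natAbs, Nat.cast_natAbs, Int.cast_abs, Int.cast_abs]
        exact h5
      have e3 : a.natAbs * ht (V N) = b.natAbs * ht (V M) := by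
        have := congrArg ht e1
        rw [ht_smul, ht_smul, Int.natAbs_neg] at this
        exact this
      have hg1 : 0 < g N := (hg0 M).trans_lt h2
      have hb' : 0 < b.natAbs := Int.natAbs_pos.2 hb
      have hlt : a.natAbs < b.natAbs := by
        have hbR : (0 : ℝ) < b.natAbs := by exact_mod_cast hb'
        have h4 : (a.natAbs : ℝ) * g N < (b.natAbs : ℝ) * g N := by
          rw [e2]
          exact mul_lt_mul_of_pos_left h2 hbR
        have h5 := lt_of_mul_lt_mul_right h4 hg1.le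
        exact_mod_cast h5
      have hle : ht (V M) ≤ ht (V N) := by
        by_contra hcon
        push Not at hcon
        have h6 : a.natAbs * ht (V N) ≤ b.natAbs * ht (V N) :=
          Nat.mul_le_mul_right _ hlt.le
        have h7 : b.natAbs * ht (V N) < b.natAbs * ht (V M) :=
          Nat.mul_lt_mul_of_pos_left hcon hb'
        omega
      have h8 := hvk.2.2 (V M) hvk1.1 (hle.trans hvk.2.1)
      rw [← hgN, ← hgN] at h8
      linarith
  -- the sequence
  have hseq : ∀ M : ℕ, N0 ≤ M → M ≤ N1 → ∃ (x : ℕ → ℕ) (n : ℕ), x 0 = N0 ∧ x n ≤ M ∧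
      g (x n) ≤ g M ∧ (∀ k, k ≤ n → N0 ≤ x k) ∧ (∀ k, k < n → x k < x (k + 1) ∧
        g (x (k + 1)) < g (x k) ∧ g (x k) ≤ 2 ^ w * (x (k + 1) : ℝ) ^ (-w)) := by
    intro M hM
    induction M, hM using Nat.le_induction with
    | base =>
      intro _
      refine ⟨fun _ => N0, 0, rfl, le_rfl, le_rfl, fun _ _ => le_rfl, fun k hk => by omega⟩
    | succ M hM ih =>
      intro hM1
      obtain ⟨x, n, hx0, hxn, hgn, hxN, hk⟩ := ih (by omega)
      by_cases hlt : g (M + 1) < g (x n)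
      · refine ⟨fun k => if k ≤ n then x k else M + 1, n + 1, ?_, ?_, ?_, ?_, ?_⟩
        · simp [hx0]
        · simp
        · simp
        · intro k hk2
          show N0 ≤ (if k ≤ n then x k else M + 1)
          split_ifs with h
          · exact hxN k h
          · omega
        · intro k hk2
          show (if k ≤ n then x k else M + 1) < (if k + 1 ≤ n then x (k + 1) else M + 1) ∧
            g (if k + 1 ≤ n then x (k + 1) else M + 1) < g (if k ≤ n then x k else M + 1) ∧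
            g (if k ≤ n then x k else M + 1) ≤
              2 ^ w * (((if k + 1 ≤ n then x (k + 1) else M + 1 : ℕ) : ℝ)) ^ (-w)
          rw [if_pos (show k ≤ n by omega)]
          by_cases h : k + 1 ≤ n
          · rw [if_pos h]
            exact hk k (by omega)
          · rw [if_neg h]
            have hkn : k = n := by omega
            subst hkn
            refine ⟨by omega, hlt, ?_⟩
            have h5 := hgsmall M hM (by omega)
            refine (hgn.trans h5).trans ?_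
            have h6 : (1 : ℝ) ≤ M := by exact_mod_cast hN0.trans hM
            push_cast
            have h9 : (M : ℝ) ^ (-w) ≤ (((M : ℝ) + 1) / 2) ^ (-w) :=
              Real.rpow_le_rpow_of_nonpos (by linarith) (by linarith) (by linarith)
            refine h9.trans (le_of_eq ?_)
            rw [Real.div_rpow (by linarith) (by norm_num), Real.rpow_neg (by norm_num : (0:ℝ) ≤ 2)]
            field_simp
      · push Not at hlt
        exact ⟨x, n, hx0, by omega, hlt, hxN, hk⟩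
  obtain ⟨x, n, hx0, hxn, hgn, hxN, hk⟩ := hseq N1 h01 le_rfl
  refine ⟨fun k => V (x k), x, n, ⟨?_, ?_, ?_, ?_, ?_, ?_, ?_⟩, hx0, hxn, ?_⟩
  · rw [hx0]; exact hN0
  · intro k h
    exact (hk k h).1
  · intro k h
    exact (hV (x k) (hN0.trans (hxN k h))).2.1
  · intro k h
    exact (hV (x k) (hN0.trans (hxN k h))).1
  · intro k h
    have := (hk k h).2.1
    rw [hgN, hgN] at this
    exact this
  · intro k h
    have := (hk k h).2.2
    rw [hgN] at this
    exact this
  · intro k h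
    exact hind _ _ (hN0.trans (hxN k h.le)) (hN0.trans (hxN (k + 1) h)) (hk k h).2.1
  · intro u hu hu2
    rw [hgN] at hgn
    refine hgn.trans ?_
    rw [hgN]
    exact (hV N1 (hN0.trans h01)).2.2 u hu hu2

/-- near relations at all scales in `[Y, Z]` -/
theorem exists_minF' {d : ℕ} (hd : 0 < d) (L : (Fin d → ℤ) →+ ℝ) (w : ℝ) (hw : 0 < w)
    (Y Z : ℝ) (hY : 1 ≤ Y) (hYZ : Y ≤ Z)
    (hU : ∀ X : ℝ, Y ≤ X → X ≤ Z →
      ∃ v : Fin d → ℤ, v ≠ 0 ∧ (ht v : ℝ) ≤ X ∧ |L v| ≤ X ^ (-w)) :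
    ∃ (v : ℕ → Fin d → ℤ) (x : ℕ → ℕ) (n : ℕ), MinF L w v x n ∧ (x 0 : ℝ) ≤ Y ∧ Y < x 0 + 1 ∧
      (x n : ℝ) ≤ Z ∧ |L (v n)| ≤ Z ^ (-w) := by
  have hfl : (⌊Y⌋₊ : ℝ) ≤ Y := Nat.floor_le (by linarith)
  have hfl2 : Y < ⌊Y⌋₊ + 1 := Nat.lt_floor_add_one Y
  have hfz : (⌊Z⌋₊ : ℝ) ≤ Z := Nat.floor_le (by linarith)
  have h1 : 1 ≤ ⌊Y⌋₊ := Nat.le_floor (by simpa using hY)
  obtain ⟨v, x, n, hS, hx0, hxn, hlast⟩ := exists_minF hd L w hw ⌊Y⌋₊ ⌊Z⌋₊
    (Nat.floor_le_floor hYZ) h1 (by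
      intro N hN hN'
      by_cases h : (N : ℝ) ≤ Y
      · obtain ⟨u, hu0, hu1, hu2⟩ := hU Y le_rfl hYZ
        refine ⟨u, hu0, ?_, ?_⟩
        · have h3 : ht u ≤ ⌊Y⌋₊ := Nat.le_floor hu1
          omega
        · refine hu2.trans (Real.rpow_le_rpow_of_nonpos ?_ h (by linarith))
          have : 1 ≤ N := h1.trans hN
          exact_mod_cast this
      · push Not at h
        obtain ⟨u, hu0, hu1, hu2⟩ := hU N h.le (le_trans (by exact_mod_cast hN') hfz)
        exact ⟨u, hu0, by exact_mod_cast hu1, hu2⟩)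
  refine ⟨v, x, n, hS, by rw [hx0]; exact hfl, by rw [hx0]; exact hfl2,
    le_trans (by exact_mod_cast hxn) hfz, ?_⟩
  obtain ⟨u, hu0, hu1, hu2⟩ := hU Z hYZ le_rfl
  exact (hlast u hu0 (Nat.le_floor hu1)).trans hu2

end Pool.Agent.N538.MR
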