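import Pool.Agent.N538.MR.TB
import Pool.Agent.N538.MR.SeqF

/-!
# The numbers `1, t, ξ, ξ t`: degenerate planes on an interval
-/

set_option autoImplicit false

namespace Pool.Agent.N538.MR

open Filter Topology

/-- a degenerate pair of consecutive minimal points comes from a rational number near `ξ` -/
theorem ndF {t w ε c : ℝ} (hε0 : 0 < ε) (hc0 : 0 < c)
    (hc : ∀ (n0 n1 : ℤ) (H : ℝ), ¬ (n0 = 0 ∧ n1 = 0) → 1 ≤ H → |(n0 : ℝ)| ≤ H → |(n1 : ℝ)| ≤ H →
      c ≤ H ^ (1 + ε) * |n0 + n1 * t|) (h2 : Tri t (t ^ 2)) (hw : 3 + 4 * ε ≤ w) :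
    ∃ E : ℝ, ∀ (ξ : ℝ) (v : ℕ → Fin 4 → ℤ) (x : ℕ → ℕ) (n : ℕ), MinF (LF (VB t ξ)) w v x n →
      E ≤ x 0 → ∀ k, k < n → ρB t (W (v k) (v (k + 1))) = 0 →
      ∃ p q : ℤ, ¬ (p = 0 ∧ q = 0) ∧ |(p : ℝ)| ≤ x k ∧ |(q : ℝ)| ≤ x k ∧
        c * |(p : ℝ) + q * ξ| ≤ (x n : ℝ) ^ (1 + ε) * |LF (VB t ξ) (v n)| := by
  obtain ⟨K, hK⟩ : ∃ K : ℝ, K = (2 : ℝ) ^ w := ⟨_, rfl⟩
  have hK0 : 0 < K := by rw [hK]; positivity
  have ht0 := abs_nonneg t
  obtain ⟨A, hA⟩ : ∃ A : ℝ, A = (2 : ℝ) ^ (1 + ε) * K * ((1 + |t|) / c + 1) := ⟨_, rfl⟩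
  have hA0 : 0 < A := by rw [hA]; positivity
  have hlim : Tendsto (fun z : ℝ => A * z ^ (-(2 * ε))) atTop (𝓝 0) := by
    have h3 := (tendsto_rpow_neg_atTop (show (0 : ℝ) < 2 * ε by linarith)).const_mul A
    rw [mul_zero] at h3
    exact h3
  obtain ⟨E, hE⟩ := eventually_atTop.1 (hlim.eventually_lt_const hc0)
  refine ⟨E, fun ξ v x n hS hEx k hkn hρ => ?_⟩
  obtain ⟨L, hLdef⟩ : ∃ L, L = LF (VB t ξ) := ⟨_, rfl⟩
  rw [← hLdef] at hS ⊢
  have hLeq : ∀ u : Fin 4 → ℤ, L u = (u 0 + u 1 * t) + (u 2 + u 3 * t) * ξ := fun u => by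
    rw [hLdef]; exact LB_eq t ξ u
  -- sizes
  have hxm' : ∀ i j, i ≤ j → j ≤ n → x i ≤ x j := by
    intro i j hij hj
    induction j, hij using Nat.le_induction with
    | base => exact le_rfl
    | succ j hij ih => exact (ih (by omega)).trans (hS.lt j (by omega)).le
  have hxm : ∀ i j, i ≤ j → j ≤ n → (x i : ℝ) ≤ x j := by
    intro i j hij hj
    exact_mod_cast hxm' i j hij hj
  have hx1 : ∀ k, k ≤ n → (1 : ℝ) ≤ x k := fun k hk => by
    have := hS.pos.trans (hxm' 0 k (by omega) hk)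
    exact_mod_cast this
  have hx0 : ∀ k, k ≤ n → (0 : ℝ) < x k := fun k hk => by have := hx1 k hk; linarith
  have hvi : ∀ k, k ≤ n → ∀ i, |(v k i : ℝ)| ≤ x k := fun k hk i =>
    (abs_le_ht _ i).trans (by exact_mod_cast hS.ht_le k hk)
  have hsm : ∀ k, k < n → |L (v k)| ≤ K * (x (k + 1) : ℝ) ^ (-w) := fun k hk => by
    rw [hK]; exact hS.small k hk
  obtain ⟨b1, b2, b3⟩ := rhoB_zero t h2 _ hρ
  obtain ⟨p, q, s, r, hsr, e1, e2⟩ := degen _ _ (hS.indep k hkn) b1 b2 b3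
  -- the size of `(p, q)`
  obtain ⟨M, hM⟩ : ∃ M : ℝ, M = max |(p : ℝ)| |(q : ℝ)| := ⟨_, rfl⟩
  have hpq : ¬ (p = 0 ∧ q = 0) := by
    rintro ⟨h1, h2⟩
    rw [h1, h2] at hsr
    simp at hsr
  have hM1 : 1 ≤ M := by
    have hpq' : p ≠ 0 ∨ q ≠ 0 := by tauto
    rw [hM]
    rcases hpq' with h | h
    · have h3 : 1 ≤ |p| := Int.one_le_abs h
      exact le_max_of_le_left (by exact_mod_cast h3)
    · have h3 : 1 ≤ |q| := Int.one_le_abs h
      exact le_max_of_le_right (by exact_mod_cast h3)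
  have hM0 : 0 < M := by linarith
  have hpM : |(p : ℝ)| ≤ M := by rw [hM]; exact le_max_left _ _
  have hqM : |(q : ℝ)| ≤ M := by rw [hM]; exact le_max_right _ _
  obtain ⟨l, hl⟩ : ∃ l : ℝ, l = p + q * ξ := ⟨_, rfl⟩
  -- a point on the degenerate plane
  have hpoint : ∀ m, m ≤ n → (q * v m 0 = p * v m 2 ∧ q * v m 1 = p * v m 3) →
      M ≤ x m ∧ c * |l| ≤ ((x m : ℝ) / M) ^ (1 + ε) * |L (v m)| := by
    rintro m hmn ⟨g1, g2⟩
    obtain ⟨α, hα⟩ : ∃ α : ℤ, α = s * v m 0 + r * v m 2 := ⟨_, rfl⟩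
    obtain ⟨β, hβ⟩ : ∃ β : ℤ, β = s * v m 1 + r * v m 3 := ⟨_, rfl⟩
    have f0 : v m 0 = p * α := by rw [hα]; linear_combination (-(v m 0)) * hsr + r * g1
    have f2 : v m 2 = q * α := by rw [hα]; linear_combination (-(v m 2)) * hsr - s * g1
    have f1 : v m 1 = p * β := by rw [hβ]; linear_combination (-(v m 1)) * hsr + r * g2
    have f3 : v m 3 = q * β := by rw [hβ]; linear_combination (-(v m 3)) * hsr - s * g2
    have hαβ : ¬ (α = 0 ∧ β = 0) := by
      rintro ⟨a1, a2⟩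
      apply hS.ne m hmn
      funext j
      fin_cases j
      · show v m 0 = 0
        rw [f0, a1, mul_zero]
      · show v m 1 = 0
        rw [f1, a2, mul_zero]
      · show v m 2 = 0
        rw [f2, a1, mul_zero]
      · show v m 3 = 0
        rw [f3, a2, mul_zero]
    have hMα : ∀ (γ : ℤ) (i j : Fin 4), v m i = p * γ → v m j = q * γ → M * |(γ : ℝ)| ≤ x m := by
      intro γ i j hi hj
      have c1 := hvi m hmn i
      have c2 := hvi m hmn j
      rw [hi] at c1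
      rw [hj] at c2
      push_cast at c1 c2
      rw [abs_mul] at c1 c2
      rw [hM]
      rcases le_total |(p : ℝ)| |(q : ℝ)| with h | h
      · rw [max_eq_right h]; exact c2
      · rw [max_eq_left h]; exact c1
    have hMα1 := hMα α 0 2 f0 f2
    have hMβ1 := hMα β 1 3 f1 f3
    have hMx : M ≤ x m := by
      by_cases h : α = 0
      · have h' : β ≠ 0 := fun h0 => hαβ ⟨h, h0⟩
        have h3 : (1 : ℝ) ≤ |(β : ℝ)| := by
          have : 1 ≤ |β| := Int.one_le_abs h'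
          exact_mod_cast this
        nlinarith
      · have h3 : (1 : ℝ) ≤ |(α : ℝ)| := by
          have : 1 ≤ |α| := Int.one_le_abs h
          exact_mod_cast this
        nlinarith
    have hLv : L (v m) = l * (α + β * t) := by
      rw [hLeq, f0, f1, f2, f3, hl]
      push_cast
      ring
    refine ⟨hMx, ?_⟩
    have h3 := hc α β ((x m : ℝ) / M) hαβ (by rw [le_div_iff₀ hM0]; linarith)
      (by rw [le_div_iff₀ hM0]; linarith) (by rw [le_div_iff₀ hM0]; linarith)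
    have h4 := mul_le_mul_of_nonneg_right h3 (abs_nonneg l)
    rw [hLv, abs_mul]
    linarith
  have hind : ∀ m, k ≤ m → m ≤ n → (q * v m 0 = p * v m 2 ∧ q * v m 1 = p * v m 3) := by
    intro m hm
    induction m, hm using Nat.le_induction with
    | base => exact fun _ => ⟨e1, e2⟩
    | succ m hm ih =>
      intro hmn
      by_contra hcon
      have hmn' : m < n := hmn
      obtain ⟨hMx, hcl⟩ := hpoint m hmn'.le (ih hmn'.le)
      obtain ⟨z, hz⟩ : ∃ z : ℝ, z = x (m + 1) := ⟨_, rfl⟩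
      have hz1 : 1 ≤ z := by rw [hz]; exact hx1 _ hmn
      have hz0 : 0 < z := by linarith
      have hxz : (x m : ℝ) ≤ z := by rw [hz]; exact hxm _ _ (by omega) hmn
      have hMz : M ≤ z := hMx.trans hxz
      have hvz : ∀ i, |(v (m + 1) i : ℝ)| ≤ z := fun i => by rw [hz]; exact hvi _ hmn i
      obtain ⟨R0, hR0⟩ : ∃ R0 : ℤ, R0 = p * v (m + 1) 2 - q * v (m + 1) 0 := ⟨_, rfl⟩
      obtain ⟨R1, hR1⟩ : ∃ R1 : ℤ, R1 = p * v (m + 1) 3 - q * v (m + 1) 1 := ⟨_, rfl⟩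
      have hR : ¬ (R0 = 0 ∧ R1 = 0) := by
        rintro ⟨a1, a2⟩
        exact hcon ⟨by linarith, by linarith⟩
      have hbd : ∀ i j, |((p * v (m + 1) i - q * v (m + 1) j : ℤ) : ℝ)| ≤ 2 * (M * z) := by
        intro i j
        push_cast
        rw [mul_comm (q : ℝ)]
        exact sub_bound _ _ _ _ _ _ hpM (hvz i) (hvz j) hqM
      have h3 := hc R0 R1 (2 * (M * z)) hR (by nlinarith) (by rw [hR0]; exact hbd 2 0)
        (by rw [hR1]; exact hbd 3 1)
      have e3 : (R0 : ℝ) + R1 * t = (v (m + 1) 2 + v (m + 1) 3 * t) * l - q * L (v (m + 1)) := by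
        rw [hR0, hR1, hLeq, hl]
        push_cast
        ring
      have h4 : |(R0 : ℝ) + R1 * t| ≤ (1 + |t|) * z * |l| + M * |L (v (m + 1))| := by
        rw [e3]
        refine (abs_sub _ _).trans ?_
        rw [abs_mul, abs_mul]
        exact add_le_add (mul_le_mul_of_nonneg_right (lin_le t z _ _ (hvz 2) (hvz 3))
          (abs_nonneg _)) (mul_le_mul_of_nonneg_right hqM (abs_nonneg _))
      have h5 : |L (v (m + 1))| ≤ K * z ^ (-w) := by
        rw [hz]; exact (hS.dec m hmn').le.trans (hsm m hmn')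
      have h6 : |l| ≤ (z / M) ^ (1 + ε) * (K * z ^ (-w)) / c := by
        rw [le_div_iff₀ hc0, mul_comm]
        refine hcl.trans ?_
        apply mul_le_mul
        · apply Real.rpow_le_rpow (by have := hx0 m hmn'.le; positivity) _ (by linarith)
          exact div_le_div_of_nonneg_right hxz hM0.le
        · rw [hz]; exact hsm m hmn'
        · exact abs_nonneg _
        · positivity
      have h7 : c ≤ (2 * (M * z)) ^ (1 + ε) * ((1 + |t|) * z * ((z / M) ^ (1 + ε) *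
          (K * z ^ (-w)) / c) + M * (K * z ^ (-w))) := by
        refine h3.trans (mul_le_mul_of_nonneg_left (h4.trans ?_) (by positivity))
        exact add_le_add (mul_le_mul_of_nonneg_left h6 (by positivity))
          (mul_le_mul_of_nonneg_left h5 hM0.le)
      -- powers
      have g1 : (2 * (M * z)) ^ (1 + ε) = 2 ^ (1 + ε) * (M ^ (1 + ε) * z ^ (1 + ε)) := by
        rw [Real.mul_rpow (by norm_num) (by positivity), Real.mul_rpow hM0.le hz0.le]
      have g2 : (z / M) ^ (1 + ε) = z ^ (1 + ε) / M ^ (1 + ε) := Real.div_rpow hz0.le hM0.le _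
      have g3 : z ^ (1 + ε) * z ^ (1 + ε) * z * z ^ (-w) ≤ z ^ (-(2 * ε)) := by
        have h8 : z ^ (1 + ε) * z ^ (1 + ε) * z * z ^ (-w) = z ^ ((1 + ε) + (1 + ε) + 1 + -w) := by
          rw [Real.rpow_add hz0 ((1 + ε) + (1 + ε) + 1), Real.rpow_add hz0 ((1 + ε) + (1 + ε)),
            Real.rpow_add hz0 (1 + ε), Real.rpow_one]
        rw [h8]
        exact Real.rpow_le_rpow_of_exponent_le hz1 (by linarith)
      have g4 : M ^ (1 + ε) ≤ z ^ (1 + ε) := Real.rpow_le_rpow hM0.le hMz (by linarith)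
      have hMp : 0 < M ^ (1 + ε) := by positivity
      have hzp : 0 < z ^ (1 + ε) := by positivity
      have hzw : 0 < z ^ (-w) := by positivity
      have g5 : (2 * (M * z)) ^ (1 + ε) * ((1 + |t|) * z * ((z / M) ^ (1 + ε) *
          (K * z ^ (-w)) / c) + M * (K * z ^ (-w))) ≤ A * z ^ (-(2 * ε)) := by
        rw [g1, g2]
        have i1 : 2 ^ (1 + ε) * (M ^ (1 + ε) * z ^ (1 + ε)) * ((1 + |t|) * z *
            (z ^ (1 + ε) / M ^ (1 + ε) * (K * z ^ (-w)) / c) + M * (K * z ^ (-w))) =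
            2 ^ (1 + ε) * K * ((1 + |t|) / c) * (z ^ (1 + ε) * z ^ (1 + ε) * z * z ^ (-w)) +
            2 ^ (1 + ε) * K * (M ^ (1 + ε) * z ^ (1 + ε) * M * z ^ (-w)) :=
          pow_ident _ _ _ _ _ _ _ _ _ hMp.ne' hc0.ne'
        rw [i1]
        have i2 : M ^ (1 + ε) * z ^ (1 + ε) * M * z ^ (-w) ≤ z ^ (-(2 * ε)) := by
          refine le_trans ?_ g3
          have j1 : M ^ (1 + ε) * z ^ (1 + ε) ≤ z ^ (1 + ε) * z ^ (1 + ε) :=
            mul_le_mul_of_nonneg_right g4 hzp.le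
          have j2 := mul_le_mul j1 hMz hM0.le (by positivity)
          exact mul_le_mul_of_nonneg_right j2 hzw.le
        have i3 := mul_le_mul_of_nonneg_left i2 (show 0 ≤ (2 : ℝ) ^ (1 + ε) * K by positivity)
        have i5 := mul_le_mul_of_nonneg_left g3
          (show 0 ≤ (2 : ℝ) ^ (1 + ε) * K * ((1 + |t|) / c) by positivity)
        have i4 : A * z ^ (-(2 * ε)) = 2 ^ (1 + ε) * K * ((1 + |t|) / c) * z ^ (-(2 * ε)) +
            2 ^ (1 + ε) * K * z ^ (-(2 * ε)) := by rw [hA]; ring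
        rw [i4]
        linarith
      have h8 := hE z (hEx.trans (by rw [hz]; exact hxm 0 (m + 1) (by omega) hmn))
      linarith
  obtain ⟨hMk, -⟩ := hpoint k hkn.le ⟨e1, e2⟩
  obtain ⟨-, hcl⟩ := hpoint n le_rfl (hind n hkn.le le_rfl)
  refine ⟨p, q, hpq, hpM.trans hMk, hqM.trans hMk, ?_⟩
  rw [← hl]
  refine hcl.trans ?_
  apply mul_le_mul_of_nonneg_right _ (abs_nonneg _)
  apply Real.rpow_le_rpow (by have := hx0 n le_rfl; positivity) _ (by linarith)
  exact div_le_self (hx0 n le_rfl).le hM1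

end Pool.Agent.N538.MR
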