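import Pool.Agent.N538.MR.Loc4
import Pool.Agent.N538.MR.TBF

/-!
# The numbers `1, t, ξ, ξ t`: near relations at all scales of an interval
-/

set_option autoImplicit false

namespace Pool.Agent.N538.MR

open Filter Topology

/-- the measures give the data, with constants which do not depend on `ξ` -/
theorem dataBF {t : ℝ} (h1 : Lin t) (h2 : Tri t (t ^ 2)) (ε : ℝ) (hε : 0 < ε) :
    ∃ A c c' : ℝ, 0 < A ∧ 0 < c ∧ 0 < c' ∧ ∀ ξ : ℝ,
      DataF (VB t ξ) (LF (VB t ξ)) (ρB t) A c c' ε := by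
  obtain ⟨c, hc, -⟩ := (dataB t 0 h1 h2).meas ε hε
  obtain ⟨c2, hc2, h⟩ := h2 ε hε
  obtain ⟨c1, hc1, h'⟩ := h1 ε hε
  have hp : (0 : ℝ) < 2 ^ (2 + ε) := by positivity
  refine ⟨1 + |t|, c2 / 2 ^ (2 + ε), min c1 1, by have := abs_nonneg t; linarith, by positivity,
    lt_min hc1 one_pos, fun ξ => ?_⟩
  have hD := dataB t ξ h1 h2
  refine ⟨hD.V0, hD.LV, hD.smul, hD.pair, ?_, ?_⟩
  · intro B H hB hH hBH
    have h3 := h (B 1) (B 2 + B 3) (B 4) (2 * H) ?_ (by linarith) ?_ ?_ ?_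
    · rw [div_le_iff₀ hp]
      rw [Real.mul_rpow (by norm_num) (by linarith)] at h3
      have e : (B 1 : ℝ) + ((B 2 + B 3 : ℤ) : ℝ) * t + (B 4 : ℝ) * t ^ 2 = ρB t B := by
        unfold ρB; push_cast; ring
      rw [e] at h3
      linarith
    · rintro ⟨a1, a2, a3⟩
      apply hB
      have a2' : (B 2 : ℝ) + B 3 = 0 := by exact_mod_cast a2
      unfold ρB
      rw [a1, a3, a2']
      simp
    · have := hBH 1; linarith
    · push_cast
      refine (abs_add_le _ _).trans ?_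
      have := hBH 2
      have := hBH 3
      linarith
    · have := hBH 4; linarith
  · intro N H hN hH hNH
    have hH1 : (1 : ℝ) ≤ H ^ (1 + ε) := Real.one_le_rpow hH (by linarith)
    have hone : ∀ z : ℤ, z ≠ 0 → min c1 1 ≤ H ^ (1 + ε) * |(z : ℝ)| := by
      intro z hz
      have h3 : (1 : ℝ) ≤ |(z : ℝ)| := by
        have : 1 ≤ |z| := Int.one_le_abs hz
        exact_mod_cast this
      have := one_le_mul_of_one_le_of_one_le hH1 h3
      exact (min_le_right _ _).trans this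
    by_cases h01 : N 0 = 0 ∧ N 1 = 0
    · by_cases hN2 : N 2 = 0
      · have hN3 : N 3 ≠ 0 := by
          intro hN3
          apply hN
          funext j
          fin_cases j
          · exact h01.1
          · exact h01.2
          · exact hN2
          · exact hN3
        refine ⟨3, 0, ?_⟩
        have e : (N 3 : ℝ) * VB t ξ 0 - N 0 * VB t ξ 3 = N 3 := by
          rw [h01.1]; simp [VB]
        rw [e]
        exact hone _ hN3
      · refine ⟨2, 0, ?_⟩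
        have e : (N 2 : ℝ) * VB t ξ 0 - N 0 * VB t ξ 2 = N 2 := by
          rw [h01.1]; simp [VB]
        rw [e]
        exact hone _ hN2
    · refine ⟨0, 1, ?_⟩
      have e : (N 0 : ℝ) * VB t ξ 1 - N 1 * VB t ξ 0 = ((-N 1 : ℤ) : ℝ) + (N 0 : ℤ) * t := by
        simp [VB]; ring
      rw [e]
      refine (min_le_left _ _).trans (h' (-N 1) (N 0) H (by omega) hH ?_ (hNH 0))
      push_cast
      rw [abs_neg]
      exact hNH 1

/-- **near relations between `1, t, ξ, ξ t` at all scales of an interval** -/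
theorem tbLoc {t w η : ℝ} (h1 : Lin t) (h2 : Tri t (t ^ 2)) (hw : 3 + Real.sqrt 2 < w)
    (hη : 0 < η) : ∃ Y0 : ℝ, 1 ≤ Y0 ∧ ∀ ξ Y Z : ℝ, Y0 ≤ Y → Y ≤ Z →
      (∀ X : ℝ, Y ≤ X → X ≤ Z → ∃ v : Fin 4 → ℤ, v ≠ 0 ∧ (ht v : ℝ) ≤ X ∧
        |LF (VB t ξ) v| ≤ X ^ (-w)) →
      ∃ v : Fin 4 → ℤ, v ≠ 0 ∧ (ht v : ℝ) ≤ Y ^ (2 + Real.sqrt 2) ∧
        (|LF (VB t ξ) v| ≤ Z ^ (-w) ∨
          (v 1 = 0 ∧ v 3 = 0 ∧ |LF (VB t ξ) v| ≤ Z ^ (-(w - 1 - η)))) := by
  have hs0 : 0 ≤ Real.sqrt 2 := Real.sqrt_nonneg 2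
  have hs1 : 1.4 ≤ Real.sqrt 2 := Real.le_sqrt_of_sq_le (by norm_num)
  obtain ⟨A, c, c', hA, hc, hc', hD⟩ := dataBF h1 h2 ((w - 3 - Real.sqrt 2) / 8) (by linarith)
  obtain ⟨E1, hE1⟩ := main4F hA hc hc' hw
  obtain ⟨ε, hε⟩ : ∃ ε : ℝ, ε = min (η / 2) (1 / 4) := ⟨_, rfl⟩
  have hε0 : 0 < ε := by rw [hε]; exact lt_min (by linarith) (by norm_num)
  have hε1 : ε ≤ η / 2 := by rw [hε]; exact min_le_left _ _
  have hε2 : ε ≤ 1 / 4 := by rw [hε]; exact min_le_right _ _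
  obtain ⟨c3, hc3, h3⟩ := h1 ε hε0
  obtain ⟨E2, hE2⟩ := ndF hε0 hc3 h3 h2 (show 3 + 4 * ε ≤ w by linarith)
  -- the size of `Z`
  have hlim : Tendsto (fun z : ℝ => z ^ (η / 2)) atTop atTop :=
    tendsto_rpow_atTop (by linarith)
  obtain ⟨E3, hE3⟩ := eventually_atTop.1 (hlim.eventually_ge_atTop (1 / c3))
  refine ⟨max 1 (max (E1 + 1) (max (E2 + 1) E3)), le_max_left _ _, fun ξ Y Z hY hYZ hU => ?_⟩
  have hY1 : 1 ≤ Y := (le_max_left _ _).trans hY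
  have hYE1 : E1 + 1 ≤ Y := ((le_max_left _ _).trans (le_max_right _ _)).trans hY
  have hYE2 : E2 + 1 ≤ Y :=
    (((le_max_left _ _).trans (le_max_right _ _)).trans (le_max_right _ _)).trans hY
  have hYE3 : E3 ≤ Y :=
    (((le_max_right _ _).trans (le_max_right _ _)).trans (le_max_right _ _)).trans hY
  obtain ⟨v, x, n, hS, hx0, hx0', hxn, hLn⟩ :=
    exists_minF' (by norm_num) (LF (VB t ξ)) w (by linarith) Y Z hY1 hYZ hU
  have hpow : (x 0 : ℝ) ^ (2 + Real.sqrt 2) ≤ Y ^ (2 + Real.sqrt 2) :=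
    Real.rpow_le_rpow (Nat.cast_nonneg _) hx0 (by linarith)
  by_cases hnd : ∀ k, k < n → ρB t (W (v k) (v (k + 1))) ≠ 0
  · have h4 := hE1 _ _ _ (hD ξ) v x n hS (by linarith) hnd
    refine ⟨v n, hS.ne n le_rfl, ?_, Or.inl hLn⟩
    have h5 : (ht (v n) : ℝ) ≤ x n := by exact_mod_cast hS.ht_le n le_rfl
    linarith
  · push Not at hnd
    classical
    obtain ⟨k, ⟨hkn, hk⟩, hmin⟩ : ∃ k, (k < n ∧ ρB t (W (v k) (v (k + 1))) = 0) ∧
        ∀ i, i < k → ¬ (i < n ∧ ρB t (W (v i) (v (i + 1))) = 0) :=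
      ⟨Nat.find hnd, Nat.find_spec hnd, fun i hi => Nat.find_min hnd hi⟩
    have hS' : MinF (LF (VB t ξ)) w v x k := by
      refine ⟨hS.pos, fun i hi => hS.lt i (by omega), fun i hi => hS.ht_le i (by omega),
        fun i hi => hS.ne i (by omega), fun i hi => hS.dec i (by omega),
        fun i hi => hS.small i (by omega), fun i hi => hS.indep i (by omega)⟩
    have h4 := hE1 _ _ _ (hD ξ) v x k hS' (by linarith)
      (fun i hi h0 => hmin i hi ⟨by omega, h0⟩)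
    obtain ⟨p, q, hpq, hp, hq, hpq2⟩ := hE2 ξ v x n hS (by linarith) k hkn hk
    have hZ0 : 0 < Z := by linarith
    refine ⟨![p, 0, q, 0], ?_, ?_, Or.inr ⟨by simp, by simp, ?_⟩⟩
    · intro h
      have b1 := congrFun h 0
      have b2 := congrFun h 2
      simp at b1 b2
      exact hpq ⟨b1, b2⟩
    · have h6 : ht ![p, 0, q, 0] ≤ x k := by
        rw [ht_le_iff]
        have hp' : p.natAbs ≤ x k := by
          have : ((p.natAbs : ℤ) : ℝ) ≤ x k := by rw [Int.natCast_natAbs, Int.cast_abs]; exact hp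
          exact_mod_cast this
        have hq' : q.natAbs ≤ x k := by
          have : ((q.natAbs : ℤ) : ℝ) ≤ x k := by rw [Int.natCast_natAbs, Int.cast_abs]; exact hq
          exact_mod_cast this
        intro i
        fin_cases i
        · exact hp'
        · show (0 : ℤ).natAbs ≤ x k
          simp
        · exact hq'
        · show (0 : ℤ).natAbs ≤ x k
          simp
      have h5 : (ht ![p, 0, q, 0] : ℝ) ≤ x k := by exact_mod_cast h6
      linarith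
    · have e : LF (VB t ξ) ![p, 0, q, 0] = p + q * ξ := by
        rw [LB_eq]
        simp
      rw [e]
      have hxn0 : (0 : ℝ) ≤ x n := Nat.cast_nonneg _
      have h7 : c3 * |(p : ℝ) + q * ξ| ≤ Z ^ (1 + ε) * Z ^ (-w) :=
        hpq2.trans (mul_le_mul (Real.rpow_le_rpow hxn0 hxn (by linarith)) hLn (abs_nonneg _)
          (by positivity))
      have h8 : Z ^ (1 + ε) * Z ^ (-w) ≤ Z ^ (-(w - 1 - η)) / Z ^ (η / 2) := by
        rw [← Real.rpow_add hZ0, ← Real.rpow_sub hZ0]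
        exact Real.rpow_le_rpow_of_exponent_le (by linarith) (by linarith)
      have h9 : 1 / c3 ≤ Z ^ (η / 2) := hE3 Z (by linarith)
      have h10 : 0 < Z ^ (-(w - 1 - η)) := by positivity
      have h11 : 0 < Z ^ (η / 2) := by positivity
      have h12 : Z ^ (-(w - 1 - η)) / Z ^ (η / 2) ≤ c3 * Z ^ (-(w - 1 - η)) := by
        rw [div_le_iff₀ h11]
        rw [div_le_iff₀ hc3] at h9
        nlinarith
      have h13 : c3 * |(p : ℝ) + q * ξ| ≤ c3 * Z ^ (-(w - 1 - η)) := (h7.trans h8).trans h12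
      exact le_of_mul_le_mul_left h13 hc3

/-- a positive minimum over the vectors of bounded height -/
lemma pos_min {d : ℕ} (L : (Fin d → ℤ) →+ ℝ) (H : ℝ)
    (h : ∀ v : Fin d → ℤ, v ≠ 0 → (ht v : ℝ) ≤ H → L v ≠ 0) :
    ∃ m : ℝ, 0 < m ∧ ∀ v : Fin d → ℤ, v ≠ 0 → (ht v : ℝ) ≤ H → m ≤ |L v| := by
  classical
  obtain ⟨N, hN⟩ := exists_nat_ge H
  obtain ⟨S, hS⟩ : ∃ S : Finset (Fin d → ℤ), S =
    (Fintype.piFinset fun _ => Finset.Icc (-(N : ℤ)) N).filter (fun v => v ≠ 0 ∧ (ht v : ℝ) ≤ H) :=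
    ⟨_, rfl⟩
  have hmem : ∀ u : Fin d → ℤ, u ∈ S ↔ u ≠ 0 ∧ (ht u : ℝ) ≤ H := by
    intro u
    rw [hS, Finset.mem_filter, Fintype.mem_piFinset]
    constructor
    · rintro ⟨-, h2⟩
      exact h2
    · intro h2
      refine ⟨fun i => ?_, h2⟩
      have h3 : ht u ≤ N := by exact_mod_cast h2.2.trans hN
      have := (ht_le_iff u N).1 h3 i
      rw [Finset.mem_Icc]
      omega
  by_cases hne : S.Nonempty
  · obtain ⟨v, hv, hv2⟩ := Finset.exists_min_image S (fun u => |L u|) hne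
    have hv' := (hmem v).1 hv
    exact ⟨|L v|, abs_pos.2 (h v hv'.1 hv'.2), fun u hu hu2 => hv2 u ((hmem u).2 ⟨hu, hu2⟩)⟩
  · refine ⟨1, one_pos, fun u hu hu2 => ?_⟩
    exact absurd ⟨u, (hmem u).2 ⟨hu, hu2⟩⟩ hne

/-- **an exact relation of small height** -/
theorem tbExact {t w : ℝ} (h1 : Lin t) (h2 : Tri t (t ^ 2)) (hw : 3 + Real.sqrt 2 < w) :
    ∃ Y0 : ℝ, 1 ≤ Y0 ∧ ∀ ξ Y : ℝ, Y0 ≤ Y →
      (∀ X : ℝ, Y ≤ X → ∃ v : Fin 4 → ℤ, v ≠ 0 ∧ (ht v : ℝ) ≤ X ∧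
        |LF (VB t ξ) v| ≤ X ^ (-w)) →
      ∃ v : Fin 4 → ℤ, v ≠ 0 ∧ (ht v : ℝ) ≤ Y ^ (2 + Real.sqrt 2) ∧ LF (VB t ξ) v = 0 := by
  have hs0 : 0 ≤ Real.sqrt 2 := Real.sqrt_nonneg 2
  obtain ⟨Y0, hY0, h⟩ := tbLoc h1 h2 hw one_pos
  refine ⟨Y0, hY0, fun ξ Y hY hU => ?_⟩
  by_contra hcon
  push Not at hcon
  obtain ⟨m, hm0, hm⟩ := pos_min (LF (VB t ξ)) _ hcon
  have hlim : Tendsto (fun z : ℝ => z ^ (-(w - 1 - 1))) atTop (𝓝 0) :=
    tendsto_rpow_neg_atTop (by linarith)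
  obtain ⟨Z, hZ1, hZ2⟩ := ((hlim.eventually_lt_const hm0).and (eventually_ge_atTop Y)).exists
  have hZ3 : 1 ≤ Z := by linarith
  obtain ⟨v, hv0, hv1, hv2⟩ := h ξ Y Z hY hZ2 (fun X h1 _ => hU X h1)
  have h3 := hm v hv0 hv1
  have h4 : Z ^ (-w) ≤ Z ^ (-(w - 1 - 1)) := Real.rpow_le_rpow_of_exponent_le hZ3 (by linarith)
  rcases hv2 with h5 | ⟨-, -, h5⟩
  · linarith
  · linarith

end Pool.Agent.N538.MR
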