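import Pool.Agent.N538.MR.SimT
import Pool.Agent.N538.MR.FinB

/-!
# The numbers `1, ξ + t, ξ t`
-/

set_option autoImplicit false

namespace Pool.Agent.N538.MR

open Filter Topology

/-- **near relations between `1, ξ + t, ξ t` at all scales of an interval** -/
theorem taLoc {t w κ : ℝ} (h2 : Tri t (t ^ 2)) (hw : 2 + Real.sqrt 3 < w) (hκ1 : 1 ≤ κ)
    (hκ : 2 < κ * (w - 3)) : ∃ Y0 : ℝ, 1 ≤ Y0 ∧ ∀ ξ Y Z : ℝ, Y0 ≤ Y → Y ≤ Z →
      (∀ X : ℝ, Y ≤ X → X ≤ Z → ∃ v : Fin 3 → ℤ, v ≠ 0 ∧ (ht v : ℝ) ≤ X ∧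
        |LT t ξ v| ≤ X ^ (-w)) →
      ∃ v : Fin 3 → ℤ, v ≠ 0 ∧ (ht v : ℝ) ≤ Y ^ κ ∧ |LT t ξ v| ≤ Z ^ (-w) := by
  have hs0 : 0 ≤ Real.sqrt 3 := Real.sqrt_nonneg 3
  obtain ⟨E1, hE1⟩ := main3F h2 hw hκ1 hκ
  refine ⟨max 1 (E1 + 1), le_max_left _ _, fun ξ Y Z hY hYZ hU => ?_⟩
  have hY1 : 1 ≤ Y := (le_max_left _ _).trans hY
  have hYE1 : E1 + 1 ≤ Y := (le_max_right _ _).trans hY
  obtain ⟨v, x, n, hS, hx0, hx0', hxn, hLn⟩ :=
    exists_minF' (by norm_num) (LT t ξ) w (by linarith) Y Z hY1 hYZ hU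
  have hpow : (x 0 : ℝ) ^ κ ≤ Y ^ κ :=
    Real.rpow_le_rpow (Nat.cast_nonneg _) hx0 (by linarith)
  have h4 := hE1 ξ v x n hS (by linarith)
  refine ⟨v n, hS.ne n le_rfl, ?_, hLn⟩
  have h5 : (ht (v n) : ℝ) ≤ x n := by exact_mod_cast hS.ht_le n le_rfl
  linarith

/-- **an exact relation of small height** -/
theorem taExact {t w κ : ℝ} (h2 : Tri t (t ^ 2)) (hw : 2 + Real.sqrt 3 < w) (hκ1 : 1 ≤ κ)
    (hκ : 2 < κ * (w - 3)) : ∃ Y0 : ℝ, 1 ≤ Y0 ∧ ∀ ξ Y : ℝ, Y0 ≤ Y →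
      (∀ X : ℝ, Y ≤ X → ∃ v : Fin 3 → ℤ, v ≠ 0 ∧ (ht v : ℝ) ≤ X ∧ |LT t ξ v| ≤ X ^ (-w)) →
      ∃ v : Fin 3 → ℤ, v ≠ 0 ∧ (ht v : ℝ) ≤ Y ^ κ ∧ LT t ξ v = 0 := by
  have hs0 : 0 ≤ Real.sqrt 3 := Real.sqrt_nonneg 3
  obtain ⟨Y0, hY0, h⟩ := taLoc h2 hw hκ1 hκ
  refine ⟨Y0, hY0, fun ξ Y hY hU => ?_⟩
  by_contra hcon
  push Not at hcon
  obtain ⟨m, hm0, hm⟩ := pos_min (LT t ξ) _ hcon
  have hlim : Tendsto (fun z : ℝ => z ^ (-w)) atTop (𝓝 0) :=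
    tendsto_rpow_neg_atTop (by linarith)
  obtain ⟨Z, hZ1, hZ2⟩ := ((hlim.eventually_lt_const hm0).and (eventually_ge_atTop Y)).exists
  obtain ⟨v, hv0, hv1, hv2⟩ := h ξ Y Z hY hZ2 (fun X h1 _ => hU X h1)
  have h3 := hm v hv0 hv1
  linarith

/-- **one line at every scale** -/
theorem taLine {t w : ℝ} (h2 : Tri t (t ^ 2)) (hw : 5 < w) : ∃ X0 : ℝ, ∀ ξ X : ℝ, X0 ≤ X →
    ∀ u v : Fin 3 → ℤ, (ht u : ℝ) ≤ X → |LT t ξ u| ≤ X ^ (-w) → (ht v : ℝ) ≤ X →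
      |LT t ξ v| ≤ X ^ (-w) → W3 u v = 0 := by
  obtain ⟨ε, hε⟩ : ∃ ε : ℝ, ε = (w - 5) / 4 := ⟨_, rfl⟩
  have hε0 : 0 < ε := by rw [hε]; linarith
  obtain ⟨c, hc0, hc⟩ := h2 ε hε0
  obtain ⟨A, hA⟩ : ∃ A : ℝ, A = 1 + |t| := ⟨_, rfl⟩
  have hA0 : 0 < A := by rw [hA]; have := abs_nonneg t; linarith
  obtain ⟨K, hK⟩ : ∃ K : ℝ, K = 2 ^ (2 + ε) * (2 * A) := ⟨_, rfl⟩
  have hK0 : 0 < K := by rw [hK]; positivity
  have hlim : Tendsto (fun z : ℝ => K * z ^ (-(2 * ε))) atTop (𝓝 0) := by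
    have h3 := (tendsto_rpow_neg_atTop (show (0 : ℝ) < 2 * ε by linarith)).const_mul K
    rw [mul_zero] at h3
    exact h3
  obtain ⟨E, hE⟩ := eventually_atTop.1 (hlim.eventually_lt_const hc0)
  refine ⟨max 1 E, fun ξ X hX u v hu hLu hv hLv => ?_⟩
  have hX1 : 1 ≤ X := (le_max_left _ _).trans hX
  have hX0 : 0 < X := by linarith
  by_contra hne
  have hW : ∀ i, |((W3 u v i : ℤ) : ℝ)| ≤ 2 * (X * X) := fun i => by
    refine (W3_le u v i).trans ?_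
    have := mul_le_mul hu hv (Nat.cast_nonneg _) hX0.le
    linarith
  have h3 := hc (W3 u v 0) (W3 u v 1) (W3 u v 2) (2 * (X * X)) (by
    rintro ⟨z0, z1, z2⟩
    apply hne
    funext j
    fin_cases j
    · exact z0
    · exact z1
    · exact z2) (by nlinarith) (hW 0) (hW 1) (hW 2)
  have h4 : |ρT t (W3 u v)| ≤ A * (2 * (X * X ^ (-w))) := by
    refine (ρT_le t ξ u v).trans ?_
    rw [← hA]
    apply mul_le_mul_of_nonneg_left _ hA0.le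
    have h5 : (ht v : ℝ) * |LT t ξ u| ≤ X * X ^ (-w) :=
      mul_le_mul hv hLu (abs_nonneg _) hX0.le
    have h6 : (ht u : ℝ) * |LT t ξ v| ≤ X * X ^ (-w) :=
      mul_le_mul hu hLv (abs_nonneg _) hX0.le
    linarith
  have h5 : c ≤ (2 * (X * X)) ^ (2 + ε) * (A * (2 * (X * X ^ (-w)))) :=
    h3.trans (mul_le_mul_of_nonneg_left h4 (by positivity))
  have e : (2 * (X * X)) ^ (2 + ε) * (A * (2 * (X * X ^ (-w)))) = K * X ^ (-(2 * ε)) := by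
    rw [Real.mul_rpow (by norm_num) (by positivity), Real.mul_rpow hX0.le hX0.le, hK]
    have e1 : X ^ (-(2 * ε)) = X ^ (2 + ε) * X ^ (2 + ε) * X * X ^ (-w) := by
      rw [← Real.rpow_add hX0]
      nth_rewrite 3 [← Real.rpow_one X]
      rw [← Real.rpow_add hX0, ← Real.rpow_add hX0]
      congr 1
      rw [hε]; ring
    rw [e1]
    ring
  rw [e] at h5
  have h6 := hE X ((le_max_right _ _).trans hX)
  linarith

/-- vectors with vanishing bivector are proportional -/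
lemma W3_zero (u v : Fin 3 → ℤ) (h : W3 u v = 0) (hu : u ≠ 0) :
    ∃ a b : ℤ, ¬ (a = 0 ∧ b = 0) ∧ a • u + b • v = 0 := by
  by_contra hcon
  apply W3_ne u v _ h
  intro a b hab
  by_contra hne
  exact hcon ⟨a, b, hne, hab⟩

/-- an exact relation gives good simultaneous approximations -/
theorem simConv {t ξ s : ℝ} (hs : s < 1) (hs0 : 0 < s) (u : Fin 3 → ℤ) (hu0 : u ≠ 0)
    (hu : LT t ξ u = 0) : ∃ Y : ℝ, ∀ X : ℝ, Y ≤ X → ∃ q p p' : ℤ, 1 ≤ q ∧ (q : ℝ) ≤ X ∧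
      |q * (ξ + t) - p| ≤ X ^ (-s) ∧ |q * (ξ * t) - p'| ≤ X ^ (-s) := by
  obtain ⟨y, hy⟩ : ∃ y : ℝ, y = ξ + t := ⟨_, rfl⟩
  obtain ⟨y', hy'⟩ : ∃ y' : ℝ, y' = ξ * t := ⟨_, rfl⟩
  rw [LT_apply, ← hy, ← hy'] at hu
  rw [← hy, ← hy']
  -- the general step
  have key : ∀ (β : ℝ) (m : ℤ) (C : ℝ), 1 ≤ m → 0 ≤ C →
      (∀ (r p : ℤ) (η : ℝ), |r * β - p| ≤ η → ∃ p1 p2 : ℤ,
        |(m * r : ℤ) * y - p1| ≤ C * η ∧ |(m * r : ℤ) * y' - p2| ≤ C * η) →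
      ∃ Y : ℝ, ∀ X : ℝ, Y ≤ X → ∃ q p p' : ℤ, 1 ≤ q ∧ (q : ℝ) ≤ X ∧
        |q * y - p| ≤ X ^ (-s) ∧ |q * y' - p'| ≤ X ^ (-s) := by
    intro β m C hm hC h
    have hmR : (1 : ℝ) ≤ m := by exact_mod_cast hm
    have hlim : Tendsto (fun z : ℝ => z ^ (1 - s)) atTop atTop :=
      tendsto_rpow_atTop (by linarith)
    obtain ⟨E, hE⟩ := eventually_atTop.1 (hlim.eventually_ge_atTop (C * (2 * m)))
    refine ⟨max (2 * m) E, fun X hX => ?_⟩
    have hXm : 2 * (m : ℝ) ≤ X := (le_max_left _ _).trans hX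
    have hX0 : 0 < X := by linarith
    obtain ⟨N, hN⟩ : ∃ N : ℕ, N = ⌊X / m⌋₊ := ⟨_, rfl⟩
    have hXm' : 2 ≤ X / m := by rw [le_div_iff₀ (by linarith)]; exact hXm
    have hN1 : 0 < N := by
      rw [hN]
      exact Nat.floor_pos.2 (by linarith)
    obtain ⟨p, r, hr0, hrN, hrp⟩ := Real.exists_int_int_abs_mul_sub_le β hN1
    have hNle : (N : ℝ) ≤ X / m := by rw [hN]; exact Nat.floor_le (by positivity)
    have hNge : X / (2 * m) ≤ N := by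
      have h1 : X / m < N + 1 := by rw [hN]; exact Nat.lt_floor_add_one _
      have h2 : X / (2 * m) = X / m / 2 := by
        rw [div_div]; ring_nf
      rw [h2]
      linarith
    have hη : |(r : ℝ) * β - p| ≤ 2 * m / X := by
      refine hrp.trans ?_
      rw [div_le_div_iff₀ (by positivity) hX0]
      rw [div_le_iff₀ (by positivity)] at hNge
      nlinarith
    obtain ⟨p1, p2, h1, h2⟩ := h r p _ hη
    have hfin : C * (2 * m / X) ≤ X ^ (-s) := by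
      have h3 := hE X ((le_max_right _ _).trans hX)
      have e : X ^ (-s) = X ^ (1 - s) / X := by
        rw [show -s = (1 - s) - 1 by ring, Real.rpow_sub hX0, Real.rpow_one]
      rw [e, ← mul_div_assoc]
      exact div_le_div_of_nonneg_right h3 hX0.le
    refine ⟨m * r, p1, p2, ?_, ?_, h1.trans hfin, h2.trans hfin⟩
    · have : 1 ≤ r := hr0
      nlinarith
    · push_cast
      have h3 : (r : ℝ) ≤ N := by exact_mod_cast hrN
      have h4 : (r : ℝ) ≤ X / m := h3.trans hNle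
      rw [le_div_iff₀ (by linarith)] at h4
      linarith
  have hm1 : ∀ z : ℤ, z ≠ 0 → 1 ≤ |z| := fun z hz => Int.one_le_abs hz
  by_cases h2 : u 2 = 0
  · -- `y` is rational
    have h1 : u 1 ≠ 0 := by
      intro h1
      apply hu0
      rw [h1, h2] at hu
      simp only [Int.cast_zero, zero_mul, add_zero] at hu
      funext i
      fin_cases i
      · exact_mod_cast hu
      · exact h1
      · exact h2
    rw [h2] at hu
    simp only [Int.cast_zero, zero_mul, add_zero] at hu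
    obtain ⟨σ, hσ, hσ1⟩ : ∃ σ : ℤ, |u 1| = σ * u 1 ∧ |(σ : ℝ)| = 1 := by
      rcases le_total 0 (u 1) with h | h
      · exact ⟨1, by rw [abs_of_nonneg h, one_mul], by simp⟩
      · exact ⟨-1, by rw [abs_of_nonpos h]; ring, by simp⟩
    refine key y' |u 1| |(u 1 : ℝ)| (hm1 _ h1) (abs_nonneg _) fun r p η hη => ?_
    have hη0 : 0 ≤ η := (abs_nonneg _).trans hη
    refine ⟨-(σ * u 0 * r), |u 1| * p, ?_, ?_⟩
    · have e : (((|u 1| * r : ℤ)) : ℝ) * y - ((-(σ * u 0 * r) : ℤ) : ℝ) =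
          σ * r * ((u 0 : ℝ) + u 1 * y) := by
        rw [hσ]
        push_cast
        ring
      rw [e, hu, mul_zero, abs_zero]
      positivity
    · have e : (((|u 1| * r : ℤ)) : ℝ) * y' - ((|u 1| * p : ℤ) : ℝ) =
          (|u 1| : ℤ) * ((r : ℝ) * y' - p) := by
        push_cast
        ring
      rw [e, abs_mul]
      push_cast
      rw [abs_abs]
      exact mul_le_mul_of_nonneg_left hη (abs_nonneg _)
  · obtain ⟨σ, hσ, hσ1⟩ : ∃ σ : ℤ, |u 2| = σ * u 2 ∧ |(σ : ℝ)| = 1 := by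
      rcases le_total 0 (u 2) with h | h
      · exact ⟨1, by rw [abs_of_nonneg h, one_mul], by simp⟩
      · exact ⟨-1, by rw [abs_of_nonpos h]; ring, by simp⟩
    refine key y |u 2| (|(u 1 : ℝ)| + |(u 2 : ℝ)|) (hm1 _ h2) (by positivity)
      fun r p η hη => ?_
    have hη0 : 0 ≤ η := (abs_nonneg _).trans hη
    refine ⟨|u 2| * p, -(σ * (u 0 * r + u 1 * p)), ?_, ?_⟩
    · have e : (((|u 2| * r : ℤ)) : ℝ) * y - ((|u 2| * p : ℤ) : ℝ) =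
          (|u 2| : ℤ) * ((r : ℝ) * y - p) := by
        push_cast
        ring
      rw [e, abs_mul]
      push_cast
      rw [abs_abs]
      have h3 := mul_le_mul_of_nonneg_left hη (abs_nonneg (u 2 : ℝ))
      have h4 := mul_nonneg (abs_nonneg (u 1 : ℝ)) hη0
      linarith
    · have e : (((|u 2| * r : ℤ)) : ℝ) * y' - ((-(σ * (u 0 * r + u 1 * p)) : ℤ) : ℝ) =
          σ * (-((u 1 : ℝ) * ((r : ℝ) * y - p))) := by
        rw [hσ]
        push_cast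
        linear_combination (σ : ℝ) * r * hu
      rw [e, abs_mul, hσ1, one_mul, abs_neg, abs_mul]
      have h3 := mul_le_mul_of_nonneg_left hη (abs_nonneg (u 1 : ℝ))
      have h4 := mul_nonneg (abs_nonneg (u 2 : ℝ)) hη0
      linarith

end Pool.Agent.N538.MR
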