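import Pool.Agent.N538.MR.TB
import Pool.Agent.N538.MR.SeqF

/-!
# The numbers `1, ξ + t, ξ t`: near relations at all scales of an interval
-/

set_option autoImplicit false

namespace Pool.Agent.N538.MR

open Filter Topology

/-- the linear form in `1, ξ + t, ξ t` -/
noncomputable def LT (t ξ : ℝ) : (Fin 3 → ℤ) →+ ℝ where
  toFun u := (u 0 : ℝ) + u 1 * (ξ + t) + u 2 * (ξ * t)
  map_zero' := by simp
  map_add' u v := by
    simp only [Pi.add_apply]
    push_cast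
    ring

lemma LT_apply (t ξ : ℝ) (u : Fin 3 → ℤ) :
    LT t ξ u = (u 0 : ℝ) + u 1 * (ξ + t) + u 2 * (ξ * t) := rfl

/-- the bivector `u ∧ v` -/
def W3 (u v : Fin 3 → ℤ) : Fin 3 → ℤ :=
  ![u 0 * v 1 - u 1 * v 0, u 0 * v 2 - u 2 * v 0, u 1 * v 2 - u 2 * v 1]

/-- the functional on the bivectors -/
noncomputable def ρT (t : ℝ) (B : Fin 3 → ℤ) : ℝ := B 0 + B 1 * t + B 2 * t ^ 2

lemma ρT_smul (t : ℝ) (g : ℤ) (B : Fin 3 → ℤ) : ρT t (g • B) = g * ρT t B := by
  simp only [ρT, Pi.smul_apply, smul_eq_mul]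
  push_cast
  ring

lemma ρT_pair (t ξ : ℝ) (u v : Fin 3 → ℤ) :
    ρT t (W3 u v) = (v 1 + v 2 * t) * LT t ξ u - (u 1 + u 2 * t) * LT t ξ v := by
  rw [LT_apply, LT_apply]
  simp only [ρT, W3, Matrix.cons_val]
  push_cast
  ring

lemma ρT_le (t ξ : ℝ) (u v : Fin 3 → ℤ) :
    |ρT t (W3 u v)| ≤ (1 + |t|) * (ht v * |LT t ξ u| + ht u * |LT t ξ v|) := by
  rw [ρT_pair t ξ]
  refine (abs_sub _ _).trans ?_
  rw [abs_mul, abs_mul]
  have b1 := lin_le t _ _ _ (abs_le_ht v 1) (abs_le_ht v 2)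
  have b2 := lin_le t _ _ _ (abs_le_ht u 1) (abs_le_ht u 2)
  have b3 := mul_le_mul_of_nonneg_right b1 (abs_nonneg (LT t ξ u))
  have b4 := mul_le_mul_of_nonneg_right b2 (abs_nonneg (LT t ξ v))
  linarith

lemma W3_le (u v : Fin 3 → ℤ) (i : Fin 3) : |((W3 u v i : ℤ) : ℝ)| ≤ 2 * (ht u * ht v) := by
  have h : ∀ a b : Fin 3, |((u a * v b - u b * v a : ℤ) : ℝ)| ≤ 2 * (ht u * ht v) := by
    intro a b
    push_cast
    rw [mul_comm (u b : ℝ)]
    exact sub_bound _ _ _ _ _ _ (abs_le_ht u a) (abs_le_ht v b) (abs_le_ht v a) (abs_le_ht u b)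
  fin_cases i
  · exact h 0 1
  · exact h 0 2
  · exact h 1 2

lemma W3_add_smul (u v : Fin 3 → ℤ) (x y : ℤ) (i : Fin 3) :
    W3 v (x • u + y • v) i = -(x * W3 u v i) := by
  fin_cases i <;> simp [W3] <;> ring

lemma W3_smul (u v : Fin 3 → ℤ) (z : ℤ) (i : Fin 3) : W3 u (z • v) i = z * W3 u v i := by
  fin_cases i <;> simp [W3] <;> ring

lemma W3_ne (u v : Fin 3 → ℤ) (h : ∀ a b : ℤ, a • u + b • v = 0 → a = 0 ∧ b = 0) :
    W3 u v ≠ 0 := by
  intro hW
  have e0 := congrFun hW 0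
  have e1 := congrFun hW 1
  have e2 := congrFun hW 2
  simp only [W3, Matrix.cons_val, Pi.zero_apply] at e0 e1 e2
  have hu : u ≠ 0 := by
    rintro rfl
    have := (h 1 0 (by simp)).1
    omega
  obtain ⟨i, hi⟩ := Function.ne_iff.1 hu
  have := h (v i) (-u i) (by
    funext j
    simp only [Pi.add_apply, Pi.smul_apply, smul_eq_mul, Pi.zero_apply]
    fin_cases i <;> fin_cases j <;> simp <;> linarith)
  apply hi
  simpa using this.2

/-- the determinant -/
def D3 (u v z : Fin 3 → ℤ) : ℤ :=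
  u 0 * (v 1 * z 2 - v 2 * z 1) - v 0 * (u 1 * z 2 - u 2 * z 1) + z 0 * (u 1 * v 2 - u 2 * v 1)

lemma D3_eq (t ξ : ℝ) (u v z : Fin 3 → ℤ) : ((D3 u v z : ℤ) : ℝ) =
    LT t ξ u * ((v 1 : ℝ) * z 2 - v 2 * z 1) - LT t ξ v * ((u 1 : ℝ) * z 2 - u 2 * z 1) +
      LT t ξ z * ((u 1 : ℝ) * v 2 - u 2 * v 1) := by
  rw [LT_apply, LT_apply, LT_apply]
  unfold D3
  push_cast
  ring

lemma dep3 (u v z : Fin 3 → ℤ) (h : D3 u v z = 0) :
    ∃ p q r : ℤ, ¬ (p = 0 ∧ q = 0 ∧ r = 0) ∧ p • u + q • v + r • z = 0 := by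
  obtain ⟨M, hM⟩ : ∃ M : Matrix (Fin 3) (Fin 3) ℤ, M = Matrix.of ![u, v, z] := ⟨_, rfl⟩
  have hdet : M.det = 0 := by
    rw [← h, hM, Matrix.det_fin_three]
    simp [D3]
    ring
  obtain ⟨c, hc0, hc⟩ := Matrix.exists_vecMul_eq_zero_iff.2 hdet
  refine ⟨c 0, c 1, c 2, ?_, ?_⟩
  · rintro ⟨h0, h1, h2⟩
    apply hc0
    funext i
    fin_cases i
    · exact h0
    · exact h1
    · exact h2
  · funext i
    have h1 := congrFun hc i
    rw [hM] at h1
    simp only [Matrix.vecMul, dotProduct, Fin.sum_univ_three, Matrix.of_apply, Matrix.cons_val,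
      Pi.zero_apply] at h1
    simp only [Pi.add_apply, Pi.smul_apply, smul_eq_mul, Pi.zero_apply]
    exact h1

/-- **minimal points of the form in `1, ξ + t, ξ t` on an interval of scales** -/
theorem main3F {t w κ : ℝ} (h2 : Tri t (t ^ 2)) (hw : 2 + Real.sqrt 3 < w) (hκ1 : 1 ≤ κ)
    (hκ : 2 < κ * (w - 3)) :
    ∃ E : ℝ, ∀ (ξ : ℝ) (v : ℕ → Fin 3 → ℤ) (x : ℕ → ℕ) (n : ℕ),
      MinF (LT t ξ) w v x n → E ≤ x 0 → (x n : ℝ) ≤ (x 0 : ℝ) ^ κ := by
  have hs2 : Real.sqrt 3 * Real.sqrt 3 = 3 := Real.mul_self_sqrt (by norm_num)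
  have hs0 : 0 ≤ Real.sqrt 3 := Real.sqrt_nonneg 3
  have hs1 : 1.7 ≤ Real.sqrt 3 := Real.le_sqrt_of_sq_le (by norm_num)
  have hw3 : 0 < w - 3 := by linarith
  have hprod : 2 < (w - 3) * (w - 1) := by
    have h1 : Real.sqrt 3 - 1 < w - 3 := by linarith
    have h3 : (Real.sqrt 3 - 1) * (Real.sqrt 3 + 1) = 2 := by
      have : (Real.sqrt 3 - 1) * (Real.sqrt 3 + 1) = Real.sqrt 3 * Real.sqrt 3 - 1 := by ring
      rw [this, hs2]; norm_num
    rw [← h3]
    nlinarith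
  -- the choice of `δ`
  obtain ⟨δ, hδ0, hδ1, hδ2, hδ3⟩ : ∃ δ : ℝ, 0 < δ ∧ δ < w - 3 ∧ 2 + δ ≤ (w - 3 - δ) * (w - 1) ∧
      2 ≤ κ * (w - 3 - δ) := by
    refine ⟨min (min ((w - 3) / 2) (((w - 3) * (w - 1) - 2) / w)) ((κ * (w - 3) - 2) / κ),
      ?_, ?_, ?_, ?_⟩
    · refine lt_min (lt_min (by linarith) (div_pos (by linarith) (by linarith)))
        (div_pos (by linarith) (by linarith))
    · refine lt_of_le_of_lt ((min_le_left _ _).trans (min_le_left _ _)) (by linarith)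
    · have h := (min_le_left (min ((w - 3) / 2) (((w - 3) * (w - 1) - 2) / w))
        ((κ * (w - 3) - 2) / κ)).trans (min_le_right _ _)
      rw [le_div_iff₀ (show 0 < w by linarith)] at h
      linarith
    · have h := min_le_right (min ((w - 3) / 2) (((w - 3) * (w - 1) - 2) / w))
        ((κ * (w - 3) - 2) / κ)
      rw [le_div_iff₀ (show 0 < κ by linarith)] at h
      linarith
  obtain ⟨y, hy⟩ : ∃ y : ℝ, y = w - 3 - δ := ⟨_, rfl⟩
  have hwy : w = 3 + y + δ := by rw [hy]; ring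
  have hy0 : 0 < y := by rw [hy]; linarith
  rw [← hy] at hδ2 hδ3
  obtain ⟨K, hK⟩ : ∃ K : ℝ, K = (2 : ℝ) ^ w := ⟨_, rfl⟩
  have hK0 : 0 < K := by rw [hK]; positivity
  obtain ⟨A, hA⟩ : ∃ A : ℝ, A = 1 + |t| := ⟨_, rfl⟩
  have hA0 : 0 < A := by rw [hA]; have := abs_nonneg t; linarith
  obtain ⟨c, hc0, hc⟩ := h2 (δ / 3) (by linarith)
  obtain ⟨A1, hA1⟩ : ∃ A1 : ℝ, A1 = |(2 + δ / 3) * Real.log 2 + Real.log (2 * (A * K)) - Real.log c| :=
    ⟨_, rfl⟩
  have hA10 : 0 ≤ A1 := by rw [hA1]; exact abs_nonneg _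
  obtain ⟨A2, hA2⟩ : ∃ A2 : ℝ, A2 = |Real.log (6 * K)| + 1 := ⟨_, rfl⟩
  have hA20 : 0 ≤ A2 := by rw [hA2]; positivity
  refine ⟨Real.exp (3 * A1 / δ + y * A2 / δ + 1), fun ξ v x n hS hE => ?_⟩
  obtain ⟨L, hL⟩ : ∃ L, L = LT t ξ := ⟨_, rfl⟩
  rw [← hL] at hS
  -- sizes
  have hxm' : ∀ i j, i ≤ j → j ≤ n → x i ≤ x j := by
    intro i j hij hj
    induction j, hij using Nat.le_induction with
    | base => exact le_rfl
    | succ j hij ih => exact (ih (by omega)).trans (hS.lt j (by omega)).le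
  have hxm : ∀ i j, i ≤ j → j ≤ n → (x i : ℝ) ≤ x j := by
    intro i j hij hj
    exact_mod_cast hxm' i j hij hj
  have hx1 : ∀ k, k ≤ n → (1 : ℝ) ≤ x k := fun k hk => by
    have := hS.pos.trans (hxm' 0 k (by omega) hk)
    exact_mod_cast this
  have hx0 : ∀ k, k ≤ n → (0 : ℝ) < x k := fun k hk => by have := hx1 k hk; linarith
  have hvx : ∀ k, k ≤ n → (ht (v k) : ℝ) ≤ x k := fun k hk => by exact_mod_cast hS.ht_le k hk
  have hvi : ∀ k, k ≤ n → ∀ i, |(v k i : ℝ)| ≤ x k := fun k hk i => (abs_le_ht _ i).trans (hvx k hk)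
  have hsm : ∀ k, k < n → |L (v k)| ≤ K * (x (k + 1) : ℝ) ^ (-w) := fun k hk => by
    rw [hK]; exact hS.small k hk
  have hdec : ∀ i j, i ≤ j → j ≤ n → |L (v j)| ≤ |L (v i)| := by
    intro i j hij hj
    induction j, hij using Nat.le_induction with
    | base => exact le_rfl
    | succ j hij ih => exact (hS.dec j (by omega)).le.trans (ih (by omega))
  -- logarithms
  obtain ⟨a, ha⟩ : ∃ a : ℕ → ℝ, a = fun k => Real.log (x k) := ⟨_, rfl⟩
  have hak : ∀ k, a k = Real.log (x k) := fun k => by rw [ha]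
  have ha0 : ∀ k, k ≤ n → 0 ≤ a k := fun k hk => by rw [hak]; exact Real.log_nonneg (hx1 k hk)
  have ham : ∀ i j, i ≤ j → j ≤ n → a i ≤ a j := fun i j hij hj => by
    rw [hak, hak]; exact Real.log_le_log (hx0 i (hij.trans hj)) (hxm i j hij hj)
  have hxpow : ∀ k, k ≤ n → ∀ (s : ℝ), Real.log ((x k : ℝ) ^ s) = s * a k := fun k hk s => by
    rw [Real.log_rpow (hx0 k hk), hak]
  have hE0 : 3 * A1 / δ + y * A2 / δ + 1 ≤ a 0 := by
    rw [hak, Real.le_log_iff_exp_le (hx0 0 (by omega))]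
    exact hE
  have hq1 : 0 ≤ 3 * A1 / δ := by positivity
  have hq2 : 0 ≤ y * A2 / δ := by positivity
  -- bivectors
  have hWle : ∀ k, k < n → ∀ i, |((W3 (v k) (v (k + 1)) i : ℤ) : ℝ)| ≤ 2 * ((x k : ℝ) * x (k + 1)) := by
    intro k hk i
    refine (W3_le _ _ i).trans ?_
    have := mul_le_mul (hvx k hk.le) (hvx (k + 1) hk) (Nat.cast_nonneg _) (hx0 k hk.le).le
    linarith
  have hpair : ∀ k, k < n →
      |ρT t (W3 (v k) (v (k + 1)))| ≤ 2 * (A * K) * (x (k + 1) : ℝ) ^ (1 - w) := by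
    intro k hk
    refine (ρT_le t ξ _ _).trans ?_
    rw [← hL, ← hA]
    have e : (x (k + 1) : ℝ) * (x (k + 1) : ℝ) ^ (-w) = (x (k + 1) : ℝ) ^ (1 - w) := by
      rw [show 1 - w = 1 + -w by ring, Real.rpow_add (hx0 _ hk), Real.rpow_one]
    have h1 : (ht (v (k + 1)) : ℝ) * |L (v k)| ≤ x (k + 1) * (K * (x (k + 1) : ℝ) ^ (-w)) :=
      mul_le_mul (hvx (k + 1) hk) (hsm k hk) (abs_nonneg _) (hx0 _ hk).le
    have h2 : (ht (v k) : ℝ) * |L (v (k + 1))| ≤ x (k + 1) * (K * (x (k + 1) : ℝ) ^ (-w)) :=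
      mul_le_mul ((hvx k hk.le).trans (hxm k (k + 1) (by omega) hk))
        ((hdec k (k + 1) (by omega) hk).trans (hsm k hk)) (abs_nonneg _) (hx0 _ hk).le
    have e2 : x (k + 1) * (K * (x (k + 1) : ℝ) ^ (-w)) = K * (x (k + 1) : ℝ) ^ (1 - w) := by
      rw [← e]; ring
    rw [e2] at h1 h2
    have h3 := mul_le_mul_of_nonneg_left (add_le_add h1 h2) hA0.le
    refine h3.trans (le_of_eq ?_)
    ring
  -- the factors
  have hWne : ∀ k, k < n → W3 (v k) (v (k + 1)) ≠ 0 := fun k hk => W3_ne _ _ (hS.indep k hk)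
  have hgfac : ∀ (k : ℕ) (g : ℤ) (B : Fin 3 → ℤ), k < n → W3 (v k) (v (k + 1)) = g • B →
      (1 : ℝ) ≤ |(g : ℝ)| ∧ B ≠ 0 := by
    intro k g B hk h
    have h1 := hWne k hk
    rw [h] at h1
    have h2 : g ≠ 0 := by
      rintro rfl
      simp at h1
    refine ⟨?_, ?_⟩
    · have : 1 ≤ |g| := Int.one_le_abs h2
      exact_mod_cast this
    · rintro rfl
      simp at h1
  -- the plane inequality
  have hplane : ∀ i m, i ≤ m → m < n → ∀ (g g' : ℤ) (B : Fin 3 → ℤ),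
      W3 (v i) (v (i + 1)) = g • B → W3 (v m) (v (m + 1)) = g' • B →
      (y + 2) * a (m + 1) ≤ 2 * (a i + a (i + 1)) := by
    intro i m him hmn g g' B h1 h2
    have hin : i < n := by omega
    obtain ⟨hg, hB0⟩ := hgfac i g B hin h1
    obtain ⟨hg', -⟩ := hgfac m g' B hmn h2
    have p1 := hx0 i hin.le
    have p2 := hx0 (i + 1) hin
    have p3 := hx0 (m + 1) hmn
    have hH : (1 : ℝ) ≤ 2 * ((x i : ℝ) * x (i + 1)) := by
      have := mul_le_mul (hx1 i hin.le) (hx1 (i + 1) hin) zero_le_one p1.le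
      linarith
    have hBi : ∀ j, |(B j : ℝ)| ≤ 2 * ((x i : ℝ) * x (i + 1)) := by
      intro j
      have h3 := hWle i hin j
      rw [h1, Pi.smul_apply, smul_eq_mul, Int.cast_mul, abs_mul] at h3
      have h4 := mul_le_mul_of_nonneg_right hg (abs_nonneg (B j : ℝ))
      linarith
    have h3 := hc (B 0) (B 1) (B 2) _ (by
      rintro ⟨z0, z1, z2⟩
      apply hB0
      funext j
      fin_cases j
      · exact z0
      · exact z1
      · exact z2) hH (hBi 0) (hBi 1) (hBi 2)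
    have h4 : |ρT t B| ≤ 2 * (A * K) * (x (m + 1) : ℝ) ^ (1 - w) := by
      have h5 := hpair m hmn
      rw [h2, ρT_smul, abs_mul] at h5
      have h6 := mul_le_mul_of_nonneg_right hg' (abs_nonneg (ρT t B))
      linarith
    have hpos1 : 0 < (2 * ((x i : ℝ) * x (i + 1))) ^ (2 + δ / 3) := by positivity
    have hpos2 : 0 < (x (m + 1) : ℝ) ^ (1 - w) := by positivity
    have h5 : c ≤ (2 * ((x i : ℝ) * x (i + 1))) ^ (2 + δ / 3) *
        (2 * (A * K) * (x (m + 1) : ℝ) ^ (1 - w)) :=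
      h3.trans (mul_le_mul_of_nonneg_left h4 hpos1.le)
    have h6 := Real.log_le_log hc0 h5
    rw [Real.log_mul hpos1.ne' (by positivity), Real.log_mul (by positivity) hpos2.ne',
      hxpow _ hmn, Real.log_rpow (by positivity),
      Real.log_mul (by norm_num) (by positivity),
      Real.log_mul p1.ne' p2.ne', ← hak, ← hak] at h6
    have h7 := le_abs_self ((2 + δ / 3) * Real.log 2 + Real.log (2 * (A * K)) - Real.log c)
    rw [← hA1] at h7
    have h8 : a i ≤ a (m + 1) := ham i (m + 1) (by omega) hmn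
    have h9 : a (i + 1) ≤ a (m + 1) := ham (i + 1) (m + 1) (by omega) hmn
    have h10 : δ / 3 * (a i + a (i + 1)) ≤ δ / 3 * (2 * a (m + 1)) :=
      mul_le_mul_of_nonneg_left (by linarith) (by linarith)
    have e1 : (2 + δ / 3) * (Real.log 2 + (a i + a (i + 1))) =
        (2 + δ / 3) * Real.log 2 + 2 * (a i + a (i + 1)) + δ / 3 * (a i + a (i + 1)) := by ring
    have e2 : (y + 2) * a (m + 1) = -((1 - w) * a (m + 1)) - δ / 3 * (2 * a (m + 1)) -
        δ / 3 * a (m + 1) := by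
      rw [hwy]; ring
    have h11 : A1 ≤ δ / 3 * a (m + 1) := by
      have h12 : 3 * A1 / δ ≤ a (m + 1) := by
        have := ham 0 (m + 1) (by omega) hmn
        linarith
      rw [div_le_iff₀ hδ0] at h12
      linarith
    rw [e1] at h6
    rw [e2]
    linarith
  have hgrow : ∀ i, i < n → y * a (i + 1) ≤ 2 * a i := by
    intro i hi
    have h1 := hplane i i le_rfl hi 1 1 _ (one_smul _ _).symm (one_smul _ _).symm
    linarith
  -- three consecutive minimal points are dependent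
  have hdep : ∀ i, i + 2 ≤ n → D3 (v i) (v (i + 1)) (v (i + 2)) = 0 := by
    intro i hi
    by_contra hne
    have h1 : (1 : ℝ) ≤ |((D3 (v i) (v (i + 1)) (v (i + 2)) : ℤ) : ℝ)| := by
      have : 1 ≤ |D3 (v i) (v (i + 1)) (v (i + 2))| := Int.one_le_abs hne
      exact_mod_cast this
    rw [D3_eq t ξ, ← hL] at h1
    have p1 := hx0 (i + 1) (by omega)
    have p2 := hx0 (i + 2) (by omega)
    have hb : ∀ s r, s ≤ i + 1 → r ≤ i + 2 →
        |(v s 1 : ℝ) * v r 2 - v s 2 * v r 1| ≤ 2 * ((x (i + 1) : ℝ) * x (i + 2)) := by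
      intro s r hs hr
      rw [mul_comm (v s 2 : ℝ)]
      have q1 : ∀ j, |(v s j : ℝ)| ≤ x (i + 1) := fun j =>
        (hvi s (by omega) j).trans (hxm s (i + 1) hs (by omega))
      have q2 : ∀ j, |(v r j : ℝ)| ≤ x (i + 2) := fun j =>
        (hvi r (by omega) j).trans (hxm r (i + 2) hr (by omega))
      exact sub_bound _ _ _ _ _ _ (q1 1) (q2 2) (q2 1) (q1 2)
    have l1 := hsm i (by omega)
    have l2 := (hdec i (i + 1) (by omega) (by omega)).trans l1
    have l3 := (hdec i (i + 2) (by omega) (by omega)).trans l1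
    have hm : ∀ k s r, |L (v k)| ≤ K * (x (i + 1) : ℝ) ^ (-w) → s ≤ i + 1 → r ≤ i + 2 →
        |L (v k) * ((v s 1 : ℝ) * v r 2 - v s 2 * v r 1)| ≤
          K * (x (i + 1) : ℝ) ^ (-w) * (2 * ((x (i + 1) : ℝ) * x (i + 2))) := by
      intro k s r h3 hs hr
      rw [abs_mul]
      exact mul_le_mul h3 (hb s r hs hr) (abs_nonneg _) (by positivity)
    have m1 := hm i (i + 1) (i + 2) l1 le_rfl le_rfl
    have m2 := hm (i + 1) i (i + 2) l2 (by omega) le_rfl
    have m3 := hm (i + 2) i (i + 1) l3 (by omega) (by omega)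
    have t1 := abs_add_le (L (v i) * ((v (i + 1) 1 : ℝ) * v (i + 2) 2 - v (i + 1) 2 * v (i + 2) 1) -
      L (v (i + 1)) * ((v i 1 : ℝ) * v (i + 2) 2 - v i 2 * v (i + 2) 1))
      (L (v (i + 2)) * ((v i 1 : ℝ) * v (i + 1) 2 - v i 2 * v (i + 1) 1))
    have t2 := abs_sub (L (v i) * ((v (i + 1) 1 : ℝ) * v (i + 2) 2 - v (i + 1) 2 * v (i + 2) 1))
      (L (v (i + 1)) * ((v i 1 : ℝ) * v (i + 2) 2 - v i 2 * v (i + 2) 1))
    have e : K * (x (i + 1) : ℝ) ^ (-w) * (2 * ((x (i + 1) : ℝ) * x (i + 2))) * 3 =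
        (6 * K) * ((x (i + 1) : ℝ) ^ (1 - w) * x (i + 2)) := by
      rw [show 1 - w = -w + 1 by ring, Real.rpow_add p1, Real.rpow_one]
      ring
    have h3 : 1 ≤ (6 * K) * ((x (i + 1) : ℝ) ^ (1 - w) * x (i + 2)) := by
      rw [← e]; linarith
    have h4 := Real.log_le_log one_pos h3
    rw [Real.log_one, Real.log_mul (x := 6 * K) (by positivity) (by positivity),
      Real.log_mul (x := (x (i + 1) : ℝ) ^ (1 - w)) (by positivity) p2.ne',
      hxpow _ (by omega), ← hak] at h4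
    have h5 : Real.log (6 * K) ≤ A2 - 1 := by
      have := le_abs_self (Real.log (6 * K))
      rw [hA2]; linarith
    have h6 := hgrow (i + 1) (by omega)
    rw [show i + 1 + 1 = i + 2 by ring] at h6
    have h7 : y * ((w - 1) * a (i + 1)) ≤ y * (a (i + 2) + A2 - 1) :=
      mul_le_mul_of_nonneg_left (by linarith) hy0.le
    have h8 := mul_le_mul_of_nonneg_right hδ2 (ha0 (i + 1) (by omega))
    have h9 : y * A2 ≤ δ * a (i + 1) := by
      have h12 : y * A2 / δ ≤ a (i + 1) := by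
        have := ham 0 (i + 1) (by omega) (by omega)
        linarith
      rw [div_le_iff₀ hδ0] at h12
      linarith
    have e3 : y * ((w - 1) * a (i + 1)) = y * (w - 1) * a (i + 1) := by ring
    have e4 : y * (a (i + 2) + A2 - 1) = y * a (i + 2) + y * A2 - y := by ring
    have e5 : (2 + δ) * a (i + 1) = 2 * a (i + 1) + δ * a (i + 1) := by ring
    rw [e3, e4] at h7
    rw [e5] at h8
    linarith
  -- all the bivectors are multiples of one
  suffices hgoal : a n ≤ κ * a 0 by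
    have p0 := hx0 0 (by omega)
    have pn := hx0 n le_rfl
    rw [← Real.log_le_log_iff pn (by positivity), Real.log_rpow p0, ← hak, ← hak]
    exact hgoal
  have ha00 := ha0 0 (by omega)
  by_cases hn0 : n = 0
  · rw [hn0]
    nlinarith
  obtain ⟨g0, B, -, hBprim, hg0⟩ := exists_prim _ (hWne 0 (by omega))
  have hall : ∀ m, m < n → ∃ g : ℤ, W3 (v m) (v (m + 1)) = g • B := by
    intro m
    induction m with
    | zero => exact fun _ => ⟨g0, hg0⟩
    | succ m ih =>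
      intro hm
      obtain ⟨g', h2⟩ := ih (by omega)
      obtain ⟨p, q, r, hpqr, hr⟩ := dep3 _ _ _ (hdep m (by omega))
      have hr0 : r ≠ 0 := by
        intro h0
        rw [h0, zero_smul, add_zero] at hr
        obtain ⟨hp, hq⟩ := hS.indep m (by omega) p q hr
        exact hpqr ⟨hp, hq, h0⟩
      have e1 : r • v (m + 2) = (-p) • v m + (-q) • v (m + 1) := by
        rw [neg_smul, neg_smul]
        have : r • v (m + 2) = -(p • v m + q • v (m + 1)) := eq_neg_of_add_eq_zero_right hr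
        rw [this]
        abel
      have e2 : ∀ j, r * W3 (v (m + 1)) (v (m + 2)) j = (p * g') * B j := by
        intro j
        rw [← W3_smul, e1, W3_add_smul, h2, Pi.smul_apply, smul_eq_mul]
        ring
      exact prim_mul hBprim hr0 e2
  obtain ⟨g', hg'⟩ := hall (n - 1) (by omega)
  have h1 := hplane 0 (n - 1) (by omega) (by omega) g0 g' B hg0 hg'
  rw [show n - 1 + 1 = n by omega] at h1
  have h3 := hgrow 0 (by omega)
  have h4 : y * ((y + 2) * a n) ≤ y * (2 * (a 0 + a (0 + 1))) :=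
    mul_le_mul_of_nonneg_left h1 hy0.le
  have h5 : (y + 2) * (y * a n) ≤ (y + 2) * (2 * a 0) := by
    have e1 : y * ((y + 2) * a n) = (y + 2) * (y * a n) := by ring
    have e2 : y * (2 * (a 0 + a (0 + 1))) = 2 * (y * a 0) + 2 * (y * a (0 + 1)) := by ring
    have e3 : (y + 2) * (2 * a 0) = 2 * (y * a 0) + 4 * a 0 := by ring
    linarith
  have h6 : y * a n ≤ 2 * a 0 := le_of_mul_le_mul_left h5 (by linarith)
  have h7 : y * a n ≤ y * (κ * a 0) := by
    have := mul_le_mul_of_nonneg_right hδ3 ha00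
    linarith
  exact le_of_mul_le_mul_left h7 hy0

end Pool.Agent.N538.MR
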