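import Pool.Agent.N538.MR.Main4
import Pool.Agent.N538.MR.SeqF

/-!
# Four numbers: near relations at all scales of an interval
-/

set_option autoImplicit false

namespace Pool.Agent.N538.MR

open Filter Topology

/-- the size of the cross product -/
lemma C_le (u v z : Fin 4 → ℤ) (a b c : ℝ) (ha : ∀ i, |(u i : ℝ)| ≤ a) (hb : ∀ i, |(v i : ℝ)| ≤ b)
    (hc : ∀ i, |(z i : ℝ)| ≤ c) (j : Fin 4) : |((C u v z j : ℤ) : ℝ)| ≤ 6 * (a * (b * c)) := by
  have ha0 : 0 ≤ a := (abs_nonneg _).trans (ha 0)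
  have hm : ∀ p q : Fin 4, |(v p : ℝ) * z q - v q * z p| ≤ 2 * (b * c) := by
    intro p q
    rw [mul_comm (v q : ℝ)]
    exact sub_bound _ _ _ _ _ _ (hb p) (hc q) (hc p) (hb q)
  have ht : ∀ i p q : Fin 4, |(u i : ℝ) * ((v p : ℝ) * z q - v q * z p)| ≤ a * (2 * (b * c)) := by
    intro i p q
    rw [abs_mul]
    exact mul_le_mul (ha i) (hm p q) (abs_nonneg _) ha0
  have h3 : ∀ i p q : Fin 4, |((m3 u v z i p q : ℤ) : ℝ)| ≤ 6 * (a * (b * c)) := by
    intro i p q
    have e : ((m3 u v z i p q : ℤ) : ℝ) = (u i : ℝ) * ((v p : ℝ) * z q - v q * z p) -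
        (u p : ℝ) * ((v i : ℝ) * z q - v q * z i) + (u q : ℝ) * ((v i : ℝ) * z p - v p * z i) := by
      unfold m3
      push_cast
      ring
    rw [e]
    have h1 := abs_add_le ((u i : ℝ) * ((v p : ℝ) * z q - v q * z p) -
        (u p : ℝ) * ((v i : ℝ) * z q - v q * z i)) ((u q : ℝ) * ((v i : ℝ) * z p - v p * z i))
    have h2 := abs_sub ((u i : ℝ) * ((v p : ℝ) * z q - v q * z p))
      ((u p : ℝ) * ((v i : ℝ) * z q - v q * z i))
    have h4 := ht i p q
    have h5 := ht p i q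
    have h6 := ht q i p
    linarith
  have hn : ∀ t : ℤ, |((-t : ℤ) : ℝ)| = |(t : ℝ)| := fun t => by push_cast; exact abs_neg _
  fin_cases j
  · exact (hn _).le.trans (h3 1 2 3)
  · exact h3 0 2 3
  · exact (hn _).le.trans (h3 0 1 3)
  · exact h3 0 1 2

/-- the data: four numbers, and a linear functional `ρ` on the bivectors -/
structure DataF (V : Fin 4 → ℝ) (L : (Fin 4 → ℤ) →+ ℝ) (ρ : (Fin 6 → ℤ) → ℝ) (A c c' ε : ℝ) :
    Prop where
  V0 : V 0 = 1
  LV : ∀ u, L u = dt (cst u) V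
  smul : ∀ (g : ℤ) (B : Fin 6 → ℤ), ρ (g • B) = g * ρ B
  pair : ∀ u v : Fin 4 → ℤ, |ρ (W u v)| ≤ A * (ht v * |L u| + ht u * |L v|)
  meas : ∀ (B : Fin 6 → ℤ) (H : ℝ), ρ B ≠ 0 → 1 ≤ H →
    (∀ i, |(B i : ℝ)| ≤ H) → c ≤ H ^ (2 + ε) * |ρ B|
  irr : ∀ (N : Fin 4 → ℤ) (H : ℝ), N ≠ 0 → 1 ≤ H → (∀ i, |(N i : ℝ)| ≤ H) →
    ∃ k l, c' ≤ H ^ (1 + ε) * |(N k : ℝ) * V l - N l * V k|

theorem main4F {A c c' w : ℝ} (hA : 0 < A) (hc0 : 0 < c) (hc0' : 0 < c')
    (hw : 3 + Real.sqrt 2 < w) :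
    ∃ E : ℝ, ∀ (V : Fin 4 → ℝ) (L : (Fin 4 → ℤ) →+ ℝ) (ρ : (Fin 6 → ℤ) → ℝ),
      DataF V L ρ A c c' ((w - 3 - Real.sqrt 2) / 8) →
      ∀ (v : ℕ → Fin 4 → ℤ) (x : ℕ → ℕ) (n : ℕ), MinF L w v x n → E ≤ x 0 →
      (∀ k, k < n → ρ (W (v k) (v (k + 1))) ≠ 0) → (x n : ℝ) ≤ (x 0 : ℝ) ^ (2 + Real.sqrt 2) := by
  have hs2 : Real.sqrt 2 * Real.sqrt 2 = 2 := Real.mul_self_sqrt (by norm_num)
  have hs0 : 0 ≤ Real.sqrt 2 := Real.sqrt_nonneg 2
  have hs1 : 1.4 ≤ Real.sqrt 2 := Real.le_sqrt_of_sq_le (by norm_num)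
  obtain ⟨δ, hδ⟩ : ∃ δ : ℝ, δ = (w - 3 - Real.sqrt 2) / 2 := ⟨_, rfl⟩
  have hδ0 : 0 < δ := by rw [hδ]; linarith
  have hδ4 : (w - 3 - Real.sqrt 2) / 8 = δ / 4 := by rw [hδ]; ring
  obtain ⟨y, hy⟩ : ∃ y : ℝ, y = Real.sqrt 2 + δ := ⟨_, rfl⟩
  have hwy : w = 3 + y + δ := by rw [hy, hδ]; ring
  have hy0 : 0 < y := by rw [hy]; linarith
  have hys : Real.sqrt 2 ≤ y := by rw [hy]; linarith
  have hy1 : 1.4 ≤ y := by rw [hy]; linarith
  have hy2 : 2 ≤ y * y := by rw [hy]; nlinarith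
  obtain ⟨K, hK⟩ : ∃ K : ℝ, K = (2 : ℝ) ^ w := ⟨_, rfl⟩
  have hK0 : 0 < K := by rw [hK]; positivity
  obtain ⟨A1, hA1⟩ : ∃ A1 : ℝ, A1 = |(2 + δ / 4) * Real.log 2 + Real.log (2 * (A * K)) - Real.log c| :=
    ⟨_, rfl⟩
  have hA10 : 0 ≤ A1 := by rw [hA1]; exact abs_nonneg _
  obtain ⟨A2, hA2⟩ : ∃ A2 : ℝ, A2 = |Real.log (6 * K)| + |Real.log (12 * K)| + 2 := ⟨_, rfl⟩
  have hA20 : 0 ≤ A2 := by rw [hA2]; positivity
  obtain ⟨A3, hA3⟩ : ∃ A3 : ℝ, A3 = |(1 + δ / 4) * Real.log 6 + Real.log (6 * K) - Real.log c'| :=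
    ⟨_, rfl⟩
  have hA30 : 0 ≤ A3 := by rw [hA3]; exact abs_nonneg _
  refine ⟨Real.exp (2 * A1 / δ + (A2 / δ + A2) + 2 * A3 / δ),
    fun V L ρ hD v x n hS hE hnd => ?_⟩
  rw [hδ4] at hD
  -- sizes
  have hxm' : ∀ i j, i ≤ j → j ≤ n → x i ≤ x j := by
    intro i j hij hj
    induction j, hij using Nat.le_induction with
    | base => exact le_rfl
    | succ j hij ih => exact (ih (by omega)).trans (hS.lt j (by omega)).le
  have hxm : ∀ i j, i ≤ j → j ≤ n → (x i : ℝ) ≤ x j := by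
    intro i j hij hj
    exact_mod_cast hxm' i j hij hj
  have hx1 : ∀ k, k ≤ n → (1 : ℝ) ≤ x k := fun k hk => by
    have := hS.pos.trans (hxm' 0 k (by omega) hk)
    exact_mod_cast this
  have hx0 : ∀ k, k ≤ n → (0 : ℝ) < x k := fun k hk => by have := hx1 k hk; linarith
  have hvx : ∀ k, k ≤ n → (ht (v k) : ℝ) ≤ x k := fun k hk => by exact_mod_cast hS.ht_le k hk
  have hvi : ∀ k, k ≤ n → ∀ i, |(v k i : ℝ)| ≤ x k := fun k hk i => (abs_le_ht _ i).trans (hvx k hk)
  have hsm : ∀ k, k < n → |L (v k)| ≤ K * (x (k + 1) : ℝ) ^ (-w) := fun k hk => by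
    rw [hK]; exact hS.small k hk
  have hdec : ∀ i j, i ≤ j → j ≤ n → |L (v j)| ≤ |L (v i)| := by
    intro i j hij hj
    induction j, hij using Nat.le_induction with
    | base => exact le_rfl
    | succ j hij ih => exact (hS.dec j (by omega)).le.trans (ih (by omega))
  -- logarithms
  obtain ⟨a, ha⟩ : ∃ a : ℕ → ℝ, a = fun k => Real.log (x k) := ⟨_, rfl⟩
  have hak : ∀ k, a k = Real.log (x k) := fun k => by rw [ha]
  have ha0 : ∀ k, k ≤ n → 0 ≤ a k := fun k hk => by rw [hak]; exact Real.log_nonneg (hx1 k hk)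
  have ham : ∀ i j, i ≤ j → j ≤ n → a i ≤ a j := fun i j hij hj => by
    rw [hak, hak]; exact Real.log_le_log (hx0 i (hij.trans hj)) (hxm i j hij hj)
  have hxpow : ∀ k, k ≤ n → ∀ (s : ℝ), Real.log ((x k : ℝ) ^ s) = s * a k := fun k hk s => by
    rw [Real.log_rpow (hx0 k hk), hak]
  have hE0 : 2 * A1 / δ + (A2 / δ + A2) + 2 * A3 / δ ≤ a 0 := by
    rw [hak, Real.le_log_iff_exp_le (hx0 0 (by omega))]
    exact hE
  have hq1 : 0 ≤ 2 * A1 / δ := by positivity
  have hq2 : 0 ≤ A2 / δ := by positivity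
  have hq3 : 0 ≤ 2 * A3 / δ := by positivity
  -- bivectors
  have hWle : ∀ k, k < n → ∀ i, |((W (v k) (v (k + 1)) i : ℤ) : ℝ)| ≤ 2 * ((x k : ℝ) * x (k + 1)) := by
    intro k hk i
    refine (W_le _ _ i).trans ?_
    have := mul_le_mul (hvx k hk.le) (hvx (k + 1) hk) (Nat.cast_nonneg _) (hx0 k hk.le).le
    linarith
  have hpair : ∀ k, k < n →
      |ρ (W (v k) (v (k + 1)))| ≤ 2 * (A * K) * (x (k + 1) : ℝ) ^ (1 - w) := by
    intro k hk
    refine (hD.pair _ _).trans ?_
    have e : (x (k + 1) : ℝ) * (x (k + 1) : ℝ) ^ (-w) = (x (k + 1) : ℝ) ^ (1 - w) := by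
      rw [show 1 - w = 1 + -w by ring, Real.rpow_add (hx0 _ hk), Real.rpow_one]
    have h1 : (ht (v (k + 1)) : ℝ) * |L (v k)| ≤ x (k + 1) * (K * (x (k + 1) : ℝ) ^ (-w)) :=
      mul_le_mul (hvx (k + 1) hk) (hsm k hk) (abs_nonneg _) (hx0 _ hk).le
    have h2 : (ht (v k) : ℝ) * |L (v (k + 1))| ≤ x (k + 1) * (K * (x (k + 1) : ℝ) ^ (-w)) :=
      mul_le_mul ((hvx k hk.le).trans (hxm k (k + 1) (by omega) hk))
        ((hdec k (k + 1) (by omega) hk).trans (hsm k hk)) (abs_nonneg _) (hx0 _ hk).le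
    have e2 : x (k + 1) * (K * (x (k + 1) : ℝ) ^ (-w)) = K * (x (k + 1) : ℝ) ^ (1 - w) := by
      rw [← e]; ring
    rw [e2] at h1 h2
    have h3 := mul_le_mul_of_nonneg_left (add_le_add h1 h2) hA.le
    refine h3.trans (le_of_eq ?_)
    ring
  have hρ0 : ρ 0 = 0 := by
    have := hD.smul 0 0
    simpa using this
  -- the factors
  have hgfac : ∀ (k : ℕ) (g : ℤ) (B : Fin 6 → ℤ), k < n → W (v k) (v (k + 1)) = g • B →
      (1 : ℝ) ≤ |(g : ℝ)| ∧ ρ B ≠ 0 := by
    intro k g B hk h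
    have h1 := hnd k hk
    rw [h, hD.smul] at h1
    have h2 : g ≠ 0 := by
      rintro rfl
      simp at h1
    refine ⟨?_, right_ne_zero_of_mul h1⟩
    have : 1 ≤ |g| := Int.one_le_abs h2
    exact_mod_cast this
  have hself : ∀ k, k < n → Same v k k := by
    intro k hk
    have h1 : W (v k) (v (k + 1)) ≠ 0 := by
      intro h
      apply hnd k hk
      rw [h, hρ0]
    obtain ⟨g, B, -, hB, h2⟩ := exists_prim _ h1
    exact ⟨g, g, B, hB, h2, h2⟩
  have hchain : ∀ i m, m < n → Same v i m → ¬ Ind3 (v m) (v (m + 1)) (v (m + 2)) →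
      Same v i (m + 1) := by
    rintro i m hm ⟨g, g', B, hB, h1, h2⟩ h3
    unfold Ind3 at h3
    push Not at h3
    obtain ⟨p, q, r, hr, hne⟩ := h3
    have hr0 : r ≠ 0 := by
      intro h0
      rw [h0, zero_smul, add_zero] at hr
      obtain ⟨hp, hq⟩ := hS.indep m hm p q hr
      exact hne hp hq h0
    have e1 : r • v (m + 2) = (-p) • v m + (-q) • v (m + 1) := by
      rw [neg_smul, neg_smul]
      have : r • v (m + 2) = -(p • v m + q • v (m + 1)) := eq_neg_of_add_eq_zero_right hr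
      rw [this]
      abel
    have e2 : ∀ j, r * W (v (m + 1)) (v (m + 2)) j = (p * g') * B j := by
      intro j
      rw [← W_smul, e1, W_add_smul, h2, Pi.smul_apply, smul_eq_mul]
      ring
    obtain ⟨g'', hg''⟩ := prim_mul hB hr0 e2
    exact ⟨g, g'', B, hB, h1, hg''⟩
  -- the plane inequality
  have hplane : ∀ i m, i ≤ m → m < n → Same v i m →
      (w - 1 - δ / 2) * a (m + 1) ≤ 2 * (a i + a (i + 1)) + A1 := by
    rintro i m him hmn ⟨g, g', B, hB, h1, h2⟩
    have hin : i < n := by omega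
    obtain ⟨hg, hρB⟩ := hgfac i g B hin h1
    obtain ⟨hg', -⟩ := hgfac m g' B hmn h2
    have p1 := hx0 i hin.le
    have p2 := hx0 (i + 1) hin
    have p3 := hx0 (m + 1) hmn
    have hH : (1 : ℝ) ≤ 2 * ((x i : ℝ) * x (i + 1)) := by
      have := mul_le_mul (hx1 i hin.le) (hx1 (i + 1) hin) zero_le_one p1.le
      linarith
    have hBi : ∀ j, |(B j : ℝ)| ≤ 2 * ((x i : ℝ) * x (i + 1)) := by
      intro j
      have h3 := hWle i hin j
      rw [h1, Pi.smul_apply, smul_eq_mul, Int.cast_mul, abs_mul] at h3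
      have h4 := mul_le_mul_of_nonneg_right hg (abs_nonneg (B j : ℝ))
      linarith
    have h3 := hD.meas B _ hρB hH hBi
    have h4 : |ρ B| ≤ 2 * (A * K) * (x (m + 1) : ℝ) ^ (1 - w) := by
      have h5 := hpair m hmn
      rw [h2, hD.smul, abs_mul] at h5
      have h6 := mul_le_mul_of_nonneg_right hg' (abs_nonneg (ρ B))
      linarith
    have hpos1 : 0 < (2 * ((x i : ℝ) * x (i + 1))) ^ (2 + δ / 4) := by positivity
    have hpos2 : 0 < (x (m + 1) : ℝ) ^ (1 - w) := by positivity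
    have h5 : c ≤ (2 * ((x i : ℝ) * x (i + 1))) ^ (2 + δ / 4) *
        (2 * (A * K) * (x (m + 1) : ℝ) ^ (1 - w)) :=
      h3.trans (mul_le_mul_of_nonneg_left h4 hpos1.le)
    have h6 := Real.log_le_log hc0 h5
    rw [Real.log_mul hpos1.ne' (by positivity), Real.log_mul (by positivity) hpos2.ne',
      hxpow _ hmn, Real.log_rpow (by positivity),
      Real.log_mul (by norm_num) (by positivity),
      Real.log_mul p1.ne' p2.ne', ← hak, ← hak] at h6
    have h7 := le_abs_self ((2 + δ / 4) * Real.log 2 + Real.log (2 * (A * K)) - Real.log c)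
    rw [← hA1] at h7
    have h8 : a i ≤ a (m + 1) := ham i (m + 1) (by omega) hmn
    have h9 : a (i + 1) ≤ a (m + 1) := ham (i + 1) (m + 1) (by omega) hmn
    have h10 : δ / 4 * (a i + a (i + 1)) ≤ δ / 4 * (2 * a (m + 1)) :=
      mul_le_mul_of_nonneg_left (by linarith) (by linarith)
    have e1 : (2 + δ / 4) * (Real.log 2 + (a i + a (i + 1))) =
        (2 + δ / 4) * Real.log 2 + 2 * (a i + a (i + 1)) + δ / 4 * (a i + a (i + 1)) := by ring
    have e2 : (w - 1 - δ / 2) * a (m + 1) = -((1 - w) * a (m + 1)) - δ / 4 * (2 * a (m + 1)) := by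
      ring
    rw [e1] at h6
    rw [e2]
    linarith
  have hplane2 : ∀ i m, i ≤ m → m < n → Same v i m →
      (y + 2) * a (m + 1) ≤ 2 * (a i + a (i + 1)) := by
    intro i m him hmn h
    have h2 := hplane i m him hmn h
    have h3 : 2 * A1 / δ ≤ a (m + 1) := by
      have := ham 0 (m + 1) (by omega) hmn
      linarith
    rw [div_le_iff₀ hδ0] at h3
    have e : (w - 1 - δ / 2) * a (m + 1) = (y + 2) * a (m + 1) + δ / 2 * a (m + 1) := by
      rw [hwy]; ring
    rw [e] at h2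
    nlinarith
  have hgrow : ∀ i, i < n → y * a (i + 1) ≤ 2 * a i := by
    intro i hi
    have h1 := hplane2 i i le_rfl hi (hself i hi)
    linarith
  have hplane3 : ∀ i m, i ≤ m → m < n → Same v i m → y * a (m + 1) ≤ 2 * a i := by
    intro i m him hmn h
    have h1 := hplane2 i m him hmn h
    have h2 := hgrow i (by omega)
    have h3 : y * ((y + 2) * a (m + 1)) ≤ y * (2 * (a i + a (i + 1))) :=
      mul_le_mul_of_nonneg_left h1 hy0.le
    have h4 : (y + 2) * (y * a (m + 1)) ≤ (y + 2) * (2 * a i) := by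
      have e1 : y * ((y + 2) * a (m + 1)) = (y + 2) * (y * a (m + 1)) := by ring
      have e2 : y * (2 * (a i + a (i + 1))) = 2 * (y * a i) + 2 * (y * a (i + 1)) := by ring
      have e3 : (y + 2) * (2 * a i) = 2 * (y * a i) + 4 * a i := by ring
      linarith
    exact le_of_mul_le_mul_left h4 (by linarith)
  have hsq : ∀ b b' : ℝ, 0 ≤ b → y * b ≤ 2 * b' → b ≤ Real.sqrt 2 * b' := by
    intro b b' hb h
    have h1 : Real.sqrt 2 * b ≤ 2 * b' := (mul_le_mul_of_nonneg_right hys hb).trans h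
    have h2 : Real.sqrt 2 * (Real.sqrt 2 * b) ≤ Real.sqrt 2 * (2 * b') :=
      mul_le_mul_of_nonneg_left h1 hs0
    have e1 : Real.sqrt 2 * (Real.sqrt 2 * b) = 2 * b := by rw [← mul_assoc, hs2]
    have e2 : Real.sqrt 2 * (2 * b') = 2 * (Real.sqrt 2 * b') := by ring
    linarith
  -- it suffices to compare logarithms
  suffices hgoal : a n ≤ (2 + Real.sqrt 2) * a 0 by
    have p0 := hx0 0 (by omega)
    have pn := hx0 n le_rfl
    rw [← Real.log_le_log_iff pn (by positivity), Real.log_rpow p0, ← hak, ← hak]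
    exact hgoal
  have hlog6 : Real.log (6 * K) ≤ A2 - 2 := by
    have h1 := le_abs_self (Real.log (6 * K))
    have h2 := abs_nonneg (Real.log (12 * K))
    rw [hA2]; linarith
  have hlog12 : Real.log (12 * K) ≤ A2 - 2 := by
    have h1 := le_abs_self (Real.log (12 * K))
    have h2 := abs_nonneg (Real.log (6 * K))
    rw [hA2]; linarith
  -- the basic step
  have hstep : ∀ i m, i + 1 ≤ m → m + 2 ≤ n → Same v (i + 1) m →
      D (v i) (v (m + 2)) (W (v (i + 1)) (v (i + 2))) = 0 := by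
    rintro i m him hmn hsame
    by_contra hne
    obtain ⟨g, g', B, hB, h1, h2⟩ := id hsame
    obtain ⟨hg, hρB⟩ := hgfac (i + 1) g B (by omega) h1
    obtain ⟨hg', -⟩ := hgfac m g' B (by omega) h2
    have hD0 : D (v i) (v (m + 2)) B ≠ 0 := by
      intro h0
      apply hne
      rw [show i + 2 = i + 1 + 1 by ring, h1, D_smul, h0, mul_zero]
    have hD1 : (1 : ℝ) ≤ |((D (v i) (v (m + 2)) B : ℤ) : ℝ)| := by
      have : 1 ≤ |D (v i) (v (m + 2)) B| := Int.one_le_abs hD0
      exact_mod_cast this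
    rw [← cst_D, D_eq V _ _ _ hD.V0, ← hD.LV, ← hD.LV] at hD1
    have p0 := hx0 i (by omega)
    have p1 := hx0 (i + 1) (by omega)
    have p2 := hx0 (i + 2) (by omega)
    have p3 := hx0 (m + 1) (by omega)
    have p4 := hx0 (m + 2) (by omega)
    have hBi : ∀ j, |(B j : ℝ)| ≤ 2 * ((x (i + 1) : ℝ) * x (i + 2)) := by
      intro j
      have h3 := hWle (i + 1) (by omega) j
      rw [h1, Pi.smul_apply, smul_eq_mul, Int.cast_mul, abs_mul] at h3
      have h4 := mul_le_mul_of_nonneg_right hg (abs_nonneg (B j : ℝ))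
      have h5 : i + 1 + 1 = i + 2 := by ring
      rw [h5] at h3
      linarith
    obtain ⟨β, hβ⟩ : ∃ β : ℝ, β = 2 * ((x (i + 1) : ℝ) * x (i + 2)) := ⟨_, rfl⟩
    rw [← hβ] at hBi
    have hβ0 : 0 < β := by rw [hβ]; positivity
    obtain ⟨γ, hγ⟩ : ∃ γ : ℝ, γ = 2 * (K * (x (m + 1) : ℝ) ^ (1 - w)) := ⟨_, rfl⟩
    have hγ0 : 0 < γ := by rw [hγ]; positivity
    have hct : ∀ j, |ct V (cst B) j| ≤ γ := by
      intro j
      have e1 : (g' : ℝ) * ct V (cst B) j = L (v m) * v (m + 1) j - L (v (m + 1)) * v m j := by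
        have e2 := ct_W V (cst (v m)) (cst (v (m + 1))) j
        rw [cst_W, h2, ← hD.LV, ← hD.LV] at e2
        have e3 : ct V (cst (g' • B)) j = (g' : ℝ) * ct V (cst B) j := by
          fin_cases j <;> simp [ct, cst] <;> ring
        rw [← e3, e2]
        rfl
      have hxw : (x (m + 1) : ℝ) ^ (-w) * x (m + 1) = (x (m + 1) : ℝ) ^ (1 - w) := by
        rw [show 1 - w = -w + 1 by ring, Real.rpow_add p3, Real.rpow_one]
      have h3 : |L (v m) * v (m + 1) j - L (v (m + 1)) * v m j| ≤ γ := by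
        rw [mul_comm (L (v (m + 1))) _]
        refine (sub_bound _ _ _ _ (K * (x (m + 1) : ℝ) ^ (-w)) (x (m + 1)) (hsm m (by omega))
          (hvi (m + 1) (by omega) j) ((hvi m (by omega) j).trans (hxm m (m + 1) (by omega)
          (by omega))) ((hdec m (m + 1) (by omega) (by omega)).trans
          (hsm m (by omega)))).trans (le_of_eq ?_)
        rw [hγ, ← hxw]
        ring
      rw [← e1, abs_mul] at h3
      have h4 := mul_le_mul_of_nonneg_right hg' (abs_nonneg (ct V (cst B) j))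
      linarith
    have hT : ∀ (z : Fin 4 → ℤ) (h : ℝ), (∀ j, |(z j : ℝ)| ≤ h) →
        |T (cst z) (cst B)| ≤ 3 * (h * β) := by
      intro z h hz
      have hh : 0 ≤ h := (abs_nonneg _).trans (hz 0)
      have b1 : |(z 1 : ℝ) * B 5| ≤ h * β := by
        rw [abs_mul]; exact mul_le_mul (hz 1) (hBi 5) (abs_nonneg _) hh
      have b2 : |(z 2 : ℝ) * B 4| ≤ h * β := by
        rw [abs_mul]; exact mul_le_mul (hz 2) (hBi 4) (abs_nonneg _) hh
      have b3 : |(z 3 : ℝ) * B 3| ≤ h * β := by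
        rw [abs_mul]; exact mul_le_mul (hz 3) (hBi 3) (abs_nonneg _) hh
      have b4 := abs_add_le ((z 1 : ℝ) * B 5 - (z 2 : ℝ) * B 4) ((z 3 : ℝ) * B 3)
      have b5 := abs_sub ((z 1 : ℝ) * B 5) ((z 2 : ℝ) * B 4)
      unfold T cst
      linarith
    have hmin : ∀ p q : Fin 4, |(v i p : ℝ) * v (m + 2) q - v i q * v (m + 2) p| ≤
        2 * ((x i : ℝ) * x (m + 2)) := by
      intro p q
      rw [mul_comm (v i q : ℝ)]
      exact sub_bound _ _ _ _ _ _ (hvi i (by omega) p) (hvi (m + 2) (by omega) q)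
        (hvi (m + 2) (by omega) p) (hvi i (by omega) q)
    have t1 : |L (v i) * T (cst (v (m + 2))) (cst B)| ≤
        (K * (x (i + 1) : ℝ) ^ (-w)) * (3 * (x (m + 2) * β)) := by
      rw [abs_mul]
      exact mul_le_mul (hsm i (by omega)) (hT _ _ (hvi (m + 2) (by omega))) (abs_nonneg _)
        (by positivity)
    have t2 : |L (v (m + 2)) * T (cst (v i)) (cst B)| ≤
        (K * (x (m + 2) : ℝ) ^ (-w)) * (3 * (x i * β)) := by
      rw [abs_mul]
      exact mul_le_mul ((hdec (m + 1) (m + 2) (by omega) hmn).trans (hsm (m + 1) (by omega)))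
        (hT _ _ (hvi i (by omega))) (abs_nonneg _) (by positivity)
    have hmc : ∀ p q j : Fin 4, |((v i p : ℝ) * v (m + 2) q - v i q * v (m + 2) p) *
        ct V (cst B) j| ≤ 2 * ((x i : ℝ) * x (m + 2)) * γ := by
      intro p q j
      rw [abs_mul]
      exact mul_le_mul (hmin p q) (hct j) (abs_nonneg _) (by positivity)
    have t3 := hmc 1 2 3
    have t4 := hmc 1 3 2
    have t5 := hmc 2 3 1
    -- the three terms
    obtain ⟨X1, hX1⟩ : ∃ X : ℝ, X = (6 * K) * ((x (i + 1) : ℝ) ^ (1 - w) *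
      ((x (i + 2) : ℝ) * x (m + 2))) := ⟨_, rfl⟩
    obtain ⟨X2, hX2⟩ : ∃ X : ℝ, X = (6 * K) * ((x (m + 2) : ℝ) ^ (-w) *
      ((x i : ℝ) * ((x (i + 1) : ℝ) * x (i + 2)))) := ⟨_, rfl⟩
    obtain ⟨X3, hX3⟩ : ∃ X : ℝ, X = (12 * K) * ((x (m + 1) : ℝ) ^ (1 - w) *
      ((x i : ℝ) * x (m + 2))) := ⟨_, rfl⟩
    have hX10 : 0 < X1 := by rw [hX1]; positivity
    have hX20 : 0 < X2 := by rw [hX2]; positivity
    have hX30 : 0 < X3 := by rw [hX3]; positivity
    have e1 : (K * (x (i + 1) : ℝ) ^ (-w)) * (3 * (x (m + 2) * β)) = X1 := by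
      rw [hX1, hβ, show 1 - w = -w + 1 by ring, Real.rpow_add p1, Real.rpow_one]
      ring
    have e2 : (K * (x (m + 2) : ℝ) ^ (-w)) * (3 * (x i * β)) = X2 := by
      rw [hX2, hβ]
      ring
    have e3 : 3 * (2 * ((x i : ℝ) * x (m + 2)) * γ) = X3 := by
      rw [hX3, hγ]
      ring
    have hsum : (1 : ℝ) ≤ X1 + X2 + X3 := by
      refine hD1.trans ?_
      rw [← e1, ← e2, ← e3]
      refine (abs_add_le _ _).trans ?_
      refine add_le_add ((abs_sub _ _).trans (add_le_add t1 t2)) ?_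
      refine (abs_add_le _ _).trans ?_
      have := abs_sub (((v i 1 : ℝ) * v (m + 2) 2 - v i 2 * v (m + 2) 1) * ct V (cst B) 3)
        (((v i 1 : ℝ) * v (m + 2) 3 - v i 3 * v (m + 2) 1) * ct V (cst B) 2)
      unfold cst at t3 t4 t5 this ⊢
      linarith
    -- logarithms of the terms
    have q1 : y * a (i + 2) ≤ 2 * a (i + 1) := hgrow (i + 1) (by omega)
    have q2 : (y + 2) * a (m + 1) ≤ 2 * (a (i + 1) + a (i + 2)) :=
      hplane2 (i + 1) m him (by omega) hsame
    have q3 : y * a (m + 2) ≤ 2 * a (m + 1) := hgrow (m + 1) (by omega)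
    have hbig1 : A2 / δ + A2 ≤ a (i + 1) := by
      have := ham 0 (i + 1) (by omega) (by omega)
      linarith
    have hbig2 : a (i + 1) ≤ a (m + 1) := ham _ _ (by omega) (by omega)
    have hbig3 : a (m + 1) ≤ a (m + 2) := ham _ _ (by omega) (by omega)
    have hδA : 0 ≤ A2 / δ := by positivity
    have hai1 := ha0 (i + 1) (by omega)
    have ham1 := ha0 (m + 1) (by omega)
    have ham2 := ha0 (m + 2) (by omega)
    have z1 : Real.log X1 ≤ -2 := by
      rw [hX1, Real.log_mul (x := 6 * K) (by positivity) (by positivity),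
        Real.log_mul (x := (x (i + 1) : ℝ) ^ (1 - w)) (by positivity)
        (by positivity), Real.log_mul p2.ne' p4.ne', hxpow _ (by omega), ← hak, ← hak]
      -- `y² (a_{i+2} + a_{m+2}) ≤ (2 y + 4) a_{i+1}`
      have r1 : y * (y * a (i + 2)) ≤ y * (2 * a (i + 1)) := mul_le_mul_of_nonneg_left q1 hy0.le
      have r2 : (y + 2) * (y * a (m + 2)) ≤ (y + 2) * (2 * a (m + 1)) :=
        mul_le_mul_of_nonneg_left q3 (by linarith)
      have r3 : (y + 2) * (y * (y * a (m + 2))) ≤ (y + 2) * (4 * a (i + 1)) := by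
        have r4 : y * ((y + 2) * (y * a (m + 2))) ≤ y * (4 * (a (i + 1) + a (i + 2))) :=
          mul_le_mul_of_nonneg_left (by linarith) hy0.le
        have r5 : y * (4 * (a (i + 1) + a (i + 2))) = 4 * (y * a (i + 1)) + 4 * (y * a (i + 2)) := by
          ring
        have r6 : (y + 2) * (y * (y * a (m + 2))) = y * ((y + 2) * (y * a (m + 2))) := by ring
        have r7 : (y + 2) * (4 * a (i + 1)) = 4 * (y * a (i + 1)) + 8 * a (i + 1) := by ring
        linarith
      have r8 : y * (y * a (m + 2)) ≤ 4 * a (i + 1) := le_of_mul_le_mul_left r3 (by linarith)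
      have r9 : (y * y) * (a (i + 2) + a (m + 2)) ≤ (y * y) * ((y + 2) * a (i + 1)) := by
        have r10 : (y * y) * (a (i + 2) + a (m + 2)) ≤ (2 * y + 4) * a (i + 1) := by
          have e : (y * y) * (a (i + 2) + a (m + 2)) = y * (y * a (i + 2)) + y * (y * a (m + 2)) := by
            ring
          rw [e]
          linarith
        have r11 : (2 * y + 4) * a (i + 1) ≤ (y * y) * ((y + 2) * a (i + 1)) := by
          have : 0 ≤ (y * y - 2) * ((y + 2) * a (i + 1)) :=
            mul_nonneg (by linarith) (mul_nonneg (by linarith) hai1)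
          linarith
        linarith
      have r12 : a (i + 2) + a (m + 2) ≤ (y + 2) * a (i + 1) :=
        le_of_mul_le_mul_left r9 (by positivity)
      have r13 : (1 - w) * a (i + 1) = -((y + 2) * a (i + 1)) - δ * a (i + 1) := by
        rw [hwy]; ring
      have r14 : A2 ≤ δ * a (i + 1) := by
        have : A2 / δ ≤ a (i + 1) := by linarith
        rw [div_le_iff₀ hδ0] at this
        linarith
      rw [r13]
      linarith
    have z2 : Real.log X2 ≤ -2 := by
      rw [hX2, Real.log_mul (x := 6 * K) (by positivity) (by positivity),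
        Real.log_mul (x := (x (m + 2) : ℝ) ^ (-w)) (by positivity)
        (by positivity), Real.log_mul p0.ne' (by positivity), Real.log_mul p1.ne' p2.ne',
        hxpow _ (by omega), ← hak, ← hak, ← hak]
      have r1 : a i ≤ a (m + 2) := ham _ _ (by omega) (by omega)
      have r2 : a (i + 1) ≤ a (m + 2) := ham _ _ (by omega) (by omega)
      have r3 : a (i + 2) ≤ a (m + 2) := ham _ _ (by omega) (by omega)
      have r4 : -w * a (m + 2) ≤ -4 * a (m + 2) := by
        apply mul_le_mul_of_nonneg_right _ ham2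
        rw [hwy]; linarith
      linarith
    have z3 : Real.log X3 ≤ -2 := by
      rw [hX3, Real.log_mul (x := 12 * K) (by positivity) (by positivity),
        Real.log_mul (x := (x (m + 1) : ℝ) ^ (1 - w)) (by positivity)
        (by positivity), Real.log_mul p0.ne' p4.ne', hxpow _ (by omega), ← hak, ← hak]
      have r1 : a i ≤ a (m + 1) := ham _ _ (by omega) (by omega)
      have r2 : a (m + 2) ≤ y * a (m + 1) := by
        have r3 : y * a (m + 2) ≤ y * (y * a (m + 1)) := by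
          have : 0 ≤ (y * y - 2) * a (m + 1) := mul_nonneg (by linarith) ham1
          linarith
        exact le_of_mul_le_mul_left r3 hy0
      have r4 : (1 - w) * a (m + 1) = -(2 * a (m + 1)) - y * a (m + 1) - δ * a (m + 1) := by
        rw [hwy]; ring
      have r5 : 0 ≤ δ * a (m + 1) := mul_nonneg hδ0.le ham1
      rw [r4]
      linarith
    have f1 := small_of_log hX10 z1
    have f2 := small_of_log hX20 z2
    have f3 := small_of_log hX30 z3
    linarith
  -- no independent triple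
  have ha00 := ha0 0 (by omega)
  by_cases hn0 : n = 0
  · rw [hn0]
    nlinarith
  have hchain0 : ∀ j m, (∀ i, i < m → ¬ Ind3 (v (j + i)) (v (j + i + 1)) (v (j + i + 2))) →
      j + m < n → Same v j (j + m) := by
    intro j m
    induction m with
    | zero => intro _ h; exact hself j h
    | succ m ih =>
      intro h1 h2
      exact hchain j (j + m) (by omega) (ih (fun i hi => h1 i (by omega)) (by omega))
        (h1 m (by omega))
  by_cases hex : ∃ i, i + 2 ≤ n ∧ Ind3 (v i) (v (i + 1)) (v (i + 2))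
  swap
  · push Not at hex
    have h1 : Same v 0 (n - 1) := by
      have := hchain0 0 (n - 1) (fun i hi => by
        rw [Nat.zero_add]; exact hex i (by omega)) (by omega)
      rwa [Nat.zero_add] at this
    have h2 := hplane3 0 (n - 1) (by omega) (by omega) h1
    rw [show n - 1 + 1 = n by omega] at h2
    have h3 := hsq _ _ (ha0 n le_rfl) h2
    nlinarith
  -- the first independent triple
  classical
  obtain ⟨i0, ⟨hi0n, hind0⟩, hi0min⟩ : ∃ i0, (i0 + 2 ≤ n ∧ Ind3 (v i0) (v (i0 + 1)) (v (i0 + 2))) ∧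
      ∀ i, i < i0 → ¬ (i + 2 ≤ n ∧ Ind3 (v i) (v (i + 1)) (v (i + 2))) :=
    ⟨Nat.find hex, Nat.find_spec hex, fun i hi => Nat.find_min hex hi⟩
  have hsame0 : Same v 0 i0 := by
    have := hchain0 0 i0 (fun i hi => by
      rw [Nat.zero_add]
      intro h
      exact hi0min i hi ⟨by omega, h⟩) (by omega)
    rwa [Nat.zero_add] at this
  have hb1 : a (i0 + 1) ≤ Real.sqrt 2 * a 0 :=
    hsq _ _ (ha0 _ (by omega)) (hplane3 0 i0 (by omega) (by omega) hsame0)
  have hb2 : a (i0 + 2) ≤ 2 * a 0 := by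
    have h1 := hsq _ _ (ha0 _ (by omega)) (hgrow (i0 + 1) (by omega))
    have h2 := mul_le_mul_of_nonneg_left hb1 hs0
    rw [← mul_assoc, hs2] at h2
    exact h1.trans h2
  have hb0 : a i0 ≤ Real.sqrt 2 * a 0 := (ham i0 (i0 + 1) (by omega) (by omega)).trans hb1
  -- the hyperplane
  obtain ⟨N', hN0', hNa', hNb', hNc'⟩ := exists_orth (v i0) (v (i0 + 1)) (v (i0 + 2))
  obtain ⟨gN, N, hgN, hNprim, hNN⟩ := exists_prim _ hN0'
  have hN0 : N ≠ 0 := by
    rintro rfl
    apply hN0'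
    rw [hNN, smul_zero]
  have horth0 : ∀ u : Fin 4 → ℤ, dt u N' = 0 → dt u N = 0 := by
    intro u h
    have e : dt u N' = gN * dt u N := by
      rw [hNN]
      simp only [dt, Pi.smul_apply, smul_eq_mul]
      ring
    rw [e] at h
    exact (mul_eq_zero.1 h).resolve_left hgN
  have hNa := horth0 _ hNa'
  have hNb := horth0 _ hNb'
  have hNc := horth0 _ hNc'
  have hdtlin : ∀ (c0 c1 c2 c3 : ℤ) (u1 u2 u3 u4 : Fin 4 → ℤ),
      c0 • u1 + c1 • u2 + c2 • u3 + c3 • u4 = 0 →
      c0 * dt u1 N + c1 * dt u2 N + c2 * dt u3 N + c3 * dt u4 N = 0 := by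
    intro c0 c1 c2 c3 u1 u2 u3 u4 h
    have e : c0 * dt u1 N + c1 * dt u2 N + c2 * dt u3 N + c3 * dt u4 N =
        dt (c0 • u1 + c1 • u2 + c2 • u3 + c3 • u4) N := by
      simp only [dt, Pi.add_apply, Pi.smul_apply, smul_eq_mul]
      ring
    rw [e, h]
    simp [dt]
  have hall : ∀ k, i0 + 1 ≤ k → k + 1 ≤ n → (∀ m, i0 ≤ m → m ≤ k + 1 → dt (v m) N = 0) ∧
      ∃ i, i0 ≤ i ∧ i + 1 ≤ k ∧ Ind3 (v i) (v (i + 1)) (v (i + 2)) ∧ Same v (i + 1) k := by
    intro k hk
    induction k, hk using Nat.le_induction with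
    | base =>
      intro hkn
      refine ⟨?_, i0, le_rfl, le_rfl, hind0, hself (i0 + 1) (by omega)⟩
      intro m hm1 hm2
      have : m = i0 ∨ m = i0 + 1 ∨ m = i0 + 2 := by omega
      rcases this with h | h | h
      · rw [h]; exact hNa
      · rw [h]; exact hNb
      · rw [h]; exact hNc
    | succ k hk ih =>
      intro hkn
      obtain ⟨ih1, i, hi1, hi2, hi3, hi4⟩ := ih (by omega)
      refine ⟨?_, ?_⟩
      · intro m hm1 hm2
        rcases Nat.lt_or_ge m (k + 2) with h | h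
        · exact ih1 m hm1 (by omega)
        · have hm : m = k + 2 := by omega
          rw [hm]
          have h1 := hstep i k hi2 (by omega) hi4
          obtain ⟨c, hc0, hc⟩ := dep4 _ _ _ _ h1
          have hc1 : c 1 ≠ 0 := by
            intro h0
            rw [h0, zero_smul, add_zero] at hc
            obtain ⟨g1, g2, g3⟩ := hi3 _ _ _ hc
            apply hc0
            funext j
            fin_cases j
            · exact g1
            · exact h0
            · exact g2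
            · exact g3
          have h2 := hdtlin _ _ _ _ _ _ _ _ hc
          rw [ih1 i hi1 (by omega), ih1 (i + 1) (by omega) (by omega),
            ih1 (i + 2) (by omega) (by omega)] at h2
          simp only [mul_zero, zero_add, add_zero] at h2
          exact (mul_eq_zero.1 h2).resolve_left hc1
      · by_cases h : Ind3 (v k) (v (k + 1)) (v (k + 2))
        · exact ⟨k, by omega, le_rfl, h, hself (k + 1) (by omega)⟩
        · exact ⟨i, hi1, by omega, hi3, hchain _ _ (by omega) hi4 h⟩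
  obtain ⟨horth', i, hi1, hi2, hi3, hi4⟩ := hall (n - 1) (by omega) (by omega)
  have horth : ∀ m, i0 ≤ m → m ≤ n → dt (v m) N = 0 := fun m h1 h2 => horth' m h1 (by omega)
  have hlast : a n ≤ Real.sqrt 2 * a (i + 1) := by
    have h2 := hplane3 (i + 1) (n - 1) (by omega) (by omega) hi4
    rw [show n - 1 + 1 = n by omega] at h2
    exact hsq _ _ (ha0 n le_rfl) h2
  obtain ⟨l0, hl0⟩ := Function.ne_iff.1 hN0
  have hl0' : N l0 ≠ 0 := hl0
  have hGN : ∀ i, i0 ≤ i → i + 2 ≤ n → Ind3 (v i) (v (i + 1)) (v (i + 2)) →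
      ∃ g : ℤ, g ≠ 0 ∧ C (v i) (v (i + 1)) (v (i + 2)) = g • N := by
    intro i hi hin hind
    obtain ⟨G, hG⟩ : ∃ G : Fin 4 → ℤ, G = C (v i) (v (i + 1)) (v (i + 2)) := ⟨_, rfl⟩
    have hGl : G l0 ≠ 0 := by
      intro h0
      obtain ⟨E, hE⟩ : ∃ E : Fin 4 → ℤ, E = Pi.single l0 1 := ⟨_, rfl⟩
      have h1 : D (v i) (v (i + 1)) (W (v (i + 2)) E) = 0 := by
        rw [D_W, ← hG, hE]
        have : dt G (Pi.single l0 1) = G l0 := by
          unfold dt
          fin_cases l0 <;> simp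
        rw [this, h0]
      obtain ⟨c, hc0, hc⟩ := dep4 _ _ _ _ h1
      have hc1 : c 3 ≠ 0 := by
        intro h0
        rw [h0, zero_smul, add_zero] at hc
        obtain ⟨g1, g2, g3⟩ := hind _ _ _ hc
        apply hc0
        funext j
        fin_cases j
        · exact g1
        · exact g2
        · exact g3
        · exact h0
      have h2 := hdtlin _ _ _ _ _ _ _ _ hc
      rw [horth i hi (by omega), horth (i + 1) (by omega) (by omega),
        horth (i + 2) (by omega) (by omega)] at h2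
      simp only [mul_zero, zero_add] at h2
      have h3 := (mul_eq_zero.1 h2).resolve_left hc1
      apply hl0'
      rw [← h3, hE]
      unfold dt
      fin_cases l0 <;> simp
    have hpar : ∀ k l, (G k : ℝ) * N l = G l * N k := by
      intro k l
      have b := C_bound (cst N) (cst (v i)) (cst (v (i + 1))) (cst (v (i + 2)))
        (∑ j, |W (cst (v (i + 1))) (cst (v (i + 2))) j| + ∑ j, |W (cst (v i)) (cst (v (i + 2))) j| +
          ∑ j, |W (cst (v i)) (cst (v (i + 1))) j|) ?_ ?_ ?_ k l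
      · rw [cst_dt, cst_dt, cst_dt, horth i hi (by omega), horth (i + 1) (by omega) (by omega),
          horth (i + 2) (by omega) (by omega), cst_C, ← hG] at b
        simp only [Int.cast_zero, abs_zero, add_zero, zero_mul] at b
        have b2 := abs_eq_zero.1 (le_antisymm b (abs_nonneg _))
        unfold cst at b2
        linarith
      all_goals
        intro j
        have s1 := Finset.single_le_sum (f := fun j => |W (cst (v (i + 1))) (cst (v (i + 2))) j|)
          (fun j _ => abs_nonneg _) (Finset.mem_univ j)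
        have s2 := Finset.single_le_sum (f := fun j => |W (cst (v i)) (cst (v (i + 2))) j|)
          (fun j _ => abs_nonneg _) (Finset.mem_univ j)
        have s3 := Finset.single_le_sum (f := fun j => |W (cst (v i)) (cst (v (i + 1))) j|)
          (fun j _ => abs_nonneg _) (Finset.mem_univ j)
        have t1 := abs_nonneg (W (cst (v (i + 1))) (cst (v (i + 2))) j)
        have t2 := abs_nonneg (W (cst (v i)) (cst (v (i + 2))) j)
        have t3 := abs_nonneg (W (cst (v i)) (cst (v (i + 1))) j)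
        linarith
    obtain ⟨g, hg⟩ := prim_mul (B := G) (y := G l0) hNprim hl0' (by
      intro k
      have := hpar k l0
      have h2 : ((N l0 * G k : ℤ) : ℝ) = ((G l0 * N k : ℤ) : ℝ) := by push_cast; linarith
      exact_mod_cast h2)
    refine ⟨g, ?_, by rw [← hG]; exact hg⟩
    rintro rfl
    apply hGl
    rw [hg]
    simp
  -- the height of the hyperplane
  obtain ⟨h, hh⟩ : ∃ h : ℝ, h = 6 * ((x i0 : ℝ) * ((x (i0 + 1) : ℝ) * x (i0 + 2))) := ⟨_, rfl⟩
  have p0 := hx1 i0 (by omega)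
  have p1 := hx1 (i0 + 1) (by omega)
  have p2 := hx1 (i0 + 2) (by omega)
  have hh1 : 1 ≤ h := by
    have h1 := one_le_mul_of_one_le_of_one_le p1 p2
    have h2 := one_le_mul_of_one_le_of_one_le p0 h1
    rw [hh]; linarith
  have hNh : ∀ j, |(N j : ℝ)| ≤ h := by
    intro j
    obtain ⟨g, hg0, hg⟩ := hGN i0 le_rfl hi0n hind0
    have h1 := C_le (v i0) (v (i0 + 1)) (v (i0 + 2)) _ _ _ (hvi i0 (by omega))
      (hvi (i0 + 1) (by omega)) (hvi (i0 + 2) (by omega)) j
    rw [hg, Pi.smul_apply, smul_eq_mul, Int.cast_mul, abs_mul, ← hh] at h1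
    have h2 : (1 : ℝ) ≤ |(g : ℝ)| := by
      have : 1 ≤ |g| := Int.one_le_abs hg0
      exact_mod_cast this
    have h3 := mul_le_mul_of_nonneg_right h2 (abs_nonneg (N j : ℝ))
    linarith
  obtain ⟨p, q, hpq⟩ := hD.irr N h hN0 hh1 hNh
  -- the numbers are nearly proportional to `N`
  have hkey : |(N p : ℝ) * V q - N q * V p| ≤
      (6 * K) * ((x (i + 1) : ℝ) ^ (1 - w) * x (i + 2)) := by
    obtain ⟨g, hg0, hg⟩ := hGN i hi1 (by omega) hi3
    have q0 := hx0 i (by omega)
    have q1 := hx0 (i + 1) (by omega)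
    have q2 := hx0 (i + 2) (by omega)
    have hWb : ∀ s t, s ≤ t → t ≤ i + 2 → s ≤ i + 1 → ∀ j, |W (cst (v s)) (cst (v t)) j| ≤
        2 * ((x (i + 1) : ℝ) * x (i + 2)) := by
      intro s t hst ht hs j
      rw [cst_W]
      refine (W_le _ _ j).trans ?_
      have := mul_le_mul ((hvx s (by omega)).trans (hxm s (i + 1) hs (by omega)))
        ((hvx t (by omega)).trans (hxm t (i + 2) ht (by omega)))
        (Nat.cast_nonneg _) q1.le
      linarith
    have b := C_bound V (cst (v i)) (cst (v (i + 1))) (cst (v (i + 2)))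
      (2 * ((x (i + 1) : ℝ) * x (i + 2))) (hWb _ _ (by omega) le_rfl le_rfl)
      (hWb _ _ (by omega) le_rfl (by omega)) (hWb _ _ (by omega) (by omega) (by omega)) p q
    rw [← hD.LV, ← hD.LV, ← hD.LV, cst_C, hg] at b
    have l1 := hsm i (by omega)
    have l2 := (hdec i (i + 1) (by omega) (by omega)).trans l1
    have l3 := (hdec i (i + 2) (by omega) (by omega)).trans l1
    have b2 : |cst (g • N) p * V q - cst (g • N) q * V p| ≤
        (6 * K) * ((x (i + 1) : ℝ) ^ (1 - w) * x (i + 2)) := by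
      refine b.trans ?_
      have h3 : |L (v i)| + |L (v (i + 1))| + |L (v (i + 2))| ≤ 3 * (K * (x (i + 1) : ℝ) ^ (-w)) := by
        linarith
      refine (mul_le_mul_of_nonneg_right h3 (by positivity)).trans (le_of_eq ?_)
      rw [show 1 - w = -w + 1 by ring, Real.rpow_add q1, Real.rpow_one]
      ring
    have e : cst (g • N) p * V q - cst (g • N) q * V p =
        (g : ℝ) * ((N p : ℝ) * V q - N q * V p) := by
      simp only [cst, Pi.smul_apply, smul_eq_mul, Int.cast_mul]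
      ring
    rw [e, abs_mul] at b2
    have h2 : (1 : ℝ) ≤ |(g : ℝ)| := by
      have : 1 ≤ |g| := Int.one_le_abs hg0
      exact_mod_cast this
    have h3 := mul_le_mul_of_nonneg_right h2 (abs_nonneg ((N p : ℝ) * V q - N q * V p))
    linarith
  -- logarithms
  have q1 := hx0 (i + 1) (by omega)
  have q2 := hx0 (i + 2) (by omega)
  have hh0 : 0 < h := by linarith
  have hfin : c' ≤ h ^ (1 + δ / 4) * ((6 * K) * ((x (i + 1) : ℝ) ^ (1 - w) * x (i + 2))) :=
    hpq.trans (mul_le_mul_of_nonneg_left hkey (by positivity))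
  have hlog := Real.log_le_log hc0' hfin
  have r0 := hx0 i0 (by omega)
  have r1 := hx0 (i0 + 1) (by omega)
  have r2 := hx0 (i0 + 2) (by omega)
  have hlogh : Real.log h = Real.log 6 + (a i0 + (a (i0 + 1) + a (i0 + 2))) := by
    rw [hh, Real.log_mul (by norm_num) (by positivity), Real.log_mul r0.ne' (by positivity),
      Real.log_mul r1.ne' r2.ne', ← hak, ← hak, ← hak]
  rw [Real.log_mul (x := h ^ (1 + δ / 4)) (by positivity) (by positivity), Real.log_rpow hh0, hlogh,
    Real.log_mul (x := 6 * K) (by positivity) (by positivity),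
    Real.log_mul (x := (x (i + 1) : ℝ) ^ (1 - w)) (by positivity) q2.ne', hxpow _ (by omega),
    ← hak] at hlog
  have hA3' : (1 + δ / 4) * Real.log 6 + Real.log (6 * K) - Real.log c' ≤ A3 := by
    rw [hA3]; exact le_abs_self _
  have hg1 : a (i + 2) ≤ y * a (i + 1) := by
    have hg := hgrow (i + 1) (by omega)
    have r3 : y * a (i + 2) ≤ y * (y * a (i + 1)) := by
      have : 0 ≤ (y * y - 2) * a (i + 1) := mul_nonneg (by linarith) (ha0 _ (by omega))
      have e5 : i + 1 + 1 = i + 2 := by ring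
      rw [e5] at hg
      linarith
    exact le_of_mul_le_mul_left r3 hy0
  have s1 : (1 + δ / 4) * (a i0 + (a (i0 + 1) + a (i0 + 2))) ≤
      (1 + δ / 4) * ((2 * Real.sqrt 2 + 2) * a 0) :=
    mul_le_mul_of_nonneg_left (by linarith) (by linarith)
  have s2 : A3 ≤ δ / 2 * ((Real.sqrt 2 + 1) * a 0) := by
    have h1 : 2 * A3 / δ ≤ a 0 := by linarith
    rw [div_le_iff₀ hδ0] at h1
    have h2 : 0 ≤ δ / 2 * (Real.sqrt 2 * a 0) := by positivity
    linarith
  have s3 : (2 + δ) * a (i + 1) ≤ (2 + δ) * ((Real.sqrt 2 + 1) * a 0) := by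
    have e1 : (1 - w) * a (i + 1) = -((2 + δ) * a (i + 1)) - y * a (i + 1) := by
      rw [hwy]; ring
    have e2 : (1 + δ / 4) * (Real.log 6 + (a i0 + (a (i0 + 1) + a (i0 + 2)))) =
        (1 + δ / 4) * Real.log 6 + (1 + δ / 4) * (a i0 + (a (i0 + 1) + a (i0 + 2))) := by ring
    have e3 : (1 + δ / 4) * ((2 * Real.sqrt 2 + 2) * a 0) + δ / 2 * ((Real.sqrt 2 + 1) * a 0) =
        (2 + δ) * ((Real.sqrt 2 + 1) * a 0) := by ring
    rw [e1, e2] at hlog
    linarith
  have s4 : a (i + 1) ≤ (Real.sqrt 2 + 1) * a 0 := le_of_mul_le_mul_left s3 (by linarith)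
  have s5 := mul_le_mul_of_nonneg_left s4 hs0
  have e6 : Real.sqrt 2 * ((Real.sqrt 2 + 1) * a 0) =
      Real.sqrt 2 * Real.sqrt 2 * a 0 + Real.sqrt 2 * a 0 := by ring
  rw [e6, hs2] at s5
  linarith

end Pool.Agent.N538.MR
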