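import Pool.Agent.N538.MR.Alg

/-!
# Four numbers: the uniform exponent is at most `3 + √2`
-/

set_option autoImplicit false

namespace Pool.Agent.N538.MR

open Filter Topology

lemma small_of_log {X : ℝ} (hX : 0 < X) (h : Real.log X ≤ -2) : X < 1 / 3 := by
  have h1 : X ≤ Real.exp (-2) := by
    rw [← Real.exp_log hX]
    exact Real.exp_le_exp.2 h
  have h2 : (3 : ℝ) < Real.exp 2 := by
    have := Real.add_one_lt_exp (show (2 : ℝ) ≠ 0 by norm_num)
    linarith
  have h3 : Real.exp (-2) < 1 / 3 := by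
    rw [Real.exp_neg, inv_eq_one_div]
    exact one_div_lt_one_div_of_lt (by norm_num) h2
  linarith

lemma tri (a b c d e f x y z M : ℝ) (ha : |a| ≤ M) (hb : |b| ≤ M) (hc : |c| ≤ M)
    (h : d = x * a - y * b + z * c ∨ d = -(x * a - y * b + z * c)) (he : e = |x| + |y| + |z|)
    (hf : f = e * M) : |d| ≤ f := by
  have h1 : |d| = |x * a - y * b + z * c| := by
    rcases h with h | h
    · rw [h]
    · rw [h, abs_neg]
  rw [h1, hf, he]
  have h2 := abs_add_le (x * a - y * b) (z * c)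
  have h3 := abs_sub (x * a) (y * b)
  rw [abs_mul] at h2 h3
  rw [abs_mul] at h3
  have h4 := mul_le_mul_of_nonneg_left ha (abs_nonneg x)
  have h5 := mul_le_mul_of_nonneg_left hb (abs_nonneg y)
  have h6 := mul_le_mul_of_nonneg_left hc (abs_nonneg z)
  have h7 : (|x| + |y| + |z|) * M = |x| * M + |y| * M + |z| * M := by ring
  rw [h7]
  linarith

lemma C_bound (V u v w : Fin 4 → ℝ) (M : ℝ) (h1 : ∀ i, |W v w i| ≤ M) (h2 : ∀ i, |W u w i| ≤ M)
    (h3 : ∀ i, |W u v i| ≤ M) (k l : Fin 4) :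
    |C u v w k * V l - C u v w l * V k| ≤ (|dt u V| + |dt v V| + |dt w V|) * M := by
  obtain ⟨e1, e2, e3, e4, e5, e6⟩ := C_eq V u v w
  have hM : 0 ≤ M := (abs_nonneg _).trans (h1 0)
  have hnn : 0 ≤ (|dt u V| + |dt v V| + |dt w V|) * M := by positivity
  have b1 := tri _ _ _ _ _ _ _ _ _ M (h1 5) (h2 5) (h3 5) (Or.inr e1) rfl rfl
  have b2 := tri _ _ _ _ _ _ _ _ _ M (h1 4) (h2 4) (h3 4) (Or.inl e2) rfl rfl
  have b3 := tri _ _ _ _ _ _ _ _ _ M (h1 3) (h2 3) (h3 3) (Or.inr e3) rfl rfl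
  have b4 := tri _ _ _ _ _ _ _ _ _ M (h1 2) (h2 2) (h3 2) (Or.inr e4) rfl rfl
  have b5 := tri _ _ _ _ _ _ _ _ _ M (h1 1) (h2 1) (h3 1) (Or.inl e5) rfl rfl
  have b6 := tri _ _ _ _ _ _ _ _ _ M (h1 0) (h2 0) (h3 0) (Or.inr e6) rfl rfl
  have hz : ∀ t : ℝ, |t - t| ≤ (|dt u V| + |dt v V| + |dt w V|) * M := fun t => by
    rw [sub_self, abs_zero]
    exact hnn
  have hs : ∀ s t : ℝ, |s - t| ≤ (|dt u V| + |dt v V| + |dt w V|) * M →
      |t - s| ≤ (|dt u V| + |dt v V| + |dt w V|) * M := fun s t h => by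
    rw [abs_sub_comm]
    exact h
  fin_cases k <;> fin_cases l
  · exact hz _
  · exact b1
  · exact b2
  · exact b3
  · exact hs _ _ b1
  · exact hz _
  · exact b4
  · exact b5
  · exact hs _ _ b2
  · exact hs _ _ b4
  · exact hz _
  · exact b6
  · exact hs _ _ b3
  · exact hs _ _ b5
  · exact hs _ _ b6
  · exact hz _

/-- the bivectors `W i` and `W m` are multiples of one primitive bivector -/
def Same (v : ℕ → Fin 4 → ℤ) (i m : ℕ) : Prop :=
  ∃ (g g' : ℤ) (B : Fin 6 → ℤ), Prim B ∧ W (v i) (v (i + 1)) = g • B ∧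
    W (v m) (v (m + 1)) = g' • B

/-- the data: four numbers, and a linear functional `ρ` on the bivectors -/
structure Data (V : Fin 4 → ℝ) (L : (Fin 4 → ℤ) →+ ℝ) (ρ : (Fin 6 → ℤ) → ℝ) (A : ℝ) : Prop where
  V0 : V 0 = 1
  LV : ∀ u, L u = dt (cst u) V
  A0 : 0 < A
  smul : ∀ (g : ℤ) (B : Fin 6 → ℤ), ρ (g • B) = g * ρ B
  pair : ∀ u v : Fin 4 → ℤ, |ρ (W u v)| ≤ A * (ht v * |L u| + ht u * |L v|)
  meas : ∀ ε : ℝ, 0 < ε → ∃ c : ℝ, 0 < c ∧ ∀ (B : Fin 6 → ℤ) (H : ℝ), ρ B ≠ 0 → 1 ≤ H →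
    (∀ i, |(B i : ℝ)| ≤ H) → c ≤ H ^ (2 + ε) * |ρ B|
  irr : ∀ N : Fin 4 → ℤ, N ≠ 0 → ∃ k l, (N k : ℝ) * V l - N l * V k ≠ 0

theorem main4 {V : Fin 4 → ℝ} {L : (Fin 4 → ℤ) →+ ℝ} {ρ : (Fin 6 → ℤ) → ℝ} {A w : ℝ}
    (hD : Data V L ρ A) (hw : 3 + Real.sqrt 2 < w) {v : ℕ → Fin 4 → ℤ} {x : ℕ → ℕ}
    (hS : MinSeq L w v x) (hnd : ∃ k0, ∀ k, k0 ≤ k → ρ (W (v k) (v (k + 1))) ≠ 0) : False := by
  obtain ⟨k0, hk0⟩ := hnd
  have hA := hD.A0
  have hs2 : Real.sqrt 2 * Real.sqrt 2 = 2 := Real.mul_self_sqrt (by norm_num)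
  have hs0 : 0 ≤ Real.sqrt 2 := Real.sqrt_nonneg 2
  have hs1 : 1.4 ≤ Real.sqrt 2 := Real.le_sqrt_of_sq_le (by norm_num)
  obtain ⟨δ, hδ⟩ : ∃ δ : ℝ, δ = (w - 3 - Real.sqrt 2) / 2 := ⟨_, rfl⟩
  have hδ0 : 0 < δ := by rw [hδ]; linarith
  obtain ⟨y, hy⟩ : ∃ y : ℝ, y = Real.sqrt 2 + δ := ⟨_, rfl⟩
  have hwy : w = 3 + y + δ := by rw [hy, hδ]; ring
  have hy0 : 0 < y := by rw [hy]; linarith
  have hy1 : 1.4 ≤ y := by rw [hy]; linarith
  have hy2 : 2 ≤ y * y := by rw [hy]; nlinarith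
  obtain ⟨K, hK⟩ : ∃ K : ℝ, K = (2 : ℝ) ^ w := ⟨_, rfl⟩
  have hK0 : 0 < K := by rw [hK]; positivity
  -- sizes
  have hx1 : ∀ k, (1 : ℝ) ≤ x k := fun k => by exact_mod_cast hS.pos k
  have hx0 : ∀ k, (0 : ℝ) < x k := fun k => by have := hx1 k; linarith
  have hxm : ∀ i j, i ≤ j → (x i : ℝ) ≤ x j := by
    intro i j hij
    have : x i ≤ x j := (strictMono_nat_of_lt_succ hS.lt).monotone hij
    exact_mod_cast this
  have hvx : ∀ k, (ht (v k) : ℝ) ≤ x k := fun k => by exact_mod_cast hS.ht_le k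
  have hvi : ∀ k i, |(v k i : ℝ)| ≤ x k := fun k i => (abs_le_ht _ i).trans (hvx k)
  have hsm : ∀ k, |L (v k)| ≤ K * (x (k + 1) : ℝ) ^ (-w) := fun k => by
    rw [hK]; exact hS.small k
  have hdec : ∀ i j, i ≤ j → |L (v j)| ≤ |L (v i)| := by
    intro i j hij
    induction j, hij using Nat.le_induction with
    | base => exact le_rfl
    | succ j hij ih => exact (hS.dec j).le.trans ih
  -- logarithms
  obtain ⟨a, ha⟩ : ∃ a : ℕ → ℝ, a = fun k => Real.log (x k) := ⟨_, rfl⟩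
  have hak : ∀ k, a k = Real.log (x k) := fun k => by rw [ha]
  have ha0 : ∀ k, 0 ≤ a k := fun k => by rw [hak]; exact Real.log_nonneg (hx1 k)
  have ham : ∀ i j, i ≤ j → a i ≤ a j := fun i j hij => by
    rw [hak, hak]; exact Real.log_le_log (hx0 i) (hxm i j hij)
  have hatop : Tendsto a atTop atTop := by
    rw [ha]
    apply Real.tendsto_log_atTop.comp
    exact tendsto_natCast_atTop_atTop.comp (strictMono_nat_of_lt_succ hS.lt).tendsto_atTop
  have hxpow : ∀ k (s : ℝ), Real.log ((x k : ℝ) ^ s) = s * a k := fun k s => by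
    rw [Real.log_rpow (hx0 k), hak]
  -- bivectors
  have hWle : ∀ k i, |((W (v k) (v (k + 1)) i : ℤ) : ℝ)| ≤ 2 * ((x k : ℝ) * x (k + 1)) := by
    intro k i
    refine (W_le _ _ i).trans ?_
    have := mul_le_mul (hvx k) (hvx (k + 1)) (Nat.cast_nonneg _) (hx0 k).le
    linarith
  have hpair : ∀ k, |ρ (W (v k) (v (k + 1)))| ≤ 2 * (A * K) * (x (k + 1) : ℝ) ^ (1 - w) := by
    intro k
    refine (hD.pair _ _).trans ?_
    have e : (x (k + 1) : ℝ) * (x (k + 1) : ℝ) ^ (-w) = (x (k + 1) : ℝ) ^ (1 - w) := by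
      rw [show 1 - w = 1 + -w by ring, Real.rpow_add (hx0 _), Real.rpow_one]
    have h1 : (ht (v (k + 1)) : ℝ) * |L (v k)| ≤ x (k + 1) * (K * (x (k + 1) : ℝ) ^ (-w)) :=
      mul_le_mul (hvx (k + 1)) (hsm k) (abs_nonneg _) (hx0 _).le
    have h2 : (ht (v k) : ℝ) * |L (v (k + 1))| ≤ x (k + 1) * (K * (x (k + 1) : ℝ) ^ (-w)) :=
      mul_le_mul ((hvx k).trans (hxm k (k + 1) (by omega))) ((hdec k (k + 1) (by omega)).trans
        (hsm k)) (abs_nonneg _) (hx0 _).le
    have e2 : x (k + 1) * (K * (x (k + 1) : ℝ) ^ (-w)) = K * (x (k + 1) : ℝ) ^ (1 - w) := by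
      rw [← e]; ring
    rw [e2] at h1 h2
    have h3 := mul_le_mul_of_nonneg_left (add_le_add h1 h2) hA.le
    refine h3.trans (le_of_eq ?_)
    ring
  have hρ0 : ρ 0 = 0 := by
    have := hD.smul 0 0
    simpa using this
  -- the factors
  have hgfac : ∀ (k : ℕ) (g : ℤ) (B : Fin 6 → ℤ), k0 ≤ k → W (v k) (v (k + 1)) = g • B →
      (1 : ℝ) ≤ |(g : ℝ)| ∧ ρ B ≠ 0 := by
    intro k g B hk h
    have h1 := hk0 k hk
    rw [h, hD.smul] at h1
    have h2 : g ≠ 0 := by
      rintro rfl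
      simp at h1
    refine ⟨?_, right_ne_zero_of_mul h1⟩
    have : 1 ≤ |g| := Int.one_le_abs h2
    exact_mod_cast this
  have hself : ∀ k, k0 ≤ k → Same v k k := by
    intro k hk
    have h1 : W (v k) (v (k + 1)) ≠ 0 := by
      intro h
      apply hk0 k hk
      rw [h, hρ0]
    obtain ⟨g, B, -, hB, h2⟩ := exists_prim _ h1
    exact ⟨g, g, B, hB, h2, h2⟩
  have hchain : ∀ i m, Same v i m → ¬ Ind3 (v m) (v (m + 1)) (v (m + 2)) → Same v i (m + 1) := by
    rintro i m ⟨g, g', B, hB, h1, h2⟩ h3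
    unfold Ind3 at h3
    push Not at h3
    obtain ⟨p, q, r, hr, hne⟩ := h3
    have hr0 : r ≠ 0 := by
      intro h0
      rw [h0, zero_smul, add_zero] at hr
      obtain ⟨hp, hq⟩ := hS.indep m p q hr
      exact hne hp hq h0
    have e1 : r • v (m + 2) = (-p) • v m + (-q) • v (m + 1) := by
      rw [neg_smul, neg_smul]
      have : r • v (m + 2) = -(p • v m + q • v (m + 1)) := eq_neg_of_add_eq_zero_right hr
      rw [this]
      abel
    have e2 : ∀ j, r * W (v (m + 1)) (v (m + 2)) j = (p * g') * B j := by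
      intro j
      rw [← W_smul, e1, W_add_smul, h2, Pi.smul_apply, smul_eq_mul]
      ring
    obtain ⟨g'', hg''⟩ := prim_mul hB hr0 e2
    exact ⟨g, g'', B, hB, h1, hg''⟩
  -- the plane inequality
  obtain ⟨c, hc0, hc⟩ := hD.meas (δ / 4) (by linarith)
  obtain ⟨A1, hA1⟩ : ∃ A1 : ℝ, A1 = |(2 + δ / 4) * Real.log 2 + Real.log (2 * (A * K)) - Real.log c| :=
    ⟨_, rfl⟩
  have hplane : ∀ i m, k0 ≤ i → i ≤ m → Same v i m →
      (w - 1 - δ / 2) * a (m + 1) ≤ 2 * (a i + a (i + 1)) + A1 := by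
    rintro i m hi him ⟨g, g', B, hB, h1, h2⟩
    obtain ⟨hg, hρB⟩ := hgfac i g B hi h1
    obtain ⟨hg', -⟩ := hgfac m g' B (hi.trans him) h2
    have hH : (1 : ℝ) ≤ 2 * ((x i : ℝ) * x (i + 1)) := by
      have := mul_le_mul (hx1 i) (hx1 (i + 1)) zero_le_one (hx0 i).le
      linarith
    have hBi : ∀ j, |(B j : ℝ)| ≤ 2 * ((x i : ℝ) * x (i + 1)) := by
      intro j
      have h3 := hWle i j
      rw [h1, Pi.smul_apply, smul_eq_mul, Int.cast_mul, abs_mul] at h3
      have h4 := mul_le_mul_of_nonneg_right hg (abs_nonneg (B j : ℝ))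
      linarith
    have h3 := hc B _ hρB hH hBi
    have h4 : |ρ B| ≤ 2 * (A * K) * (x (m + 1) : ℝ) ^ (1 - w) := by
      have h5 := hpair m
      rw [h2, hD.smul, abs_mul] at h5
      have h6 := mul_le_mul_of_nonneg_right hg' (abs_nonneg (ρ B))
      linarith
    have hpos1 : 0 < (2 * ((x i : ℝ) * x (i + 1))) ^ (2 + δ / 4) := by
      have := hx0 i
      have := hx0 (i + 1)
      positivity
    have hpos2 : 0 < (x (m + 1) : ℝ) ^ (1 - w) := by
      have := hx0 (m + 1)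
      positivity
    have h5 : c ≤ (2 * ((x i : ℝ) * x (i + 1))) ^ (2 + δ / 4) *
        (2 * (A * K) * (x (m + 1) : ℝ) ^ (1 - w)) :=
      h3.trans (mul_le_mul_of_nonneg_left h4 hpos1.le)
    have h6 := Real.log_le_log hc0 h5
    rw [Real.log_mul hpos1.ne' (by positivity), Real.log_mul (by positivity) hpos2.ne', hxpow,
      Real.log_rpow (by have := hx0 i; have := hx0 (i + 1); positivity),
      Real.log_mul (by norm_num) (by have := hx0 i; have := hx0 (i + 1); positivity),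
      Real.log_mul (hx0 i).ne' (hx0 (i + 1)).ne', ← hak, ← hak] at h6
    have h7 := le_abs_self ((2 + δ / 4) * Real.log 2 + Real.log (2 * (A * K)) - Real.log c)
    rw [← hA1] at h7
    have h8 : a i ≤ a (m + 1) := ham i (m + 1) (by omega)
    have h9 : a (i + 1) ≤ a (m + 1) := ham (i + 1) (m + 1) (by omega)
    have h10 : δ / 4 * (a i + a (i + 1)) ≤ δ / 4 * (2 * a (m + 1)) :=
      mul_le_mul_of_nonneg_left (by linarith) (by linarith)
    have e1 : (2 + δ / 4) * (Real.log 2 + (a i + a (i + 1))) =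
        (2 + δ / 4) * Real.log 2 + 2 * (a i + a (i + 1)) + δ / 4 * (a i + a (i + 1)) := by ring
    have e2 : (w - 1 - δ / 2) * a (m + 1) = -((1 - w) * a (m + 1)) - δ / 4 * (2 * a (m + 1)) := by
      ring
    rw [e1] at h6
    rw [e2]
    linarith
  have hA10 : 0 ≤ A1 := by rw [hA1]; exact abs_nonneg _
  obtain ⟨k1, hk1⟩ : ∃ k1, ∀ k, k1 ≤ k → 2 * A1 / δ ≤ a k :=
    eventually_atTop.1 (hatop.eventually_ge_atTop _)
  obtain ⟨k2, hk2⟩ : ∃ k2 : ℕ, k2 = max k0 k1 := ⟨_, rfl⟩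
  have hplane2 : ∀ i m, k2 ≤ i → i ≤ m → Same v i m → (y + 2) * a (m + 1) ≤ 2 * (a i + a (i + 1)) := by
    intro i m hi him h
    have h0 : k0 ≤ i := by rw [hk2] at hi; omega
    have h1 : k1 ≤ i := by rw [hk2] at hi; omega
    have h2 := hplane i m h0 him h
    have h3 := hk1 i h1
    have h4 : a i ≤ a (m + 1) := ham i (m + 1) (by omega)
    rw [div_le_iff₀ hδ0] at h3
    have h5 : δ * a i ≤ δ * a (m + 1) := mul_le_mul_of_nonneg_left h4 hδ0.le
    have e : (w - 1 - δ / 2) * a (m + 1) = (y + 2) * a (m + 1) + δ / 2 * a (m + 1) := by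
      rw [hwy]; ring
    rw [e] at h2
    nlinarith
  have hgrow : ∀ i, k2 ≤ i → y * a (i + 1) ≤ 2 * a i := by
    intro i hi
    have h1 := hplane2 i i hi le_rfl (hself i (by rw [hk2] at hi; omega))
    linarith
  -- independent triples
  have hinf : ∀ k, ∃ i, k ≤ i ∧ Ind3 (v i) (v (i + 1)) (v (i + 2)) := by
    intro k
    by_contra hcon
    push Not at hcon
    obtain ⟨k', hk'⟩ : ∃ k' : ℕ, k' = max k k2 := ⟨_, rfl⟩
    have h1 : ∀ m, k' ≤ m → Same v k' m := by
      intro m hm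
      induction m, hm using Nat.le_induction with
      | base => exact hself k' (by rw [hk', hk2]; omega)
      | succ m hm ih => exact hchain k' m ih (hcon m (by rw [hk'] at hm; omega))
    have h2 := hatop.comp (tendsto_add_atTop_nat 1)
    obtain ⟨m, hm1, hm2⟩ := ((h2.eventually_gt_atTop (2 * (a k' + a (k' + 1)))).and
      (eventually_ge_atTop k')).exists
    have h3 := hplane2 k' m (by rw [hk']; omega) hm2 (h1 m hm2)
    have h4 := ha0 (m + 1)
    have hm1' : 2 * (a k' + a (k' + 1)) < a (m + 1) := hm1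
    nlinarith
  -- the basic step
  obtain ⟨A2, hA2⟩ : ∃ A2 : ℝ, A2 = |Real.log (6 * K)| + |Real.log (12 * K)| + 2 := ⟨_, rfl⟩
  have hA20 : 0 ≤ A2 := by rw [hA2]; positivity
  obtain ⟨k3, hk3⟩ : ∃ k3, ∀ k, k3 ≤ k → A2 / δ + A2 ≤ a k :=
    eventually_atTop.1 (hatop.eventually_ge_atTop _)
  obtain ⟨k4, hk4⟩ : ∃ k4 : ℕ, k4 = max k2 k3 := ⟨_, rfl⟩
  have hlog6 : Real.log (6 * K) ≤ A2 - 2 := by
    have h1 := le_abs_self (Real.log (6 * K))
    have h2 := abs_nonneg (Real.log (12 * K))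
    rw [hA2]; linarith
  have hlog12 : Real.log (12 * K) ≤ A2 - 2 := by
    have h1 := le_abs_self (Real.log (12 * K))
    have h2 := abs_nonneg (Real.log (6 * K))
    rw [hA2]; linarith
  have hstep : ∀ i m, k4 ≤ i → i + 1 ≤ m → Same v (i + 1) m →
      D (v i) (v (m + 2)) (W (v (i + 1)) (v (i + 2))) = 0 := by
    rintro i m hi him hsame
    by_contra hne
    obtain ⟨g, g', B, hB, h1, h2⟩ := id hsame
    have hik0 : k0 ≤ i := by rw [hk4, hk2] at hi; omega
    have hik2 : k2 ≤ i := by rw [hk4] at hi; omega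
    have hik3 : k3 ≤ i := by rw [hk4] at hi; omega
    obtain ⟨hg, hρB⟩ := hgfac (i + 1) g B (by omega) h1
    obtain ⟨hg', -⟩ := hgfac m g' B (by omega) h2
    have hD0 : D (v i) (v (m + 2)) B ≠ 0 := by
      intro h0
      apply hne
      rw [show i + 2 = i + 1 + 1 by ring, h1, D_smul, h0, mul_zero]
    have hD1 : (1 : ℝ) ≤ |((D (v i) (v (m + 2)) B : ℤ) : ℝ)| := by
      have : 1 ≤ |D (v i) (v (m + 2)) B| := Int.one_le_abs hD0
      exact_mod_cast this
    rw [← cst_D, D_eq V _ _ _ hD.V0, ← hD.LV, ← hD.LV] at hD1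
    have hBi : ∀ j, |(B j : ℝ)| ≤ 2 * ((x (i + 1) : ℝ) * x (i + 2)) := by
      intro j
      have h3 := hWle (i + 1) j
      rw [h1, Pi.smul_apply, smul_eq_mul, Int.cast_mul, abs_mul] at h3
      have h4 := mul_le_mul_of_nonneg_right hg (abs_nonneg (B j : ℝ))
      have h5 : i + 1 + 1 = i + 2 := by ring
      rw [h5] at h3
      linarith
    obtain ⟨β, hβ⟩ : ∃ β : ℝ, β = 2 * ((x (i + 1) : ℝ) * x (i + 2)) := ⟨_, rfl⟩
    rw [← hβ] at hBi
    have hβ0 : 0 < β := by
      rw [hβ]; have := hx0 (i + 1); have := hx0 (i + 2); positivity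
    obtain ⟨γ, hγ⟩ : ∃ γ : ℝ, γ = 2 * (K * (x (m + 1) : ℝ) ^ (1 - w)) := ⟨_, rfl⟩
    have hγ0 : 0 < γ := by rw [hγ]; have := hx0 (m + 1); positivity
    have hct : ∀ j, |ct V (cst B) j| ≤ γ := by
      intro j
      have e1 : (g' : ℝ) * ct V (cst B) j = L (v m) * v (m + 1) j - L (v (m + 1)) * v m j := by
        have e2 := ct_W V (cst (v m)) (cst (v (m + 1))) j
        rw [cst_W, h2, ← hD.LV, ← hD.LV] at e2
        have e3 : ct V (cst (g' • B)) j = (g' : ℝ) * ct V (cst B) j := by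
          fin_cases j <;> simp [ct, cst] <;> ring
        rw [← e3, e2]
        rfl
      have hxw : (x (m + 1) : ℝ) ^ (-w) * x (m + 1) = (x (m + 1) : ℝ) ^ (1 - w) := by
        rw [show 1 - w = -w + 1 by ring, Real.rpow_add (hx0 _), Real.rpow_one]
      have h3 : |L (v m) * v (m + 1) j - L (v (m + 1)) * v m j| ≤ γ := by
        rw [mul_comm (L (v (m + 1))) _]
        refine (sub_bound _ _ _ _ (K * (x (m + 1) : ℝ) ^ (-w)) (x (m + 1)) (hsm m)
          (hvi (m + 1) j) ((hvi m j).trans (hxm m (m + 1) (by omega)))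
          ((hdec m (m + 1) (by omega)).trans (hsm m))).trans (le_of_eq ?_)
        rw [hγ, ← hxw]
        ring
      rw [← e1, abs_mul] at h3
      have h4 := mul_le_mul_of_nonneg_right hg' (abs_nonneg (ct V (cst B) j))
      linarith
    have hT : ∀ (z : Fin 4 → ℤ) (h : ℝ), (∀ j, |(z j : ℝ)| ≤ h) →
        |T (cst z) (cst B)| ≤ 3 * (h * β) := by
      intro z h hz
      have hh : 0 ≤ h := (abs_nonneg _).trans (hz 0)
      have b1 : |(z 1 : ℝ) * B 5| ≤ h * β := by
        rw [abs_mul]; exact mul_le_mul (hz 1) (hBi 5) (abs_nonneg _) hh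
      have b2 : |(z 2 : ℝ) * B 4| ≤ h * β := by
        rw [abs_mul]; exact mul_le_mul (hz 2) (hBi 4) (abs_nonneg _) hh
      have b3 : |(z 3 : ℝ) * B 3| ≤ h * β := by
        rw [abs_mul]; exact mul_le_mul (hz 3) (hBi 3) (abs_nonneg _) hh
      have b4 := abs_add_le ((z 1 : ℝ) * B 5 - (z 2 : ℝ) * B 4) ((z 3 : ℝ) * B 3)
      have b5 := abs_sub ((z 1 : ℝ) * B 5) ((z 2 : ℝ) * B 4)
      unfold T cst
      linarith
    have hmin : ∀ p q : Fin 4, |(v i p : ℝ) * v (m + 2) q - v i q * v (m + 2) p| ≤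
        2 * ((x i : ℝ) * x (m + 2)) := by
      intro p q
      rw [mul_comm (v i q : ℝ)]
      exact sub_bound _ _ _ _ _ _ (hvi i p) (hvi (m + 2) q) (hvi (m + 2) p) (hvi i q)
    have t1 : |L (v i) * T (cst (v (m + 2))) (cst B)| ≤
        (K * (x (i + 1) : ℝ) ^ (-w)) * (3 * (x (m + 2) * β)) := by
      rw [abs_mul]
      exact mul_le_mul (hsm i) (hT _ _ (hvi (m + 2))) (abs_nonneg _)
        (by have := hx0 (i + 1); positivity)
    have t2 : |L (v (m + 2)) * T (cst (v i)) (cst B)| ≤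
        (K * (x (m + 3) : ℝ) ^ (-w)) * (3 * (x i * β)) := by
      rw [abs_mul]
      exact mul_le_mul (hsm (m + 2)) (hT _ _ (hvi i)) (abs_nonneg _)
        (by have := hx0 (m + 3); positivity)
    have hmc : ∀ p q j : Fin 4, |((v i p : ℝ) * v (m + 2) q - v i q * v (m + 2) p) *
        ct V (cst B) j| ≤ 2 * ((x i : ℝ) * x (m + 2)) * γ := by
      intro p q j
      rw [abs_mul]
      exact mul_le_mul (hmin p q) (hct j) (abs_nonneg _)
        (by have := hx0 i; have := hx0 (m + 2); positivity)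
    have t3 := hmc 1 2 3
    have t4 := hmc 1 3 2
    have t5 := hmc 2 3 1
    -- the three terms
    obtain ⟨X1, hX1⟩ : ∃ X : ℝ, X = (6 * K) * ((x (i + 1) : ℝ) ^ (1 - w) *
      ((x (i + 2) : ℝ) * x (m + 2))) := ⟨_, rfl⟩
    obtain ⟨X2, hX2⟩ : ∃ X : ℝ, X = (6 * K) * ((x (m + 3) : ℝ) ^ (-w) *
      ((x i : ℝ) * ((x (i + 1) : ℝ) * x (i + 2)))) := ⟨_, rfl⟩
    obtain ⟨X3, hX3⟩ : ∃ X : ℝ, X = (12 * K) * ((x (m + 1) : ℝ) ^ (1 - w) *
      ((x i : ℝ) * x (m + 2))) := ⟨_, rfl⟩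
    have p0 := hx0 i
    have p1 := hx0 (i + 1)
    have p2 := hx0 (i + 2)
    have p3 := hx0 (m + 1)
    have p4 := hx0 (m + 2)
    have p5 := hx0 (m + 3)
    have hX10 : 0 < X1 := by rw [hX1]; positivity
    have hX20 : 0 < X2 := by rw [hX2]; positivity
    have hX30 : 0 < X3 := by rw [hX3]; positivity
    have e1 : (K * (x (i + 1) : ℝ) ^ (-w)) * (3 * (x (m + 2) * β)) = X1 := by
      rw [hX1, hβ, show 1 - w = -w + 1 by ring, Real.rpow_add p1, Real.rpow_one]
      ring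
    have e2 : (K * (x (m + 3) : ℝ) ^ (-w)) * (3 * (x i * β)) = X2 := by
      rw [hX2, hβ]
      ring
    have e3 : 3 * (2 * ((x i : ℝ) * x (m + 2)) * γ) = X3 := by
      rw [hX3, hγ]
      ring
    have hsum : (1 : ℝ) ≤ X1 + X2 + X3 := by
      refine hD1.trans ?_
      rw [← e1, ← e2, ← e3]
      refine (abs_add_le _ _).trans ?_
      refine add_le_add ((abs_sub _ _).trans (add_le_add t1 t2)) ?_
      refine (abs_add_le _ _).trans ?_
      have := abs_sub (((v i 1 : ℝ) * v (m + 2) 2 - v i 2 * v (m + 2) 1) * ct V (cst B) 3)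
        (((v i 1 : ℝ) * v (m + 2) 3 - v i 3 * v (m + 2) 1) * ct V (cst B) 2)
      unfold cst at t3 t4 t5 this ⊢
      linarith
    -- logarithms of the terms
    have q1 : y * a (i + 2) ≤ 2 * a (i + 1) := hgrow (i + 1) (by omega)
    have q2 : (y + 2) * a (m + 1) ≤ 2 * (a (i + 1) + a (i + 2)) :=
      hplane2 (i + 1) m (by omega) him hsame
    have q3 : y * a (m + 2) ≤ 2 * a (m + 1) := hgrow (m + 1) (by omega)
    have hbig := hk3 i hik3
    have hbig1 : A2 / δ + A2 ≤ a (i + 1) := hbig.trans (ham i (i + 1) (by omega))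
    have hbig2 : a (i + 1) ≤ a (m + 1) := ham _ _ (by omega)
    have hbig3 : a (m + 1) ≤ a (m + 2) := ham _ _ (by omega)
    have hδA : 0 ≤ A2 / δ := by positivity
    have z1 : Real.log X1 ≤ -2 := by
      rw [hX1, Real.log_mul (x := 6 * K) (by positivity) (by positivity),
        Real.log_mul (x := (x (i + 1) : ℝ) ^ (1 - w)) (by positivity)
        (by positivity), Real.log_mul p2.ne' p4.ne', hxpow, ← hak, ← hak]
      -- `y² (a_{i+2} + a_{m+2}) ≤ (2 y + 4) a_{i+1}`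
      have r1 : y * (y * a (i + 2)) ≤ y * (2 * a (i + 1)) := mul_le_mul_of_nonneg_left q1 hy0.le
      have r2 : (y + 2) * (y * a (m + 2)) ≤ (y + 2) * (2 * a (m + 1)) :=
        mul_le_mul_of_nonneg_left q3 (by linarith)
      have r3 : (y + 2) * (y * (y * a (m + 2))) ≤ (y + 2) * (4 * a (i + 1)) := by
        have r4 : y * ((y + 2) * (y * a (m + 2))) ≤ y * (4 * (a (i + 1) + a (i + 2))) :=
          mul_le_mul_of_nonneg_left (by linarith) hy0.le
        have r5 : y * (4 * (a (i + 1) + a (i + 2))) = 4 * (y * a (i + 1)) + 4 * (y * a (i + 2)) := by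
          ring
        have r6 : (y + 2) * (y * (y * a (m + 2))) = y * ((y + 2) * (y * a (m + 2))) := by ring
        have r7 : (y + 2) * (4 * a (i + 1)) = 4 * (y * a (i + 1)) + 8 * a (i + 1) := by ring
        linarith
      have r8 : y * (y * a (m + 2)) ≤ 4 * a (i + 1) := le_of_mul_le_mul_left r3 (by linarith)
      have r9 : (y * y) * (a (i + 2) + a (m + 2)) ≤ (y * y) * ((y + 2) * a (i + 1)) := by
        have r10 : (y * y) * (a (i + 2) + a (m + 2)) ≤ (2 * y + 4) * a (i + 1) := by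
          have e : (y * y) * (a (i + 2) + a (m + 2)) = y * (y * a (i + 2)) + y * (y * a (m + 2)) := by
            ring
          rw [e]
          linarith
        have r11 : (2 * y + 4) * a (i + 1) ≤ (y * y) * ((y + 2) * a (i + 1)) := by
          have : 0 ≤ (y * y - 2) * ((y + 2) * a (i + 1)) :=
            mul_nonneg (by linarith) (mul_nonneg (by linarith) (ha0 _))
          linarith
        linarith
      have r12 : a (i + 2) + a (m + 2) ≤ (y + 2) * a (i + 1) :=
        le_of_mul_le_mul_left r9 (by positivity)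
      have r13 : (1 - w) * a (i + 1) = -((y + 2) * a (i + 1)) - δ * a (i + 1) := by
        rw [hwy]; ring
      have r14 : A2 ≤ δ * a (i + 1) := by
        have : A2 / δ ≤ a (i + 1) := by linarith
        rw [div_le_iff₀ hδ0] at this
        linarith
      rw [r13]
      linarith
    have z2 : Real.log X2 ≤ -2 := by
      rw [hX2, Real.log_mul (x := 6 * K) (by positivity) (by positivity),
        Real.log_mul (x := (x (m + 3) : ℝ) ^ (-w)) (by positivity)
        (by positivity), Real.log_mul p0.ne' (by positivity), Real.log_mul p1.ne' p2.ne', hxpow,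
        ← hak, ← hak, ← hak]
      have r1 : a i ≤ a (m + 3) := ham _ _ (by omega)
      have r2 : a (i + 1) ≤ a (m + 3) := ham _ _ (by omega)
      have r3 : a (i + 2) ≤ a (m + 3) := ham _ _ (by omega)
      have r4 : -w * a (m + 3) ≤ -4 * a (m + 3) := by
        apply mul_le_mul_of_nonneg_right _ (ha0 _)
        rw [hwy]; linarith
      linarith
    have z3 : Real.log X3 ≤ -2 := by
      rw [hX3, Real.log_mul (x := 12 * K) (by positivity) (by positivity),
        Real.log_mul (x := (x (m + 1) : ℝ) ^ (1 - w)) (by positivity)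
        (by positivity), Real.log_mul p0.ne' p4.ne', hxpow, ← hak, ← hak]
      have r1 : a i ≤ a (m + 1) := ham _ _ (by omega)
      have r2 : a (m + 2) ≤ y * a (m + 1) := by
        have r3 : y * a (m + 2) ≤ y * (y * a (m + 1)) := by
          have : 0 ≤ (y * y - 2) * a (m + 1) := mul_nonneg (by linarith) (ha0 _)
          linarith
        exact le_of_mul_le_mul_left r3 hy0
      have r4 : (1 - w) * a (m + 1) = -(2 * a (m + 1)) - y * a (m + 1) - δ * a (m + 1) := by
        rw [hwy]; ring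
      have r5 : 0 ≤ δ * a (m + 1) := mul_nonneg hδ0.le (ha0 _)
      rw [r4]
      linarith
    have f1 := small_of_log hX10 z1
    have f2 := small_of_log hX20 z2
    have f3 := small_of_log hX30 z3
    linarith
  -- the hyperplane
  obtain ⟨i0, hi0, hind0⟩ := hinf k4
  obtain ⟨N, hN0, hNa, hNb, hNc⟩ := exists_orth (v i0) (v (i0 + 1)) (v (i0 + 2))
  have hdtlin : ∀ (c0 c1 c2 c3 : ℤ) (u1 u2 u3 u4 : Fin 4 → ℤ),
      c0 • u1 + c1 • u2 + c2 • u3 + c3 • u4 = 0 →
      c0 * dt u1 N + c1 * dt u2 N + c2 * dt u3 N + c3 * dt u4 N = 0 := by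
    intro c0 c1 c2 c3 u1 u2 u3 u4 h
    have e : c0 * dt u1 N + c1 * dt u2 N + c2 * dt u3 N + c3 * dt u4 N =
        dt (c0 • u1 + c1 • u2 + c2 • u3 + c3 • u4) N := by
      simp only [dt, Pi.add_apply, Pi.smul_apply, smul_eq_mul]
      ring
    rw [e, h]
    simp [dt]
  have hall : ∀ k, i0 + 1 ≤ k → (∀ m, i0 ≤ m → m ≤ k + 1 → dt (v m) N = 0) ∧
      ∃ i, i0 ≤ i ∧ i + 1 ≤ k ∧ Ind3 (v i) (v (i + 1)) (v (i + 2)) ∧ Same v (i + 1) k := by
    intro k hk
    induction k, hk using Nat.le_induction with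
    | base =>
      refine ⟨?_, i0, le_rfl, le_rfl, hind0, hself (i0 + 1) (by rw [hk4, hk2] at hi0; omega)⟩
      intro m hm1 hm2
      have : m = i0 ∨ m = i0 + 1 ∨ m = i0 + 2 := by omega
      rcases this with h | h | h
      · rw [h]; exact hNa
      · rw [h]; exact hNb
      · rw [h]; exact hNc
    | succ k hk ih =>
      obtain ⟨ih1, i, hi1, hi2, hi3, hi4⟩ := ih
      refine ⟨?_, ?_⟩
      · intro m hm1 hm2
        rcases Nat.lt_or_ge m (k + 2) with h | h
        · exact ih1 m hm1 (by omega)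
        · have hm : m = k + 2 := by omega
          rw [hm]
          have h1 := hstep i k (hi0.trans hi1) hi2 hi4
          obtain ⟨c, hc0, hc⟩ := dep4 _ _ _ _ h1
          have hc1 : c 1 ≠ 0 := by
            intro h0
            rw [h0, zero_smul, add_zero] at hc
            obtain ⟨g1, g2, g3⟩ := hi3 _ _ _ hc
            apply hc0
            funext j
            fin_cases j
            · exact g1
            · exact h0
            · exact g2
            · exact g3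
          have h2 := hdtlin _ _ _ _ _ _ _ _ hc
          rw [ih1 i hi1 (by omega), ih1 (i + 1) (by omega) (by omega),
            ih1 (i + 2) (by omega) (by omega)] at h2
          simp only [mul_zero, zero_add, add_zero] at h2
          exact (mul_eq_zero.1 h2).resolve_left hc1
      · by_cases h : Ind3 (v k) (v (k + 1)) (v (k + 2))
        · exact ⟨k, by omega, le_rfl, h, hself (k + 1) (by rw [hk4, hk2] at hi0; omega)⟩
        · exact ⟨i, hi1, by omega, hi3, hchain _ _ hi4 h⟩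
  have horth : ∀ m, i0 ≤ m → dt (v m) N = 0 := fun m hm =>
    (hall (m + 1) (by omega)).1 m hm (by omega)
  obtain ⟨l0, hl0⟩ := Function.ne_iff.1 hN0
  have hl0' : N l0 ≠ 0 := hl0
  -- the numbers are proportional to integers
  obtain ⟨p, q, hpq⟩ := hD.irr N hN0
  have hkey : ∀ i, i0 ≤ i → Ind3 (v i) (v (i + 1)) (v (i + 2)) →
      |(N p : ℝ) * V q - N q * V p| ≤
        |(N l0 : ℝ)| * ((6 * K) * ((x (i + 1) : ℝ) ^ (1 - w) * x (i + 2))) := by
    intro i hi hind
    obtain ⟨G, hG⟩ : ∃ G : Fin 4 → ℤ, G = C (v i) (v (i + 1)) (v (i + 2)) := ⟨_, rfl⟩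
    have hGl : G l0 ≠ 0 := by
      intro h0
      obtain ⟨E, hE⟩ : ∃ E : Fin 4 → ℤ, E = Pi.single l0 1 := ⟨_, rfl⟩
      have h1 : D (v i) (v (i + 1)) (W (v (i + 2)) E) = 0 := by
        rw [D_W, ← hG, hE]
        have : dt G (Pi.single l0 1) = G l0 := by
          unfold dt
          fin_cases l0 <;> simp
        rw [this, h0]
      obtain ⟨c, hc0, hc⟩ := dep4 _ _ _ _ h1
      have hc1 : c 3 ≠ 0 := by
        intro h0
        rw [h0, zero_smul, add_zero] at hc
        obtain ⟨g1, g2, g3⟩ := hind _ _ _ hc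
        apply hc0
        funext j
        fin_cases j
        · exact g1
        · exact g2
        · exact g3
        · exact h0
      have h2 := hdtlin _ _ _ _ _ _ _ _ hc
      rw [horth i hi, horth (i + 1) (by omega), horth (i + 2) (by omega)] at h2
      simp only [mul_zero, zero_add] at h2
      have h3 := (mul_eq_zero.1 h2).resolve_left hc1
      apply hl0'
      rw [← h3, hE]
      unfold dt
      fin_cases l0 <;> simp
    have hGl1 : (1 : ℝ) ≤ |(G l0 : ℝ)| := by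
      have : 1 ≤ |G l0| := Int.one_le_abs hGl
      exact_mod_cast this
    have hpar : ∀ k l, (G k : ℝ) * N l = G l * N k := by
      intro k l
      have b := C_bound (cst N) (cst (v i)) (cst (v (i + 1))) (cst (v (i + 2)))
        (∑ j, |W (cst (v (i + 1))) (cst (v (i + 2))) j| + ∑ j, |W (cst (v i)) (cst (v (i + 2))) j| +
          ∑ j, |W (cst (v i)) (cst (v (i + 1))) j|) ?_ ?_ ?_ k l
      · rw [cst_dt, cst_dt, cst_dt, horth i hi, horth (i + 1) (by omega),
          horth (i + 2) (by omega), cst_C, ← hG] at b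
        simp only [Int.cast_zero, abs_zero, add_zero, zero_mul] at b
        have b2 := abs_eq_zero.1 (le_antisymm b (abs_nonneg _))
        unfold cst at b2
        linarith
      all_goals
        intro j
        have s1 := Finset.single_le_sum (f := fun j => |W (cst (v (i + 1))) (cst (v (i + 2))) j|)
          (fun j _ => abs_nonneg _) (Finset.mem_univ j)
        have s2 := Finset.single_le_sum (f := fun j => |W (cst (v i)) (cst (v (i + 2))) j|)
          (fun j _ => abs_nonneg _) (Finset.mem_univ j)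
        have s3 := Finset.single_le_sum (f := fun j => |W (cst (v i)) (cst (v (i + 1))) j|)
          (fun j _ => abs_nonneg _) (Finset.mem_univ j)
        have t1 := abs_nonneg (W (cst (v (i + 1))) (cst (v (i + 2))) j)
        have t2 := abs_nonneg (W (cst (v i)) (cst (v (i + 2))) j)
        have t3 := abs_nonneg (W (cst (v i)) (cst (v (i + 1))) j)
        linarith
    have p0 := hx0 i
    have p1 := hx0 (i + 1)
    have p2 := hx0 (i + 2)
    have hWb : ∀ s t, s ≤ t → t ≤ i + 2 → s ≤ i + 1 → ∀ j, |W (cst (v s)) (cst (v t)) j| ≤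
        2 * ((x (i + 1) : ℝ) * x (i + 2)) := by
      intro s t hst ht hs j
      rw [cst_W]
      refine (W_le _ _ j).trans ?_
      have := mul_le_mul ((hvx s).trans (hxm s (i + 1) hs)) ((hvx t).trans (hxm t (i + 2) ht))
        (Nat.cast_nonneg _) p1.le
      linarith
    have b := C_bound V (cst (v i)) (cst (v (i + 1))) (cst (v (i + 2)))
      (2 * ((x (i + 1) : ℝ) * x (i + 2))) (hWb _ _ (by omega) le_rfl le_rfl)
      (hWb _ _ (by omega) le_rfl (by omega)) (hWb _ _ (by omega) (by omega) (by omega)) p q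
    rw [← hD.LV, ← hD.LV, ← hD.LV, cst_C, ← hG] at b
    have l1 := hsm i
    have l2 := (hdec i (i + 1) (by omega)).trans l1
    have l3 := (hdec i (i + 2) (by omega)).trans l1
    have b2 : |(G p : ℝ) * V q - G q * V p| ≤ (6 * K) * ((x (i + 1) : ℝ) ^ (1 - w) * x (i + 2)) := by
      refine b.trans ?_
      have h3 : |L (v i)| + |L (v (i + 1))| + |L (v (i + 2))| ≤ 3 * (K * (x (i + 1) : ℝ) ^ (-w)) := by
        linarith
      refine (mul_le_mul_of_nonneg_right h3 (by positivity)).trans (le_of_eq ?_)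
      rw [show 1 - w = -w + 1 by ring, Real.rpow_add p1, Real.rpow_one]
      ring
    have e : (G l0 : ℝ) * ((N p : ℝ) * V q - N q * V p) =
        (N l0 : ℝ) * ((G p : ℝ) * V q - G q * V p) := by
      have e1 := hpar l0 p
      have e2 := hpar l0 q
      linear_combination V q * e1 - V p * e2
    have h4 : |(G l0 : ℝ)| * |(N p : ℝ) * V q - N q * V p| =
        |(N l0 : ℝ)| * |(G p : ℝ) * V q - G q * V p| := by
      rw [← abs_mul, e, abs_mul]
    have h5 := mul_le_mul_of_nonneg_right hGl1 (abs_nonneg ((N p : ℝ) * V q - N q * V p))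
    have h6 := mul_le_mul_of_nonneg_left b2 (abs_nonneg (N l0 : ℝ))
    linarith
  -- the limit
  have hpos : 0 < |(N p : ℝ) * V q - N q * V p| := abs_pos.2 hpq
  obtain ⟨η, hη⟩ : ∃ η : ℝ, η = |(N p : ℝ) * V q - N q * V p| := ⟨_, rfl⟩
  rw [← hη] at hpos
  have hNl : 0 < |(N l0 : ℝ)| := abs_pos.2 (by exact_mod_cast hl0')
  obtain ⟨A3, hA3⟩ : ∃ A3 : ℝ, A3 = Real.log |(N l0 : ℝ)| + Real.log (6 * K) - Real.log η := ⟨_, rfl⟩
  obtain ⟨k5, hk5⟩ : ∃ k5, ∀ k, k5 ≤ k → A3 + 1 ≤ a k :=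
    eventually_atTop.1 (hatop.eventually_ge_atTop _)
  obtain ⟨i, hi1, hi2⟩ := hinf (max i0 k5)
  have hi3 := hkey i (by omega) hi2
  rw [← hη] at hi3
  have p1 := hx0 (i + 1)
  have p2 := hx0 (i + 2)
  have hlog := Real.log_le_log hpos hi3
  rw [Real.log_mul hNl.ne' (by positivity), Real.log_mul (x := 6 * K) (by positivity)
    (by positivity), Real.log_mul (x := (x (i + 1) : ℝ) ^ (1 - w)) (by positivity) p2.ne', hxpow,
    ← hak] at hlog
  have hg := hgrow (i + 1) (by rw [hk4] at hi0; omega)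
  have hg1 : a (i + 1 + 1) ≤ y * a (i + 1) := by
    have r3 : y * a (i + 1 + 1) ≤ y * (y * a (i + 1)) := by
      have : 0 ≤ (y * y - 2) * a (i + 1) := mul_nonneg (by linarith) (ha0 _)
      linarith
    exact le_of_mul_le_mul_left r3 hy0
  have e5 : i + 1 + 1 = i + 2 := by ring
  rw [e5] at hg1
  have h5 := hk5 (i + 1) (by omega)
  have r4 : (1 - w) * a (i + 1) = -(2 * a (i + 1)) - y * a (i + 1) - δ * a (i + 1) := by
    rw [hwy]; ring
  have r5 : 0 ≤ δ * a (i + 1) := mul_nonneg hδ0.le (ha0 _)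
  have r6 := ha0 (i + 1)
  rw [r4] at hlog
  linarith

end Pool.Agent.N538.MR
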