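import Pool.Agent.N538.MR.TB
import Pool.Agent.W472.AC.EMeas2

/-!
# The measures for powers of `e`
-/

set_option autoImplicit false

namespace Pool.Agent.N538.MR

open Pool.Agent.W472.AC

theorem lin_exp (k : ℕ) (hk : 1 ≤ k) : Lin (Real.exp k) := by
  intro ε hε
  obtain ⟨c, hc, h⟩ := e_meas 1 ![0, (k : ℤ)] (by
    intro i j hij
    fin_cases i <;> fin_cases j <;> simp at hij ⊢ <;> omega) (by simp) (by
    intro i
    fin_cases i <;> simp) ε hε
  refine ⟨c, hc, fun n0 n1 H hn hH h0 h1 => ?_⟩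
  have h2 := h ![n0, n1] (by
    intro h0
    apply hn
    have b0 := congrFun h0 0
    have b1 := congrFun h0 1
    simp at b0 b1
    exact ⟨b0, b1⟩) H hH (by
    intro j
    fin_cases j
    · simpa using h0
    · simpa using h1)
  rw [Fin.sum_univ_two] at h2
  simp only [Matrix.cons_val_zero, Matrix.cons_val_one, Int.cast_zero, Real.exp_zero, mul_one,
    Int.cast_natCast, Nat.cast_one] at h2
  exact h2

theorem tri_exp (k l : ℕ) (hk : 1 ≤ k) (hl : 1 ≤ l) (hkl : k ≠ l) :
    Tri (Real.exp k) (Real.exp l) := by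
  intro ε hε
  obtain ⟨c, hc, h⟩ := e_meas 2 ![0, (k : ℤ), (l : ℤ)] (by
    intro i j hij
    fin_cases i <;> fin_cases j <;> simp at hij ⊢ <;> omega) (by simp) (by
    intro i
    fin_cases i <;> simp) ε hε
  refine ⟨c, hc, fun n0 n1 n2 H hn hH h0 h1 h2 => ?_⟩
  have h3 := h ![n0, n1, n2] (by
    intro h0
    apply hn
    have b0 := congrFun h0 0
    have b1 := congrFun h0 1
    have b2 := congrFun h0 2
    simp at b0 b1 b2
    exact ⟨b0, b1, b2⟩) H hH (by
    intro j
    fin_cases j
    · simpa using h0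
    · simpa using h1
    · simpa using h2)
  rw [Fin.sum_univ_three] at h3
  simp only [Matrix.cons_val, Int.cast_zero, Real.exp_zero, mul_one,
    Int.cast_natCast, Nat.cast_ofNat] at h3
  exact h3

theorem lin_e : Lin (Real.exp 1) := by
  have := lin_exp 1 le_rfl
  simpa using this

theorem tri_e : Tri (Real.exp 1) (Real.exp 1 ^ 2) := by
  have h := tri_exp 1 2 le_rfl (by norm_num) (by norm_num)
  have e : Real.exp ((2 : ℕ) : ℝ) = Real.exp 1 ^ 2 := by
    rw [← Real.exp_nat_mul]
    norm_num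
  rw [e] at h
  simpa using h

end Pool.Agent.N538.MR
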