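import Pool.Agent.N538.MR.TB

/-!
# Two numbers, one of which is near a rational number at every scale
-/

set_option autoImplicit false

namespace Pool.Agent.N538.MR

open Filter Topology

/-- some `1 ≤ q ≤ X` has `q θ` within `δ` of an integer -/
def NearQ (θ X δ : ℝ) : Prop := ∃ q p : ℤ, 1 ≤ q ∧ (q : ℝ) ≤ X ∧ |q * θ - p| ≤ δ

/-- two numbers which are not near rational numbers together -/
def Sep (θ θ' κ ε c : ℝ) : Prop := ∀ q p q' p' : ℤ, 1 ≤ q → 1 ≤ q' →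
  |q * θ - p| ≤ 1 → |q' * θ' - p'| ≤ 1 →
    c ≤ ((q : ℝ) * q') ^ (κ + ε) * (q' * |q * θ - p| + q * |q' * θ' - p'|)

lemma Sep.symm {θ θ' κ ε c : ℝ} (h : Sep θ θ' κ ε c) : Sep θ' θ κ ε c := by
  intro q p q' p' h1 h2 h3 h4
  have := h q' p' q p h2 h1 h4 h3
  rw [mul_comm (q' : ℝ) q, add_comm ((q : ℝ) * _)] at this
  exact this

/-- a best approximation with denominator at most `A` -/
lemma exists_best (θ A : ℝ) (hA : 1 ≤ A) : ∃ q p : ℤ, 1 ≤ q ∧ (q : ℝ) ≤ A ∧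
    ∀ q' p' : ℤ, 1 ≤ q' → (q' : ℝ) ≤ A → |q * θ - p| ≤ |q' * θ - p'| := by
  obtain ⟨S, hS⟩ : ∃ S : Finset ℤ, S = Finset.Icc 1 ⌊A⌋ := ⟨_, rfl⟩
  have hmem : ∀ q : ℤ, q ∈ S ↔ 1 ≤ q ∧ (q : ℝ) ≤ A := fun q => by
    rw [hS, Finset.mem_Icc, Int.le_floor]
  have hne : S.Nonempty := ⟨1, (hmem 1).2 ⟨le_rfl, by simpa using hA⟩⟩
  obtain ⟨q, hq, hmin⟩ := Finset.exists_min_image S (fun q => |(q : ℝ) * θ - round ((q : ℝ) * θ)|) hne
  obtain ⟨hq1, hq2⟩ := (hmem q).1 hq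
  refine ⟨q, round ((q : ℝ) * θ), hq1, hq2, fun q' p' h1 h2 => ?_⟩
  exact (hmin q' ((hmem q').2 ⟨h1, h2⟩)).trans (round_le _ _)

/-- the range of a best approximation -/
structure Best (θ w A : ℝ) (q p : ℤ) (E : ℝ) : Prop where
  one : 1 ≤ q
  le : (q : ℝ) ≤ A
  min : ∀ q' p' : ℤ, 1 ≤ q' → (q' : ℝ) ≤ A → |q * θ - p| ≤ |q' * θ - p'|
  val : |q * θ - p| = E ^ (-w)
  AE : A ≤ E

/-- a best approximation at a near scale -/
lemma exists_range {θ w A : ℝ} (hw : 0 < w) (hA : 1 ≤ A) (hn : NearQ θ A (A ^ (-w)))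
    (hirr : ∀ q p : ℤ, 1 ≤ q → (q : ℝ) ≤ A → |q * θ - p| ≠ 0) :
    ∃ (q p : ℤ) (E : ℝ), Best θ w A q p E := by
  obtain ⟨q, p, hq1, hqA, hmin⟩ := exists_best θ A hA
  obtain ⟨q', p', h1, h2, h3⟩ := hn
  have hpos : 0 < |q * θ - p| := lt_of_le_of_ne (abs_nonneg _) (hirr q p hq1 hqA).symm
  refine ⟨q, p, |q * θ - p| ^ (-(1 / w)), hq1, hqA, hmin, ?_, ?_⟩
  · rw [← Real.rpow_mul hpos.le]
    rw [show -(1 / w) * -w = 1 by field_simp, Real.rpow_one]
  · have h4 := (hmin q' p' h1 h2).trans h3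
    have h5 : (A ^ (-w)) ^ (-(1 / w)) ≤ |q * θ - p| ^ (-(1 / w)) :=
      Real.rpow_le_rpow_of_nonpos hpos h4 (by
        have : 0 < 1 / w := by positivity
        linarith)
    rw [← Real.rpow_mul (by linarith)] at h5
    rw [show -w * -(1 / w) = 1 by field_simp, Real.rpow_one] at h5
    exact h5

/-- after the range there is a gap -/
lemma gap {θ w A E X : ℝ} {q p : ℤ} (hw : 0 < w) (h : Best θ w A q p E) (hA : 1 ≤ A) (hX : E < X)
    (hn : NearQ θ X (X ^ (-w))) : E ^ w ≤ 2 * X := by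
  obtain ⟨q', p', h1, h2, h3⟩ := hn
  have hE1 : 1 ≤ E := hA.trans h.AE
  have hE0 : 0 < E := by linarith
  have hX0 : 0 < X := by linarith
  have hlt : X ^ (-w) < E ^ (-w) := Real.rpow_lt_rpow_of_neg hE0 hX (by linarith)
  have hqE : (q : ℝ) ≤ E := h.le.trans h.AE
  have hq0 : (0 : ℝ) < q := by
    have : 0 < q := h.one
    exact_mod_cast this
  have hq0' : (0 : ℝ) < q' := by
    have : 0 < q' := h1
    exact_mod_cast this
  have e : ((q * p' - q' * p : ℤ) : ℝ) = q' * (q * θ - p) - q * (q' * θ - p') := by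
    push_cast; ring
  have hEw : 0 < E ^ (-w) := by positivity
  by_cases hD : q * p' - q' * p = 0
  · exfalso
    rw [hD, Int.cast_zero] at e
    have e2 : (q : ℝ) * |q' * θ - p'| = q' * |q * θ - p| := by
      have h5 : (q : ℝ) * (q' * θ - p') = q' * (q * θ - p) := by linarith
      rw [← abs_of_pos hq0, ← abs_of_pos hq0', ← abs_mul, ← abs_mul, abs_of_pos hq0,
        abs_of_pos hq0', h5]
    rw [h.val] at e2
    have h6 : (q' : ℝ) * E ^ (-w) < q * E ^ (-w) := by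
      rw [← e2]
      exact mul_lt_mul_of_pos_left (h3.trans_lt hlt) hq0
    have h7 : (q' : ℝ) < q := lt_of_mul_lt_mul_right h6 hEw.le
    have h8 := h.min q' p' h1 (by linarith [h.le])
    rw [h.val] at h8
    linarith
  · have h4 : (1 : ℝ) ≤ |((q * p' - q' * p : ℤ) : ℝ)| := by
      have : 1 ≤ |q * p' - q' * p| := Int.one_le_abs hD
      exact_mod_cast this
    rw [e] at h4
    have h5 : |(q' : ℝ) * (q * θ - p) - q * (q' * θ - p')| ≤ X * E ^ (-w) + X * E ^ (-w) := by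
      refine (abs_sub _ _).trans ?_
      rw [abs_mul, abs_mul, abs_of_pos hq0, abs_of_pos hq0', h.val]
      exact add_le_add (mul_le_mul_of_nonneg_right h2 hEw.le)
        (mul_le_mul (hqE.trans hX.le) (h3.trans hlt.le) (abs_nonneg _) hX0.le)
    have h6 : 1 ≤ 2 * X * E ^ (-w) := by linarith
    have h7 : E ^ (-w) * E ^ w = 1 := by
      rw [← Real.rpow_add hE0, neg_add_cancel, Real.rpow_zero]
    have h8 := mul_le_mul_of_nonneg_right h6 (show 0 ≤ E ^ w by positivity)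
    calc E ^ w = 1 * E ^ w := (one_mul _).symm
      _ ≤ 2 * X * E ^ (-w) * E ^ w := h8
      _ = 2 * X * (E ^ (-w) * E ^ w) := by ring
      _ = 2 * X := by rw [h7, mul_one]

/-- the other number takes over -/
lemma handover {θ θ' w w' A E Y Z : ℝ} {q p : ℤ} (hw : 1 < w) (hw' : 1 < w') (hA : 1 ≤ A)
    (h : Best θ w A q p E) (hbig : 8 < E ^ (w - 1)) (hbig' : 8 < E ^ (w' - 1))
    (hYA : Y ≤ A) (hZ : 2 * E ≤ Z)
    (hU : ∀ X : ℝ, Y ≤ X → X ≤ Z → NearQ θ X (X ^ (-w)) ∨ NearQ θ' X (X ^ (-w')))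
    (hirr : ∀ q p : ℤ, 1 ≤ q → (q : ℝ) ≤ 2 * E → |q * θ' - p| ≠ 0) :
    ∃ (q' p' : ℤ) (E' : ℝ), Best θ' w' (2 * E) q' p' E' ∧ min (E ^ w / 2) Z ≤ E' := by
  have hE1 : 1 ≤ E := hA.trans h.AE
  have hE0 : 0 < E := by linarith
  have hEw : E ^ w = E ^ (w - 1) * E := by
    rw [show E ^ w = E ^ ((w - 1) + 1) by congr 1; ring, Real.rpow_add hE0, Real.rpow_one]
  have hEw4 : 8 * E < E ^ w := by rw [hEw]; exact mul_lt_mul_of_pos_right hbig hE0
  have hnot : ∀ X, E < X → X < E ^ w / 2 → ¬ NearQ θ X (X ^ (-w)) := by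
    intro X h1 h2 h3
    have := gap (by linarith) h hA h1 h3
    linarith
  have hn : NearQ θ' (2 * E) ((2 * E) ^ (-w')) := by
    rcases hU (2 * E) (by linarith [h.AE]) hZ with h1 | h1
    · exact absurd h1 (hnot _ (by linarith) (by linarith))
    · exact h1
  obtain ⟨q', p', E', h'⟩ := exists_range (by linarith) (by linarith) hn hirr
  refine ⟨q', p', E', h', ?_⟩
  by_contra hlt
  push Not at hlt
  have hE'E : 2 * E ≤ E' := h'.AE
  have hE'0 : 0 < E' := by linarith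
  have hbig2 : 8 * E' < E' ^ w' := by
    have h1 : E ^ (w' - 1) ≤ E' ^ (w' - 1) :=
      Real.rpow_le_rpow hE0.le (by linarith) (by linarith)
    have h2 : E' ^ w' = E' ^ (w' - 1) * E' := by
      rw [show E' ^ w' = E' ^ ((w' - 1) + 1) by congr 1; ring, Real.rpow_add hE'0, Real.rpow_one]
    rw [h2]
    exact mul_lt_mul_of_pos_right (by linarith) hE'0
  obtain ⟨X, hX1, hX2⟩ : ∃ X, E' < X ∧ X < min (min (E ^ w / 2) Z) (E' ^ w' / 2) := by
    apply exists_between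
    exact lt_min hlt (by linarith)
  have hX3 : X < E ^ w / 2 := hX2.trans_le ((min_le_left _ _).trans (min_le_left _ _))
  have hX4 : X < Z := hX2.trans_le ((min_le_left _ _).trans (min_le_right _ _))
  have hX5 : X < E' ^ w' / 2 := hX2.trans_le (min_le_right _ _)
  rcases hU X (by linarith [h.AE]) hX4.le with h1 | h1
  · exact hnot X (by linarith) hX3 h1
  · have := gap (by linarith) h' (by linarith) hX1 h1
    linarith

/-- **the asymmetric theorem for two numbers** -/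
theorem pairAsym {θ θ' κ w w' : ℝ} (hκ : 0 < κ) (hw : 1 < w) (hw' : 1 < w')
    (hww : κ < w * (w' - 1 - κ)) (hsep : ∀ ε : ℝ, 0 < ε → ∃ c : ℝ, 0 < c ∧ Sep θ θ' κ ε c)
    (hθ : Irrational θ) (hθ' : Irrational θ') (Y : ℝ) :
    ∃ X : ℝ, Y ≤ X ∧ ¬ NearQ θ X (X ^ (-w)) ∧ ¬ NearQ θ' X (X ^ (-w')) := by
  by_contra hcon
  push Not at hcon
  have hU : ∀ X : ℝ, Y ≤ X → NearQ θ X (X ^ (-w)) ∨ NearQ θ' X (X ^ (-w')) := by
    intro X hX
    by_cases h : NearQ θ X (X ^ (-w))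
    · exact Or.inl h
    · exact Or.inr (hcon X hX h)
  have hirr : ∀ q p : ℤ, 1 ≤ q → |q * θ - p| ≠ 0 := by
    intro q p hq h
    have h1 := abs_eq_zero.1 h
    have hq0 : (q : ℝ) ≠ 0 := by
      have : q ≠ 0 := by omega
      exact_mod_cast this
    apply hθ
    refine ⟨(p : ℚ) / q, ?_⟩
    push_cast
    rw [div_eq_iff hq0]
    linarith
  have hirr' : ∀ q p : ℤ, 1 ≤ q → |q * θ' - p| ≠ 0 := by
    intro q p hq h
    have h1 := abs_eq_zero.1 h
    have hq0 : (q : ℝ) ≠ 0 := by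
      have : q ≠ 0 := by omega
      exact_mod_cast this
    apply hθ'
    refine ⟨(p : ℚ) / q, ?_⟩
    push_cast
    rw [div_eq_iff hq0]
    linarith
  have hw0 : 0 < w := by linarith
  -- the choice of `ε`
  have hexp : 0 < w' - 1 - κ * (1 + 1 / w) := by
    have h1 : κ / w < w' - 1 - κ := by rw [div_lt_iff₀ hw0]; linarith
    have h2 : κ * (1 + 1 / w) = κ + κ / w := by ring
    rw [h2]; linarith
  obtain ⟨ε, hε⟩ : ∃ ε : ℝ, ε = (w' - 1 - κ * (1 + 1 / w)) / 4 := ⟨_, rfl⟩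
  have hε0 : 0 < ε := by rw [hε]; linarith
  obtain ⟨c, hc0, hc⟩ := hsep ε hε0
  have hinv : 1 / w ≤ 1 := by rw [div_le_one hw0]; linarith
  have hinv0 : 0 < 1 / w := by positivity
  -- the final constant
  obtain ⟨C, hC⟩ : ∃ C : ℝ, C = (8 : ℝ) ^ (κ + ε) * (4 * 2 ^ w + 2) := ⟨_, rfl⟩
  have hC0 : 0 < C := by rw [hC]; positivity
  have hlim : Tendsto (fun z : ℝ => C * z ^ (-(2 * ε))) atTop (𝓝 0) := by
    have h3 := (tendsto_rpow_neg_atTop (show (0 : ℝ) < 2 * ε by linarith)).const_mul C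
    rw [mul_zero] at h3
    exact h3
  have hl1 : Tendsto (fun z : ℝ => z ^ (w - 1)) atTop atTop := tendsto_rpow_atTop (by linarith)
  have hl2 : Tendsto (fun z : ℝ => z ^ (w' - 1)) atTop atTop := tendsto_rpow_atTop (by linarith)
  obtain ⟨E0, hE0⟩ := eventually_atTop.1 ((hlim.eventually_lt_const hc0).and
    ((hl1.eventually_gt_atTop 8).and (hl2.eventually_gt_atTop 8)))
  -- a scale at which the first number is near
  obtain ⟨A0, hA0⟩ : ∃ A0 : ℝ, A0 = max (max Y 1) E0 := ⟨_, rfl⟩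
  have hA0Y : Y ≤ A0 := by rw [hA0]; exact (le_max_left _ _).trans (le_max_left _ _)
  have hA01 : 1 ≤ A0 := by rw [hA0]; exact (le_max_right _ _).trans (le_max_left _ _)
  have hA0E : E0 ≤ A0 := by rw [hA0]; exact le_max_right _ _
  obtain ⟨A, hAA0, hA⟩ : ∃ A, A0 ≤ A ∧ NearQ θ A (A ^ (-w)) := by
    rcases hU A0 hA0Y with h | h
    · exact ⟨A0, le_rfl, h⟩
    · obtain ⟨q, p, E, hB⟩ := exists_range (by linarith) hA01 h (fun q p h1 _ => hirr' q p h1)
      have hEA := hB.AE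
      have hEpos : 0 < E := by linarith
      have h1 := (hE0 E (hA0E.trans hEA)).2.2
      have h2 : E ^ w' = E ^ (w' - 1) * E := by
        rw [show E ^ w' = E ^ ((w' - 1) + 1) by congr 1; ring, Real.rpow_add hEpos, Real.rpow_one]
      have h3 : 8 * E < E ^ w' := by rw [h2]; exact mul_lt_mul_of_pos_right h1 hEpos
      refine ⟨E ^ w' / 3, by linarith, ?_⟩
      rcases hU (E ^ w' / 3) (by linarith) with h4 | h4
      · exact h4
      · exfalso
        have := gap (by linarith) hB hA01 (show E < E ^ w' / 3 by linarith) h4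
        linarith
  have hA1 : 1 ≤ A := hA01.trans hAA0
  have hYA : Y ≤ A := hA0Y.trans hAA0
  have hEA : E0 ≤ A := hA0E.trans hAA0
  obtain ⟨q1, p1, E1, hB1⟩ := exists_range hw0 hA1 hA (fun q p h1 _ => hirr q p h1)
  have hE1 : A ≤ E1 := hB1.AE
  obtain ⟨q2, p2, E2, hB2, hE2⟩ := handover (Z := max (2 * E1) (E1 ^ w / 2)) hw hw' hA1 hB1
    (hE0 E1 (hEA.trans hE1)).2.1 (hE0 E1 (hEA.trans hE1)).2.2 hYA (le_max_left _ _)
    (fun X h1 _ => hU X h1) (fun q p h1 _ => hirr' q p h1)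
  rw [min_eq_left (le_max_right _ _)] at hE2
  have hE12 : 2 * E1 ≤ E2 := hB2.AE
  have hE10 : 0 < E1 := by linarith
  have hE20 : 0 < E2 := by linarith
  have hE2E : E0 ≤ E2 := by linarith
  obtain ⟨q3, p3, E3, hB3, hE3⟩ := handover (Z := max (2 * E2) (E2 ^ w' / 2)) hw' hw (by linarith) hB2
    (hE0 E2 hE2E).2.2 (hE0 E2 hE2E).2.1 (Y := Y) (by linarith) (le_max_left _ _)
    (fun X h1 _ => (hU X h1).symm) (fun q p h1 _ => hirr q p h1)
  rw [min_eq_left (le_max_right _ _)] at hE3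
  have hE23 : 2 * E2 ≤ E3 := hB3.AE
  have hE30 : 0 < E3 := by linarith
  -- the sizes
  have hle1 : ∀ E v : ℝ, 1 ≤ E → 0 < v → E ^ (-v) ≤ 1 := fun E v h1 h2 =>
    Real.rpow_le_one_of_one_le_of_nonpos h1 (by linarith)
  have hkey := hc q3 p3 q2 p2 hB3.one hB2.one
    (by rw [hB3.val]; exact hle1 _ _ (by linarith) hw0)
    (by rw [hB2.val]; exact hle1 _ _ (by linarith) (by linarith))
  rw [hB3.val, hB2.val] at hkey
  have hq2 : (q2 : ℝ) ≤ 2 * E1 := hB2.le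
  have hq3 : (q3 : ℝ) ≤ 2 * E2 := hB3.le
  have hq20 : (0 : ℝ) < q2 := by
    have : 0 < q2 := hB2.one
    exact_mod_cast this
  have hq30 : (0 : ℝ) < q3 := by
    have : 0 < q3 := hB3.one
    exact_mod_cast this
  have hE1w : E1 ≤ 2 * E2 ^ (1 / w) := by
    have h1 : E1 ^ w ≤ 2 * E2 := by linarith
    have h2 : (E1 ^ w) ^ (1 / w) ≤ (2 * E2) ^ (1 / w) :=
      Real.rpow_le_rpow (by positivity) h1 hinv0.le
    rw [← Real.rpow_mul hE10.le, show w * (1 / w) = 1 by field_simp, Real.rpow_one,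
      Real.mul_rpow (by norm_num) hE20.le] at h2
    have h3 : (2 : ℝ) ^ (1 / w) ≤ 2 := by
      calc (2 : ℝ) ^ (1 / w) ≤ 2 ^ (1 : ℝ) :=
            Real.rpow_le_rpow_of_exponent_le (by norm_num) hinv
        _ = 2 := Real.rpow_one 2
    exact h2.trans (mul_le_mul_of_nonneg_right h3 (by positivity))
  have hE21 : 1 ≤ E2 := by linarith
  have hprod : (q3 : ℝ) * q2 ≤ 8 * E2 ^ (1 + 1 / w) := by
    have h1 : (q3 : ℝ) * q2 ≤ 2 * E2 * (2 * (2 * E2 ^ (1 / w))) :=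
      mul_le_mul hq3 (hq2.trans (by linarith)) hq20.le (by linarith)
    refine h1.trans (le_of_eq ?_)
    rw [Real.rpow_add hE20, Real.rpow_one]
    ring
  have hE3w : E3 ^ (-w) ≤ 2 ^ w * E2 ^ (-w') := by
    have h1 : E3 ^ (-w) ≤ (E2 ^ w' / 2) ^ (-w) :=
      Real.rpow_le_rpow_of_nonpos (by positivity) hE3 (by linarith)
    refine h1.trans ?_
    rw [Real.div_rpow (by positivity) (by norm_num), ← Real.rpow_mul hE20.le,
      Real.rpow_neg (by norm_num : (0:ℝ) ≤ 2), div_inv_eq_mul, mul_comm]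
    apply mul_le_mul_of_nonneg_left _ (by positivity)
    apply Real.rpow_le_rpow_of_exponent_le hE21
    nlinarith
  have hsum : (q2 : ℝ) * E3 ^ (-w) + q3 * E2 ^ (-w') ≤ (4 * 2 ^ w + 2) * E2 ^ (1 - w') := by
    have h1 : (q2 : ℝ) ≤ 4 * E2 := by linarith
    have e : E2 ^ (1 - w') = E2 * E2 ^ (-w') := by
      rw [show 1 - w' = 1 + -w' by ring, Real.rpow_add hE20, Real.rpow_one]
    have h2 : (q2 : ℝ) * E3 ^ (-w) ≤ 4 * E2 * (2 ^ w * E2 ^ (-w')) :=
      mul_le_mul h1 hE3w (by positivity) (by positivity)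
    have h3 : (q3 : ℝ) * E2 ^ (-w') ≤ 2 * E2 * E2 ^ (-w') :=
      mul_le_mul_of_nonneg_right hq3 (by positivity)
    rw [e]
    linarith
  have hfin : c ≤ C * E2 ^ (-(2 * ε)) := by
    have h1 : ((q3 : ℝ) * q2) ^ (κ + ε) ≤ (8 * E2 ^ (1 + 1 / w)) ^ (κ + ε) :=
      Real.rpow_le_rpow (by positivity) hprod (by linarith)
    have h2 := hkey.trans (mul_le_mul h1 hsum (by positivity) (by positivity))
    refine h2.trans ?_
    rw [Real.mul_rpow (by norm_num) (by positivity), ← Real.rpow_mul hE20.le, hC]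
    have e : (8 : ℝ) ^ (κ + ε) * E2 ^ ((1 + 1 / w) * (κ + ε)) *
        ((4 * 2 ^ w + 2) * E2 ^ (1 - w')) = (8 : ℝ) ^ (κ + ε) * (4 * 2 ^ w + 2) *
        E2 ^ ((1 + 1 / w) * (κ + ε) + (1 - w')) := by
      rw [Real.rpow_add hE20]
      ring
    rw [e]
    apply mul_le_mul_of_nonneg_left _ (by positivity)
    apply Real.rpow_le_rpow_of_exponent_le hE21
    have h3 : (1 + 1 / w) * ε ≤ 2 * ε := mul_le_mul_of_nonneg_right (by linarith) hε0.le
    have h4 : w' - 1 - κ * (1 + 1 / w) = 4 * ε := by rw [hε]; ring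
    linarith
  have := (hE0 E2 hE2E).1
  linarith

end Pool.Agent.N538.MR
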