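import Pool.Agent.N538.MR.Pair

/-!
# Two numbers, one of which is near a rational number at every scale of an interval
-/

set_option autoImplicit false

namespace Pool.Agent.N538.MR

open Filter Topology

/-- after the range the first number is not near, so the second one is -/
lemma other {θ θ' w w' A E Y Z X : ℝ} {q p : ℤ} (hw : 1 < w) (hA : 1 ≤ A)
    (h : Best θ w A q p E) (hYA : Y ≤ A) (hEX : E < X) (hX : X < E ^ w / 2) (hXZ : X ≤ Z)
    (hU : ∀ X : ℝ, Y ≤ X → X ≤ Z → NearQ θ X (X ^ (-w)) ∨ NearQ θ' X (X ^ (-w'))) :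
    NearQ θ' X (X ^ (-w')) := by
  rcases hU X (by linarith [h.AE]) hXZ with h1 | h1
  · have := gap (by linarith) h hA hEX h1
    linarith
  · exact h1

/-- a vector which is as near as required, or the range of a best approximation ends before `Z` -/
lemma range_or {θ w A Z : ℝ} (hw : 0 < w) (hA : 1 ≤ A) (hAZ : A ≤ Z) (hn : NearQ θ A (A ^ (-w))) :
    NearQ θ A (Z ^ (-w)) ∨ ∃ (q p : ℤ) (E : ℝ), Best θ w A q p E ∧ E < Z := by
  obtain ⟨q, p, hq1, hqA, hmin⟩ := exists_best θ A hA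
  by_cases hle : |q * θ - p| ≤ Z ^ (-w)
  · exact Or.inl ⟨q, p, hq1, hqA, hle⟩
  · right
    push Not at hle
    have hZ0 : 0 < Z := by linarith
    have hpos : 0 < |q * θ - p| := lt_trans (by positivity) hle
    obtain ⟨q', p', E, hB⟩ := exists_range hw hA hn (fun q' p' h1 h2 h3 => by
      have := hmin q' p' h1 h2
      rw [h3] at this
      linarith)
    refine ⟨q', p', E, hB, ?_⟩
    have h1 := hmin q' p' hB.one hB.le
    rw [hB.val] at h1
    by_contra h2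
    push Not at h2
    have h3 : E ^ (-w) ≤ Z ^ (-w) := Real.rpow_le_rpow_of_nonpos hZ0 h2 (by linarith)
    linarith

/-- the symmetric theorem on an interval, when the first number is near at `Y` -/
theorem pairLoc1 {κ w κ' : ℝ} (hκ : 0 < κ) (hw : 1 + κ < w) (hww : κ < w * (w - 1 - κ))
    (hκ1 : 1 ≤ κ') (hκ' : κ < κ' * (w - 1 - κ)) :
    ∃ ε : ℝ, 0 < ε ∧ ∀ c : ℝ, 0 < c → ∃ Y0 : ℝ, 1 ≤ Y0 ∧ ∀ θ θ' : ℝ, Sep θ θ' κ ε c →
      ∀ Y Z : ℝ, Y0 ≤ Y → Y ≤ Z →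
      (∀ X : ℝ, Y ≤ X → X ≤ Z → NearQ θ X (X ^ (-w)) ∨ NearQ θ' X (X ^ (-w))) →
      NearQ θ Y (Y ^ (-w)) → NearQ θ (Y ^ κ') (Z ^ (-w)) ∨ NearQ θ' (Y ^ κ') (Z ^ (-w)) := by
  have hw1 : 1 < w := by linarith
  have hw0 : 0 < w := by linarith
  have hd : 0 < w - 1 - κ := by linarith
  obtain ⟨β, hβ⟩ : ∃ β : ℝ, β = w - 1 - κ := ⟨_, rfl⟩
  rw [← hβ] at hww hκ' hd
  -- the choice of `ε`
  obtain ⟨ε, hε0, hε1, hε2⟩ : ∃ ε : ℝ, 0 < ε ∧ (κ + 2 * ε) ≤ w * (β - 2 * ε) ∧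
      (κ + 2 * ε) ≤ κ' * (β - 2 * ε) := by
    refine ⟨min ((w * β - κ) / (2 + 2 * w)) ((κ' * β - κ) / (2 + 2 * κ')), ?_, ?_, ?_⟩
    · exact lt_min (div_pos (by linarith) (by linarith)) (div_pos (by linarith) (by linarith))
    · have h := min_le_left ((w * β - κ) / (2 + 2 * w)) ((κ' * β - κ) / (2 + 2 * κ'))
      rw [le_div_iff₀ (by linarith)] at h
      linarith
    · have h := min_le_right ((w * β - κ) / (2 + 2 * w)) ((κ' * β - κ) / (2 + 2 * κ'))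
      rw [le_div_iff₀ (by linarith)] at h
      linarith
  have hβε : 0 < β - 2 * ε := by
    by_contra hcon
    push Not at hcon
    nlinarith
  refine ⟨ε, hε0, fun c hc0 => ?_⟩
  obtain ⟨C, hC⟩ : ∃ C : ℝ, C = (4 : ℝ) ^ (κ + ε) * 4 := ⟨_, rfl⟩
  have hC0 : 0 < C := by rw [hC]; positivity
  have hl0 : Tendsto (fun z : ℝ => z ^ ε) atTop atTop := tendsto_rpow_atTop hε0
  have hl1 : Tendsto (fun z : ℝ => z ^ (w - 1)) atTop atTop := tendsto_rpow_atTop (by linarith)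
  obtain ⟨E0, hE0⟩ := eventually_atTop.1 ((hl0.eventually_gt_atTop (C / c)).and
    ((hl1.eventually_gt_atTop 8).and (hl0.eventually_gt_atTop (2 ^ (β - 2 * ε)))))
  refine ⟨max 1 E0, le_max_left _ _, fun θ θ' hsep Y Z hY hYZ hU hnear => ?_⟩
  have hY1 : 1 ≤ Y := (le_max_left _ _).trans hY
  have hYE : E0 ≤ Y := (le_max_right _ _).trans hY
  have hY0 : 0 < Y := by linarith
  have hYκ : Y ≤ Y ^ κ' := by
    calc Y = Y ^ (1 : ℝ) := (Real.rpow_one Y).symm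
      _ ≤ Y ^ κ' := Real.rpow_le_rpow_of_exponent_le hY1 hκ1
  have hmono : ∀ (η H H' δ : ℝ), H ≤ H' → NearQ η H δ → NearQ η H' δ := by
    rintro η H H' δ h ⟨q, p, h1, h2, h3⟩
    exact ⟨q, p, h1, h2.trans h, h3⟩
  rcases range_or hw0 hY1 hYZ hnear with h | ⟨q1, p1, E1, hB1, hE1Z⟩
  · exact Or.inl (hmono _ _ _ _ hYκ h)
  have hE1 : Y ≤ E1 := hB1.AE
  have hE10 : 0 < E1 := by linarith
  have hE11 : 1 ≤ E1 := by linarith
  have hgapE : ∀ E : ℝ, Y ≤ E → 8 * E < E ^ w := by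
    intro E hE
    have h1 := (hE0 E (hYE.trans hE)).2.1
    have h2 : E ^ w = E ^ (w - 1) * E := by
      rw [show E ^ w = E ^ ((w - 1) + 1) by congr 1; ring,
        Real.rpow_add (by linarith), Real.rpow_one]
    rw [h2]; exact mul_lt_mul_of_pos_right h1 (by linarith)
  have hle1 : ∀ E : ℝ, 1 ≤ E → E ^ (-w) ≤ 1 := fun E h1 =>
    Real.rpow_le_one_of_one_le_of_nonpos h1 (by linarith)
  -- the basic inequality
  have hbasic : ∀ (q p q' p' : ℤ) (R E : ℝ), 1 ≤ q → 1 ≤ q' → 1 ≤ R → R ≤ E → (q : ℝ) ≤ R →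
      (q' : ℝ) ≤ 2 * E → |q * θ - p| ≤ E ^ (-w) → |q' * θ' - p'| ≤ E ^ (-w) →
      c ≤ C * (R ^ (κ + ε) * E ^ (-(β - ε))) := by
    intro q p q' p' R E h1 h2 hR hRE h3 h4 h5 h6
    have hEpos : 0 < E := by linarith
    have hq0 : (0 : ℝ) < q := by
      have : 0 < q := h1
      exact_mod_cast this
    have hq0' : (0 : ℝ) < q' := by
      have : 0 < q' := h2
      exact_mod_cast this
    have hk := hsep q p q' p' h1 h2 (h5.trans (hle1 E (by linarith)))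
      (h6.trans (hle1 E (by linarith)))
    have h7 : ((q : ℝ) * q') ^ (κ + ε) ≤ (R * (2 * E)) ^ (κ + ε) :=
      Real.rpow_le_rpow (by positivity) (mul_le_mul h3 h4 hq0'.le (by linarith)) (by linarith)
    have h8 : (q' : ℝ) * |q * θ - p| + q * |q' * θ' - p'| ≤ 2 * E * E ^ (-w) + 2 * E * E ^ (-w) :=
      add_le_add (mul_le_mul h4 h5 (abs_nonneg _) (by linarith))
        (mul_le_mul (by linarith) h6 (abs_nonneg _) (by linarith))
    have h9 := hk.trans (mul_le_mul h7 h8 (by positivity) (by positivity))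
    refine h9.trans ?_
    rw [Real.mul_rpow (by linarith) (by linarith), Real.mul_rpow (by norm_num) (by linarith), hC]
    have e : E ^ (-(β - ε)) = E ^ (κ + ε) * E * E ^ (-w) := by
      rw [show -(β - ε) = (κ + ε) + 1 + -w by rw [hβ]; ring, Real.rpow_add hEpos,
        Real.rpow_add hEpos, Real.rpow_one]
    rw [e]
    have h10 : (2 : ℝ) ^ (κ + ε) ≤ 4 ^ (κ + ε) :=
      Real.rpow_le_rpow (by norm_num) (by norm_num) (by linarith)
    have h11 := mul_le_mul_of_nonneg_right h10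
      (show 0 ≤ R ^ (κ + ε) * E ^ (κ + ε) * (4 * (E * E ^ (-w))) by positivity)
    calc R ^ (κ + ε) * (2 ^ (κ + ε) * E ^ (κ + ε)) * (2 * E * E ^ (-w) + 2 * E * E ^ (-w)) =
          2 ^ (κ + ε) * (R ^ (κ + ε) * E ^ (κ + ε) * (4 * (E * E ^ (-w)))) := by ring
      _ ≤ 4 ^ (κ + ε) * (R ^ (κ + ε) * E ^ (κ + ε) * (4 * (E * E ^ (-w)))) := h11
      _ = 4 ^ (κ + ε) * 4 * (R ^ (κ + ε) * (E ^ (κ + ε) * E * E ^ (-w))) := by ring
  -- the second number is near after `E1`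
  have hsecond : ∀ X : ℝ, E1 < X → X ≤ 2 * E1 → X ≤ Z → NearQ θ' X (X ^ (-w)) := fun X h1 h2 h3 =>
    other hw1 hY1 hB1 le_rfl h1 (by have := hgapE E1 hE1; linarith) h3 hU
  -- the size of `E1`
  have hE1size : ∀ X : ℝ, E1 < X → X ≤ 2 * E1 → X ≤ Z → 2 * E1 ≤ Y ^ κ' := by
    intro X h1 h2 h3
    obtain ⟨q, p, g1, g2, g3⟩ := hsecond X h1 h2 h3
    have g4 : X ^ (-w) ≤ E1 ^ (-w) := Real.rpow_le_rpow_of_nonpos hE10 h1.le (by linarith)
    have hk := hbasic q1 p1 q p Y E1 hB1.one g1 hY1 hE1 hB1.le (g2.trans h2) hB1.val.le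
      (g3.trans g4)
    -- `E1 ^ (β - 2 ε) * 2 ^ (β - 2 ε) ≤ Y ^ (κ + 2 ε)`
    have k1 := (hE0 Y hYE).1
    have k2 := (hE0 E1 (hYE.trans hE1)).2.2
    rw [div_lt_iff₀ hc0] at k1
    have k3 : C < Y ^ ε * (C * (Y ^ (κ + ε) * E1 ^ (-(β - ε)))) :=
      k1.trans_le (mul_le_mul_of_nonneg_left hk (by positivity))
    have k4 : 1 < Y ^ (κ + 2 * ε) * E1 ^ (-(β - ε)) := by
      have e : Y ^ ε * (C * (Y ^ (κ + ε) * E1 ^ (-(β - ε)))) =
          C * (Y ^ (κ + 2 * ε) * E1 ^ (-(β - ε))) := by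
        rw [show κ + 2 * ε = ε + (κ + ε) by ring, Real.rpow_add hY0 ε (κ + ε)]
        ring
      rw [e] at k3
      by_contra hcon
      push Not at hcon
      have := mul_le_mul_of_nonneg_left hcon hC0.le
      linarith
    have k5 : E1 ^ (β - ε) < Y ^ (κ + 2 * ε) := by
      have h5 := mul_lt_mul_of_pos_right k4 (show 0 < E1 ^ (β - ε) by positivity)
      have e : E1 ^ (-(β - ε)) * E1 ^ (β - ε) = 1 := by
        rw [← Real.rpow_add hE10, neg_add_cancel, Real.rpow_zero]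
      rw [one_mul, mul_assoc, e, mul_one] at h5
      exact h5
    have k6 : (2 * E1) ^ (β - 2 * ε) < E1 ^ (β - ε) := by
      rw [Real.mul_rpow (by norm_num) hE10.le, show β - ε = ε + (β - 2 * ε) by ring,
        Real.rpow_add hE10]
      exact mul_lt_mul_of_pos_right k2 (by positivity)
    have k7 : (2 * E1) ^ (β - 2 * ε) < (Y ^ κ') ^ (β - 2 * ε) := by
      refine (k6.trans k5).trans_le ?_
      rw [← Real.rpow_mul hY0.le]
      exact Real.rpow_le_rpow_of_exponent_le hY1 hε2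
    by_contra hcon
    push Not at hcon
    have := Real.rpow_le_rpow (by positivity) hcon.le hβε.le
    linarith
  by_cases h2E1 : 2 * E1 ≤ Z
  swap
  · push Not at h2E1
    right
    obtain ⟨q, p, g1, g2, g3⟩ := hsecond Z hE1Z h2E1.le le_rfl
    have := hE1size Z hE1Z h2E1.le le_rfl
    exact ⟨q, p, g1, by linarith, g3⟩
  have hsize := hE1size (2 * E1) (by linarith) le_rfl h2E1
  have hn2 := hsecond (2 * E1) (by linarith) le_rfl h2E1
  rcases range_or hw0 (by linarith) h2E1 hn2 with h | ⟨q2, p2, E2, hB2, hE2Z⟩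
  · exact Or.inr (hmono _ _ _ _ hsize h)
  exfalso
  have hE2 : 2 * E1 ≤ E2 := hB2.AE
  have hE20 : 0 < E2 := by linarith
  have hE21 : 1 ≤ E2 := by linarith
  have hU' : ∀ X : ℝ, Y ≤ X → X ≤ Z → NearQ θ' X (X ^ (-w)) ∨ NearQ θ X (X ^ (-w)) :=
    fun X h1 h2 => (hU X h1 h2).symm
  -- the second range is long
  have hE1E2 : E1 ^ w / 2 ≤ E2 := by
    by_contra hlt
    push Not at hlt
    obtain ⟨X, hX1, hX2⟩ : ∃ X, E2 < X ∧ X < min (min (E1 ^ w / 2) Z) (E2 ^ w / 2) := by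
      apply exists_between
      have := hgapE E2 (by linarith)
      exact lt_min (lt_min hlt hE2Z) (by linarith)
    have hX3 : X < E1 ^ w / 2 := hX2.trans_le ((min_le_left _ _).trans (min_le_left _ _))
    have hX4 : X < Z := hX2.trans_le ((min_le_left _ _).trans (min_le_right _ _))
    have hX5 : X < E2 ^ w / 2 := hX2.trans_le (min_le_right _ _)
    have h1 := other hw1 hY1 hB1 le_rfl (by linarith) hX3 hX4.le hU
    have := gap (by linarith) hB2 (by linarith) hX1 h1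
    linarith
  -- the first number is near after `E2`
  obtain ⟨X, hX1, hX2, hX3⟩ : ∃ X, E2 < X ∧ X ≤ 2 * E2 ∧ X ≤ Z := by
    rcases le_total (2 * E2) Z with h | h
    · exact ⟨2 * E2, by linarith, le_rfl, h⟩
    · exact ⟨Z, hE2Z, h, le_rfl⟩
  obtain ⟨q3, p3, g1, g2, g3⟩ := other hw1 (by linarith) hB2 (show Y ≤ 2 * E1 by linarith) hX1
    (by have := hgapE E2 (by linarith); linarith) hX3 hU'
  have g4 : X ^ (-w) ≤ E2 ^ (-w) := Real.rpow_le_rpow_of_nonpos hE20 hX1.le (by linarith)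
  -- the inequality with the roles exchanged
  have hEw : E1 ^ w ≤ 2 * E2 := by linarith
  have hq2 : (q2 : ℝ) ≤ 2 * E1 := hB2.le
  have hq3 : (q3 : ℝ) ≤ 2 * E2 := g2.trans hX2
  have hq20 : (0 : ℝ) < q2 := by
    have : 0 < q2 := hB2.one
    exact_mod_cast this
  have hq30 : (0 : ℝ) < q3 := by
    have : 0 < q3 := g1
    exact_mod_cast this
  have hk := hsep q3 p3 q2 p2 g1 hB2.one ((g3.trans g4).trans (hle1 E2 hE21))
    (by rw [hB2.val]; exact hle1 E2 hE21)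
  rw [hB2.val] at hk
  have h7 : ((q3 : ℝ) * q2) ^ (κ + ε) ≤ (2 * E2 * (2 * E1)) ^ (κ + ε) :=
    Real.rpow_le_rpow (by positivity) (mul_le_mul hq3 hq2 hq20.le (by linarith)) (by linarith)
  have h8 : (q2 : ℝ) * |q3 * θ - p3| + q3 * E2 ^ (-w) ≤ 2 * E2 * E2 ^ (-w) + 2 * E2 * E2 ^ (-w) :=
    add_le_add (mul_le_mul (by linarith) (g3.trans g4) (abs_nonneg _) (by linarith))
      (mul_le_mul_of_nonneg_right hq3 (by positivity))
  have h9 := hk.trans (mul_le_mul h7 h8 (by positivity) (by positivity))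
  have e0 : (2 * E2 * (2 * E1)) ^ (κ + ε) = 4 ^ (κ + ε) * (E2 ^ (κ + ε) * E1 ^ (κ + ε)) := by
    rw [show 2 * E2 * (2 * E1) = 4 * (E2 * E1) by ring, Real.mul_rpow (by norm_num) (by positivity),
      Real.mul_rpow hE20.le hE10.le]
  have e1 : E2 ^ (-(β - ε)) = E2 ^ (κ + ε) * E2 * E2 ^ (-w) := by
    rw [show -(β - ε) = (κ + ε) + 1 + -w by rw [hβ]; ring, Real.rpow_add hE20,
      Real.rpow_add hE20, Real.rpow_one]
  have h10 : c ≤ C * (E1 ^ (κ + ε) * E2 ^ (-(β - ε))) := by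
    refine h9.trans (le_of_eq ?_)
    rw [e0, e1, hC]
    ring
  have k1 := (hE0 E1 (hYE.trans hE1)).1
  rw [div_lt_iff₀ hc0] at k1
  have k3 : C < E1 ^ ε * (C * (E1 ^ (κ + ε) * E2 ^ (-(β - ε)))) :=
    k1.trans_le (mul_le_mul_of_nonneg_left h10 (by positivity))
  have k4 : 1 < E1 ^ (κ + 2 * ε) * E2 ^ (-(β - ε)) := by
    have e : E1 ^ ε * (C * (E1 ^ (κ + ε) * E2 ^ (-(β - ε)))) =
        C * (E1 ^ (κ + 2 * ε) * E2 ^ (-(β - ε))) := by
      rw [show κ + 2 * ε = ε + (κ + ε) by ring, Real.rpow_add hE10 ε (κ + ε)]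
      ring
    rw [e] at k3
    by_contra hcon
    push Not at hcon
    have := mul_le_mul_of_nonneg_left hcon hC0.le
    linarith
  have k5 : E2 ^ (β - ε) < E1 ^ (κ + 2 * ε) := by
    have h5 := mul_lt_mul_of_pos_right k4 (show 0 < E2 ^ (β - ε) by positivity)
    have e : E2 ^ (-(β - ε)) * E2 ^ (β - ε) = 1 := by
      rw [← Real.rpow_add hE20, neg_add_cancel, Real.rpow_zero]
    rw [one_mul, mul_assoc, e, mul_one] at h5
    exact h5
  -- `E1 ^ (κ + 2 ε) ≤ (E1 ^ w) ^ (β - 2 ε) ≤ (2 E2) ^ (β - 2 ε) < E2 ^ (β - ε)`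
  have k2 := (hE0 E2 (by linarith)).2.2
  have k6 : (2 * E2) ^ (β - 2 * ε) < E2 ^ (β - ε) := by
    rw [Real.mul_rpow (by norm_num) hE20.le, show β - ε = ε + (β - 2 * ε) by ring,
      Real.rpow_add hE20]
    exact mul_lt_mul_of_pos_right k2 (by positivity)
  have k7 : E1 ^ (κ + 2 * ε) ≤ (E1 ^ w) ^ (β - 2 * ε) := by
    rw [← Real.rpow_mul hE10.le]
    exact Real.rpow_le_rpow_of_exponent_le hE11 hε1
  have k8 : (E1 ^ w) ^ (β - 2 * ε) ≤ (2 * E2) ^ (β - 2 * ε) :=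
    Real.rpow_le_rpow (by positivity) hEw hβε.le
  linarith

/-- **the symmetric theorem for two numbers on an interval** -/
theorem pairLoc {κ w κ' : ℝ} (hκ : 0 < κ) (hw : 1 + κ < w) (hww : κ < w * (w - 1 - κ))
    (hκ1 : 1 ≤ κ') (hκ' : κ < κ' * (w - 1 - κ)) :
    ∃ ε : ℝ, 0 < ε ∧ ∀ c : ℝ, 0 < c → ∃ Y0 : ℝ, 1 ≤ Y0 ∧ ∀ θ θ' : ℝ, Sep θ θ' κ ε c →
      ∀ Y Z : ℝ, Y0 ≤ Y → Y ≤ Z →
      (∀ X : ℝ, Y ≤ X → X ≤ Z → NearQ θ X (X ^ (-w)) ∨ NearQ θ' X (X ^ (-w))) →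
      NearQ θ (Y ^ κ') (Z ^ (-w)) ∨ NearQ θ' (Y ^ κ') (Z ^ (-w)) := by
  obtain ⟨ε, hε, h⟩ := pairLoc1 hκ hw hww hκ1 hκ'
  refine ⟨ε, hε, fun c hc => ?_⟩
  obtain ⟨Y0, hY0, h1⟩ := h c hc
  refine ⟨Y0, hY0, fun θ θ' hsep Y Z hY hYZ hU => ?_⟩
  rcases hU Y le_rfl hYZ with h2 | h2
  · exact h1 θ θ' hsep Y Z hY hYZ hU h2
  · exact (h1 θ' θ hsep.symm Y Z hY hYZ (fun X h3 h4 => (hU X h3 h4).symm) h2).symm

/-- the numbers `ξ + t` and `ξ - t` -/
theorem sepSum {t : ℝ} (h1 : Lin t) (ε : ℝ) (hε : 0 < ε) : ∃ c : ℝ, 0 < c ∧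
    ∀ ξ : ℝ, Sep (ξ + t) (ξ - t) 1 ε c := by
  obtain ⟨c, hc0, hc⟩ := h1 ε hε
  obtain ⟨T, hT⟩ : ∃ T : ℝ, T = 2 * |t| + 2 := ⟨_, rfl⟩
  have hT2 : 2 ≤ T := by rw [hT]; have := abs_nonneg t; linarith
  have hTp : 0 < T ^ (1 + ε) := by positivity
  refine ⟨c / T ^ (1 + ε), by positivity, fun ξ q p q' p' hq hq' h3 h4 => ?_⟩
  have hq0 : (1 : ℝ) ≤ q := by exact_mod_cast hq
  have hq0' : (1 : ℝ) ≤ q' := by exact_mod_cast hq'
  have hqq : 1 ≤ (q : ℝ) * q' := one_le_mul_of_one_le_of_one_le hq0 hq0'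
  have e : ((q * p' - q' * p : ℤ) : ℝ) + ((2 * q * q' : ℤ) : ℝ) * t =
      q' * (q * (ξ + t) - p) - q * (q' * (ξ - t) - p') := by
    push_cast; ring
  have hV : |((q * p' - q' * p : ℤ) : ℝ) + ((2 * q * q' : ℤ) : ℝ) * t| ≤
      q' * |q * (ξ + t) - p| + q * |q' * (ξ - t) - p'| := by
    rw [e]
    refine (abs_sub _ _).trans ?_
    rw [abs_mul, abs_mul, abs_of_pos (show (0 : ℝ) < q by linarith),
      abs_of_pos (show (0 : ℝ) < q' by linarith)]
  have hV2 : (q' : ℝ) * |q * (ξ + t) - p| + q * |q' * (ξ - t) - p'| ≤ 2 * (q * q') := by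
    have a1 := mul_le_mul_of_nonneg_left h3 (show (0 : ℝ) ≤ q' by linarith)
    have a2 := mul_le_mul_of_nonneg_left h4 (show (0 : ℝ) ≤ q by linarith)
    nlinarith
  have hn1 : |((2 * q * q' : ℤ) : ℝ)| = 2 * (q * q') := by
    push_cast
    rw [abs_of_nonneg (by positivity)]
    ring
  have hn0 : |((q * p' - q' * p : ℤ) : ℝ)| ≤ T * (q * q') := by
    have a1 : |((q * p' - q' * p : ℤ) : ℝ)| ≤
        |((q * p' - q' * p : ℤ) : ℝ) + ((2 * q * q' : ℤ) : ℝ) * t| +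
          |((2 * q * q' : ℤ) : ℝ) * t| := by
      have := abs_sub (((q * p' - q' * p : ℤ) : ℝ) + ((2 * q * q' : ℤ) : ℝ) * t)
        (((2 * q * q' : ℤ) : ℝ) * t)
      rwa [add_sub_cancel_right] at this
    rw [abs_mul ((2 * q * q' : ℤ) : ℝ) t, hn1] at a1
    have a2 := hV.trans hV2
    rw [hT]
    nlinarith
  have hk := hc (q * p' - q' * p) (2 * q * q') (T * (q * q')) (by
    rintro ⟨-, h5⟩
    have : 0 < 2 * q * q' := by positivity
    omega) (by nlinarith) hn0 (by rw [hn1]; nlinarith)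
  rw [div_le_iff₀ hTp]
  have h5 := hk.trans (mul_le_mul_of_nonneg_left hV (by positivity))
  rw [Real.mul_rpow (by linarith) (by positivity)] at h5
  linarith

end Pool.Agent.N538.MR
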