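import Pool.Agent.N538.MR.Pair2
import Pool.Agent.N538.MR.MeasE

/-!
# Finitely many numbers, one of which is near a rational number at every scale
-/

set_option autoImplicit false

namespace Pool.Agent.N538.MR

open Filter Topology

/-- number `i` is near at the scale `A`, its best approximation ends at `E` -/
structure St {ι : Type} (θ : ι → ℝ) (w A0 : ℝ) where
  i : ι
  A : ℝ
  E : ℝ
  q : ℤ
  p : ℤ
  best : Best (θ i) w A q p E
  hA : A0 ≤ A

lemma Sep.mono {θ θ' κ ε c c' : ℝ} (h : Sep θ θ' κ ε c) (hc : c' ≤ c) : Sep θ θ' κ ε c' :=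
  fun q p q' p' h1 h2 h3 h4 => hc.trans (h q p q' p' h1 h2 h3 h4)

lemma exists_low {α : Type} (s : Finset α) (f : α → ℝ) (hf : ∀ a, 0 < f a) :
    ∃ c : ℝ, 0 < c ∧ ∀ a ∈ s, c ≤ f a := by
  classical
  induction s using Finset.induction_on with
  | empty => exact ⟨1, one_pos, by simp⟩
  | insert a s _ ih =>
    obtain ⟨c, hc, h⟩ := ih
    refine ⟨min c (f a), lt_min hc (hf a), fun b hb => ?_⟩
    rcases Finset.mem_insert.1 hb with rfl | hb
    · exact min_le_right _ _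
    · exact (min_le_left _ _).trans (h b hb)

/-- **finitely many numbers** -/
theorem pairN {ι : Type} [Fintype ι] {θ : ι → ℝ} {κ w : ℝ} (hκ : 0 < κ) (hw : 1 + κ < w)
    (hww : κ ^ (Fintype.card ι - 1) < w * (w - 1 - κ) ^ (Fintype.card ι - 1))
    (hsep : ∀ i j, i ≠ j → ∀ ε : ℝ, 0 < ε → ∃ c : ℝ, 0 < c ∧ Sep (θ i) (θ j) κ ε c)
    (hθ : ∀ i, Irrational (θ i)) (Y : ℝ) :
    ∃ X : ℝ, Y ≤ X ∧ ∀ i, ¬ NearQ (θ i) X (X ^ (-w)) := by
  by_contra hcon
  push Not at hcon
  have hw1 : 1 < w := by linarith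
  have hw0 : 0 < w := by linarith
  have hirr : ∀ i, ∀ q p : ℤ, 1 ≤ q → |q * θ i - p| ≠ 0 := by
    intro i q p hq h
    have h1 := abs_eq_zero.1 h
    have hq0 : (q : ℝ) ≠ 0 := by
      have : q ≠ 0 := by omega
      exact_mod_cast this
    apply hθ i
    refine ⟨(p : ℚ) / q, ?_⟩
    push_cast
    rw [div_eq_iff hq0]
    linarith
  obtain ⟨N, hN⟩ : ∃ N, N = Fintype.card ι := ⟨_, rfl⟩
  rw [← hN] at hww
  obtain ⟨β, hβ⟩ : ∃ β : ℝ, β = w - 1 - κ := ⟨_, rfl⟩
  have hβ0 : 0 < β := by rw [hβ]; linarith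
  rw [← hβ] at hww
  -- the choice of `ε`
  obtain ⟨ε, hε0, hβε, hgε⟩ : ∃ ε : ℝ, 0 < ε ∧ 0 < β - 2 * ε ∧
      (κ + 2 * ε) ^ (N - 1) < w * (β - 2 * ε) ^ (N - 1) := by
    have c1 : Continuous fun x : ℝ => β - 2 * x := by fun_prop
    have c2 : Continuous fun x : ℝ => w * (β - 2 * x) ^ (N - 1) - (κ + 2 * x) ^ (N - 1) := by fun_prop
    have e1 : ∀ᶠ x in 𝓝 (0 : ℝ), 0 < β - 2 * x := c1.continuousAt.eventually_const_lt (by simpa using hβ0)
    have e2 : ∀ᶠ x in 𝓝 (0 : ℝ), 0 < w * (β - 2 * x) ^ (N - 1) - (κ + 2 * x) ^ (N - 1) :=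
      c2.continuousAt.eventually_const_lt (by simpa using hww)
    have e3 : ∀ᶠ x in 𝓝[>] (0 : ℝ), 0 < x := self_mem_nhdsWithin
    obtain ⟨x, h1, h2, h3⟩ := (e3.and ((e1.and e2).filter_mono nhdsWithin_le_nhds)).exists
    exact ⟨x, h1, h2, by linarith⟩
  -- a common constant
  obtain ⟨c, hc0, hc⟩ : ∃ c : ℝ, 0 < c ∧ ∀ i j, i ≠ j → Sep (θ i) (θ j) κ ε c := by
    have h1 : ∀ x : ι × ι, ∃ c : ℝ, 0 < c ∧ (x.1 ≠ x.2 → Sep (θ x.1) (θ x.2) κ ε c) := by
      intro x
      by_cases hx : x.1 = x.2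
      · exact ⟨1, one_pos, fun h => absurd hx h⟩
      · obtain ⟨c, h1, h2⟩ := hsep x.1 x.2 hx ε hε0
        exact ⟨c, h1, fun _ => h2⟩
    choose f hf1 hf2 using h1
    obtain ⟨c, h2, h3⟩ := exists_low Finset.univ f hf1
    exact ⟨c, h2, fun i j hij => (hf2 (i, j) hij).mono (h3 _ (Finset.mem_univ _))⟩
  -- the exponents
  obtain ⟨ρ, hρ⟩ : ∃ ρ : ℝ, ρ = max ((κ + 2 * ε) / (β - 2 * ε)) 1 := ⟨_, rfl⟩
  have hρ1 : 1 ≤ ρ := by rw [hρ]; exact le_max_right _ _
  have hρw : ρ ^ (N - 1) < w := by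
    rw [hρ]
    rcases max_choice ((κ + 2 * ε) / (β - 2 * ε)) 1 with h | h
    · rw [h, div_pow, div_lt_iff₀ (by positivity)]
      exact hgε
    · rw [h, one_pow]
      exact hw1
  obtain ⟨C, hC⟩ : ∃ C : ℝ, C = (4 : ℝ) ^ (κ + ε) * 4 := ⟨_, rfl⟩
  have hC0 : 0 < C := by rw [hC]; positivity
  have hl0 : Tendsto (fun z : ℝ => z ^ ε) atTop atTop := tendsto_rpow_atTop hε0
  have hl1 : Tendsto (fun z : ℝ => z ^ (w - 1)) atTop atTop := tendsto_rpow_atTop (by linarith)
  have hl2 : Tendsto (fun z : ℝ => z ^ (w - ρ ^ (N - 1))) atTop atTop := tendsto_rpow_atTop (by linarith)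
  obtain ⟨E0, hE0⟩ := eventually_atTop.1 ((hl0.eventually_gt_atTop (C / c)).and
    ((hl1.eventually_gt_atTop 8).and (hl2.eventually_gt_atTop 4)))
  obtain ⟨A0, hA0⟩ : ∃ A0 : ℝ, A0 = max (max Y 1) E0 := ⟨_, rfl⟩
  have hA0Y : Y ≤ A0 := by rw [hA0]; exact (le_max_left _ _).trans (le_max_left _ _)
  have hA01 : 1 ≤ A0 := by rw [hA0]; exact (le_max_right _ _).trans (le_max_left _ _)
  have hA0E : E0 ≤ A0 := by rw [hA0]; exact le_max_right _ _
  -- the states
  have hstate : ∀ A : ℝ, A0 ≤ A → ∃ s : St θ w A0, s.A = A := by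
    intro A hA
    obtain ⟨i, hi⟩ := hcon A (by linarith)
    obtain ⟨q, p, E, hB⟩ := exists_range hw0 (by linarith) hi (fun q p h1 _ => hirr i q p h1)
    exact ⟨⟨i, A, E, q, p, hB, hA⟩, rfl⟩
  have hstep : ∀ s : St θ w A0, ∃ s' : St θ w A0, s'.A = 2 * s.E ∧ s'.i ≠ s.i := by
    intro s
    have hE : s.A ≤ s.E := s.best.AE
    have hA := s.hA
    obtain ⟨s', hs'⟩ := hstate (2 * s.E) (by linarith)
    refine ⟨s', hs', fun h => ?_⟩
    have hB' := s'.best
    have hn : NearQ (θ s.i) (2 * s.E) ((2 * s.E) ^ (-w)) := by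
      rw [← h, ← hs']
      refine ⟨s'.q, s'.p, hB'.one, hB'.le, ?_⟩
      rw [hB'.val]
      exact Real.rpow_le_rpow_of_nonpos (by rw [hs']; linarith) hB'.AE (by linarith)
    have hg := gap hw0 s.best (by linarith) (show s.E < 2 * s.E by linarith) hn
    have h1 := (hE0 s.E (by linarith)).2.1
    have h2 : s.E ^ w = s.E ^ (w - 1) * s.E := by
      rw [show s.E ^ w = s.E ^ ((w - 1) + 1) by congr 1; ring,
        Real.rpow_add (by linarith), Real.rpow_one]
    have h3 : 8 * s.E < s.E ^ w := by rw [h2]; exact mul_lt_mul_of_pos_right h1 (by linarith)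
    linarith
  choose f hf1 hf2 using hstep
  obtain ⟨s0, -⟩ := hstate A0 le_rfl
  obtain ⟨S, hS⟩ : ∃ S : ℕ → St θ w A0, S = fun n => f^[n] s0 := ⟨_, rfl⟩
  have hS1 : ∀ n, S (n + 1) = f (S n) := fun n => by rw [hS]; exact Function.iterate_succ_apply' f n s0
  have hSA : ∀ n, (S (n + 1)).A = 2 * (S n).E := fun n => by rw [hS1]; exact hf1 _
  have hSi : ∀ n, (S (n + 1)).i ≠ (S n).i := fun n => by rw [hS1]; exact hf2 _
  have hSE : ∀ n, A0 ≤ (S n).E := fun n => (S n).hA.trans (S n).best.AE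
  have hSE2 : ∀ n, 2 * (S n).E ≤ (S (n + 1)).E := fun n => by
    rw [← hSA]
    exact (S (n + 1)).best.AE
  have hle1 : ∀ E : ℝ, 1 ≤ E → E ^ (-w) ≤ 1 := fun E h1 =>
    Real.rpow_le_one_of_one_le_of_nonpos h1 (by linarith)
  -- the growth
  have hgrow : ∀ n, (S (n + 1)).E ≤ (S n).E ^ ρ := by
    intro n
    obtain ⟨R, hR⟩ : ∃ R, R = (S n).E := ⟨_, rfl⟩
    obtain ⟨E, hE⟩ : ∃ E, E = (S (n + 1)).E := ⟨_, rfl⟩
    have hR1 : A0 ≤ R := by rw [hR]; exact hSE n
    have hRE : 2 * R ≤ E := by rw [hR, hE]; exact hSE2 n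
    have hEE : 2 * E ≤ (S (n + 2)).E := by rw [hE]; exact hSE2 (n + 1)
    have hEpos : 0 < E := by linarith
    have hRpos : 0 < R := by linarith
    have hq : ((S (n + 1)).q : ℝ) ≤ 2 * R := by
      have := (S (n + 1)).best.le
      rw [hSA] at this
      rw [hR]
      exact this
    have hq' : ((S (n + 2)).q : ℝ) ≤ 2 * E := by
      have := (S (n + 2)).best.le
      rw [hSA (n + 1)] at this
      rw [hE]
      exact this
    have hq0 : (0 : ℝ) < (S (n + 1)).q := by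
      have : 0 < (S (n + 1)).q := (S (n + 1)).best.one
      exact_mod_cast this
    have hq0' : (0 : ℝ) < (S (n + 2)).q := by
      have : 0 < (S (n + 2)).q := (S (n + 2)).best.one
      exact_mod_cast this
    have hv : |((S (n + 1)).q : ℝ) * θ (S (n + 1)).i - (S (n + 1)).p| = E ^ (-w) := by
      rw [(S (n + 1)).best.val, hE]
    have hv' : |((S (n + 2)).q : ℝ) * θ (S (n + 2)).i - (S (n + 2)).p| ≤ E ^ (-w) := by
      rw [(S (n + 2)).best.val]
      exact Real.rpow_le_rpow_of_nonpos hEpos (by linarith) (by linarith)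
    have hk := hc _ _ (hSi (n + 1)).symm _ _ _ _ (S (n + 1)).best.one (S (n + 2)).best.one
      (by rw [hv]; exact hle1 E (by linarith)) (hv'.trans (hle1 E (by linarith)))
    have h7 : (((S (n + 1)).q : ℝ) * (S (n + 2)).q) ^ (κ + ε) ≤ (2 * R * (2 * E)) ^ (κ + ε) :=
      Real.rpow_le_rpow (by positivity) (mul_le_mul hq hq' hq0'.le (by linarith)) (by linarith)
    have h8 : ((S (n + 2)).q : ℝ) * |((S (n + 1)).q : ℝ) * θ (S (n + 1)).i - (S (n + 1)).p| +
        (S (n + 1)).q * |((S (n + 2)).q : ℝ) * θ (S (n + 2)).i - (S (n + 2)).p| ≤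
        2 * E * E ^ (-w) + 2 * E * E ^ (-w) :=
      add_le_add (mul_le_mul hq' hv.le (abs_nonneg _) (by linarith))
        (mul_le_mul (by linarith) hv' (abs_nonneg _) (by linarith))
    have h9 := hk.trans (mul_le_mul h7 h8 (by positivity) (by positivity))
    have e0 : (2 * R * (2 * E)) ^ (κ + ε) = 4 ^ (κ + ε) * (R ^ (κ + ε) * E ^ (κ + ε)) := by
      rw [show 2 * R * (2 * E) = 4 * (R * E) by ring, Real.mul_rpow (by norm_num) (by positivity),
        Real.mul_rpow hRpos.le hEpos.le]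
    have e1 : E ^ (-(β - ε)) = E ^ (κ + ε) * E * E ^ (-w) := by
      rw [show -(β - ε) = (κ + ε) + 1 + -w by rw [hβ]; ring, Real.rpow_add hEpos,
        Real.rpow_add hEpos, Real.rpow_one]
    have h10 : c ≤ C * (R ^ (κ + ε) * E ^ (-(β - ε))) := by
      refine h9.trans (le_of_eq ?_)
      rw [e0, e1, hC]
      ring
    have k1 := (hE0 R (by linarith)).1
    rw [div_lt_iff₀ hc0] at k1
    have k3 : C < R ^ ε * (C * (R ^ (κ + ε) * E ^ (-(β - ε)))) :=
      k1.trans_le (mul_le_mul_of_nonneg_left h10 (by positivity))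
    have k4 : 1 < R ^ (κ + 2 * ε) * E ^ (-(β - ε)) := by
      have e : R ^ ε * (C * (R ^ (κ + ε) * E ^ (-(β - ε)))) =
          C * (R ^ (κ + 2 * ε) * E ^ (-(β - ε))) := by
        rw [show κ + 2 * ε = ε + (κ + ε) by ring, Real.rpow_add hRpos ε (κ + ε)]
        ring
      rw [e] at k3
      by_contra hcon
      push Not at hcon
      have := mul_le_mul_of_nonneg_left hcon hC0.le
      linarith
    have k5 : E ^ (β - ε) < R ^ (κ + 2 * ε) := by
      have h5 := mul_lt_mul_of_pos_right k4 (show 0 < E ^ (β - ε) by positivity)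
      have e : E ^ (-(β - ε)) * E ^ (β - ε) = 1 := by
        rw [← Real.rpow_add hEpos, neg_add_cancel, Real.rpow_zero]
      rw [one_mul, mul_assoc, e, mul_one] at h5
      exact h5
    have k6 : E ^ (β - 2 * ε) ≤ E ^ (β - ε) :=
      Real.rpow_le_rpow_of_exponent_le (by linarith) (by linarith)
    have k7 : R ^ (κ + 2 * ε) ≤ (R ^ ρ) ^ (β - 2 * ε) := by
      rw [← Real.rpow_mul hRpos.le]
      apply Real.rpow_le_rpow_of_exponent_le (by linarith)
      have : (κ + 2 * ε) / (β - 2 * ε) ≤ ρ := by rw [hρ]; exact le_max_left _ _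
      rwa [div_le_iff₀ hβε] at this
    rw [← hR, ← hE]
    by_contra hcon
    push Not at hcon
    have := Real.rpow_le_rpow (by positivity) hcon.le hβε.le
    linarith
  have hgrow2 : ∀ a j, (S (a + j)).E ≤ (S a).E ^ (ρ ^ j) := by
    intro a j
    induction j with
    | zero => simp
    | succ j ih =>
      have h1 := hgrow (a + j)
      have hp : (0 : ℝ) ≤ (S (a + j)).E := by linarith [hSE (a + j)]
      have hp' : (0 : ℝ) ≤ (S a).E := by linarith [hSE a]
      calc (S (a + (j + 1))).E = (S (a + j + 1)).E := by rw [add_assoc]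
        _ ≤ (S (a + j)).E ^ ρ := h1
        _ ≤ ((S a).E ^ (ρ ^ j)) ^ ρ := Real.rpow_le_rpow hp ih (by linarith)
        _ = (S a).E ^ (ρ ^ (j + 1)) := by rw [← Real.rpow_mul hp', pow_succ]
  have hSmono : ∀ a j, (S a).E ≤ (S (a + j)).E := by
    intro a j
    induction j with
    | zero => simp
    | succ j ih =>
      have h1 := hSE2 (a + j)
      have h2 := hSE (a + j)
      rw [← add_assoc]
      linarith
  -- two times the same number
  have hpair : ∀ a b : ℕ, a < b → b ≤ N → (S a).i = (S b).i → False := by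
    intro a b hab hb hi
    obtain ⟨j, hj⟩ : ∃ j, b = a + j + 1 := ⟨b - a - 1, by omega⟩
    subst hj
    have hE := hSE a
    have hB' := (S (a + j + 1)).best
    have hA' := hSA (a + j)
    have hm := hSmono a j
    have hn : NearQ (θ (S a).i) (2 * (S (a + j)).E) ((2 * (S (a + j)).E) ^ (-w)) := by
      rw [hi, ← hA']
      refine ⟨(S (a + j + 1)).q, (S (a + j + 1)).p, hB'.one, hB'.le, ?_⟩
      rw [hB'.val]
      exact Real.rpow_le_rpow_of_nonpos (by rw [hA']; linarith) hB'.AE (by linarith)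
    have hg := gap hw0 (S a).best (by linarith [(S a).hA]) (show (S a).E < 2 * (S (a + j)).E by linarith) hn
    have h1 := hgrow2 a j
    have h2 : (S a).E ^ (ρ ^ j) ≤ (S a).E ^ (ρ ^ (N - 1)) := by
      apply Real.rpow_le_rpow_of_exponent_le (by linarith)
      exact pow_le_pow_right₀ hρ1 (by omega)
    have h3 := (hE0 (S a).E (by linarith)).2.2
    have h4 : (S a).E ^ w = (S a).E ^ (w - ρ ^ (N - 1)) * (S a).E ^ (ρ ^ (N - 1)) := by
      rw [← Real.rpow_add (by linarith)]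
      congr 1
      ring
    have h5 : 0 < (S a).E ^ (ρ ^ (N - 1)) := Real.rpow_pos_of_pos (by linarith) _
    have h6 : 4 * (S a).E ^ (ρ ^ (N - 1)) < (S a).E ^ w := by
      rw [h4]
      exact mul_lt_mul_of_pos_right h3 h5
    linarith
  obtain ⟨a, b, hab, hi⟩ := Fintype.exists_ne_map_eq_of_card_lt (fun n : Fin (N + 1) => (S n).i) (by
    rw [Fintype.card_fin, ← hN]
    omega)
  rcases lt_or_gt_of_ne hab with h | h
  · exact hpair a b h (by omega) hi
  · exact hpair b a h (by omega) hi.symm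

/-- the numbers `exp m * θ` and `θ` -/
theorem sepMul {t : ℝ} (h1 : Lin t) (ht : 1 ≤ t) {θ : ℝ} (hθ : θ ≠ 0) (ε : ℝ) (hε : 0 < ε) :
    ∃ c : ℝ, 0 < c ∧ Sep (t * θ) θ 1 ε c := by
  obtain ⟨c, hc0, hc⟩ := h1 ε hε
  have hθ0 : 0 < |θ| := abs_pos.2 hθ
  obtain ⟨M, hM⟩ : ∃ M : ℝ, M = t * |θ| + 1 := ⟨_, rfl⟩
  have ht0 : 0 < t := by linarith
  have hM1 : 1 ≤ M := by
    rw [hM]
    have : 0 ≤ t * |θ| := by positivity
    linarith
  have hθM : |θ| + 1 ≤ M := by
    rw [hM]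
    nlinarith
  refine ⟨min |θ| (c / (M ^ (1 + ε) * t)), lt_min hθ0 (by positivity), fun q p q' p' hq hq' h3 h4 => ?_⟩
  have hq0 : (1 : ℝ) ≤ q := by exact_mod_cast hq
  have hq0' : (1 : ℝ) ≤ q' := by exact_mod_cast hq'
  have hqq : 1 ≤ (q : ℝ) * q' := one_le_mul_of_one_le_of_one_le hq0 hq0'
  have hqp : (0 : ℝ) < q * q' := by linarith
  by_cases hpp : p = 0 ∧ p' = 0
  · obtain ⟨rfl, rfl⟩ := hpp
    refine (min_le_left _ _).trans ?_
    have a1 : |(q : ℝ) * (t * θ)| = q * |t * θ| := by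
      rw [abs_mul, abs_of_pos (show (0 : ℝ) < q by linarith)]
    have a2 : |(q' : ℝ) * θ| = q' * |θ| := by
      rw [abs_mul, abs_of_pos (show (0 : ℝ) < q' by linarith)]
    rw [Int.cast_zero, sub_zero, sub_zero, a1, a2]
    have k1 : (1 : ℝ) ≤ ((q : ℝ) * q') ^ ((1 : ℝ) + ε) := Real.one_le_rpow hqq (by linarith)
    have k2 : |θ| ≤ (q' : ℝ) * (q * |t * θ|) + q * (q' * |θ|) := by
      have : 0 ≤ (q' : ℝ) * (q * |t * θ|) := by positivity
      have : |θ| ≤ (q : ℝ) * (q' * |θ|) := by nlinarith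
      linarith
    have k3 : 0 ≤ (q' : ℝ) * (q * |t * θ|) + q * (q' * |θ|) := hθ0.le.trans k2
    calc |θ| ≤ (q' : ℝ) * (q * |t * θ|) + q * (q' * |θ|) := k2
      _ = 1 * ((q' : ℝ) * (q * |t * θ|) + q * (q' * |θ|)) := (one_mul _).symm
      _ ≤ _ := mul_le_mul_of_nonneg_right k1 k3
  · refine (min_le_right _ _).trans ?_
    have e : ((p * q' : ℤ) : ℝ) + ((-(q * p') : ℤ) : ℝ) * t =
        t * (q * (q' * θ - p')) - q' * (q * (t * θ) - p) := by
      push_cast; ring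
    have hV : |((p * q' : ℤ) : ℝ) + ((-(q * p') : ℤ) : ℝ) * t| ≤
        t * (q' * |q * (t * θ) - p| + q * |q' * θ - p'|) := by
      rw [e]
      refine (abs_sub _ _).trans ?_
      rw [abs_mul, abs_mul, abs_mul, abs_of_pos ht0, abs_of_pos (show (0 : ℝ) < q by linarith),
        abs_of_pos (show (0 : ℝ) < q' by linarith)]
      have : (q' : ℝ) * |q * (t * θ) - p| ≤ t * (q' * |q * (t * θ) - p|) := by
        have h0 : 0 ≤ (q' : ℝ) * |q * (t * θ) - p| := by positivity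
        nlinarith
      linarith
    have hp : |(p : ℝ)| ≤ M * q := by
      have a1 : |(p : ℝ)| ≤ |(q : ℝ) * (t * θ)| + |q * (t * θ) - p| := by
        have := abs_sub ((q : ℝ) * (t * θ)) (q * (t * θ) - p)
        rwa [sub_sub_cancel] at this
      rw [abs_mul, abs_mul, abs_of_pos ht0, abs_of_pos (show (0 : ℝ) < q by linarith)] at a1
      rw [hM]
      nlinarith
    have hp' : |(p' : ℝ)| ≤ M * q' := by
      have a1 : |(p' : ℝ)| ≤ |(q' : ℝ) * θ| + |q' * θ - p'| := by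
        have := abs_sub ((q' : ℝ) * θ) (q' * θ - p')
        rwa [sub_sub_cancel] at this
      rw [abs_mul, abs_of_pos (show (0 : ℝ) < q' by linarith)] at a1
      nlinarith
    have hn0 : |((p * q' : ℤ) : ℝ)| ≤ M * (q * q') := by
      push_cast
      rw [abs_mul, abs_of_pos (show (0 : ℝ) < q' by linarith)]
      calc |(p : ℝ)| * q' ≤ M * q * q' := mul_le_mul_of_nonneg_right hp (by linarith)
        _ = _ := by ring
    have hn1 : |((-(q * p') : ℤ) : ℝ)| ≤ M * (q * q') := by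
      push_cast
      rw [abs_neg, abs_mul, abs_of_pos (show (0 : ℝ) < q by linarith)]
      calc (q : ℝ) * |(p' : ℝ)| ≤ q * (M * q') := mul_le_mul_of_nonneg_left hp' (by linarith)
        _ = _ := by ring
    have hk := hc (p * q') (-(q * p')) (M * (q * q')) (by
      rintro ⟨h5, h6⟩
      apply hpp
      have hq1 : q ≠ 0 := by omega
      have hq2 : q' ≠ 0 := by omega
      refine ⟨?_, ?_⟩
      · rcases mul_eq_zero.1 h5 with h | h
        · exact h
        · exact absurd h hq2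
      · rcases mul_eq_zero.1 (neg_eq_zero.1 h6) with h | h
        · exact absurd h hq1
        · exact h) (by nlinarith) hn0 hn1
    rw [div_le_iff₀ (by positivity)]
    have h5 := hk.trans (mul_le_mul_of_nonneg_left hV (by positivity))
    rw [Real.mul_rpow (by linarith) (by positivity)] at h5
    linarith

/-- the numbers `exp k * ξ`, `k` an integer -/
theorem sepExp {ξ : ℝ} (hξ : ξ ≠ 0) {k l : ℤ} (hkl : k ≠ l) (ε : ℝ) (hε : 0 < ε) :
    ∃ c : ℝ, 0 < c ∧ Sep (Real.exp k * ξ) (Real.exp l * ξ) 1 ε c := by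
  have main : ∀ k l : ℤ, l < k → ∃ c : ℝ, 0 < c ∧ Sep (Real.exp k * ξ) (Real.exp l * ξ) 1 ε c := by
    intro k l h
    obtain ⟨m, hm⟩ : ∃ m : ℕ, k = l + m := ⟨(k - l).toNat, by omega⟩
    have hm1 : 1 ≤ m := by omega
    have e : Real.exp k * ξ = Real.exp m * (Real.exp l * ξ) := by
      rw [hm]
      push_cast
      rw [Real.exp_add]
      ring
    rw [e]
    exact sepMul (lin_exp m hm1) (Real.one_le_exp (by positivity)) (mul_ne_zero (Real.exp_pos _).ne' hξ) ε hε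
  rcases lt_or_gt_of_ne hkl with h | h
  · obtain ⟨c, hc, h1⟩ := main l k h
    exact ⟨c, hc, h1.symm⟩
  · exact main k l h

end Pool.Agent.N538.MR
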