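import Mathlib

/-!
# The sequence of minimal points of a linear form
-/

set_option autoImplicit false

namespace Pool.Agent.N538.MR

open Filter Topology

/-- sup norm of an integer vector -/
def ht {d : ℕ} (v : Fin d → ℤ) : ℕ := Finset.univ.sup fun i => (v i).natAbs

lemma natAbs_le_ht {d : ℕ} (v : Fin d → ℤ) (i : Fin d) : (v i).natAbs ≤ ht v :=
  Finset.le_sup (f := fun i => (v i).natAbs) (Finset.mem_univ i)

lemma abs_le_ht {d : ℕ} (v : Fin d → ℤ) (i : Fin d) : |(v i : ℝ)| ≤ ht v := by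
  have h := natAbs_le_ht v i
  have h1 : (((v i).natAbs : ℤ) : ℝ) ≤ ht v := by exact_mod_cast h
  rwa [Int.natCast_natAbs, Int.cast_abs] at h1

lemma ht_le_iff {d : ℕ} (v : Fin d → ℤ) (N : ℕ) : ht v ≤ N ↔ ∀ i, (v i).natAbs ≤ N := by
  unfold ht
  rw [Finset.sup_le_iff]
  simp

lemma ht_pos {d : ℕ} {v : Fin d → ℤ} (h : v ≠ 0) : 1 ≤ ht v := by
  obtain ⟨i, hi⟩ := Function.ne_iff.1 h
  have h1 := natAbs_le_ht v i
  have h2 : 1 ≤ (v i).natAbs := Int.natAbs_pos.2 hi
  omega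

lemma ht_smul {d : ℕ} (a : ℤ) (v : Fin d → ℤ) : ht (a • v) = a.natAbs * ht v := by
  apply le_antisymm
  · rw [ht_le_iff]
    intro i
    rw [Pi.smul_apply, smul_eq_mul, Int.natAbs_mul]
    exact Nat.mul_le_mul_left _ (natAbs_le_ht v i)
  · by_cases hv : v = 0
    · rw [hv]
      have : ht (0 : Fin d → ℤ) = 0 := by
        apply Nat.le_zero.1
        rw [ht_le_iff]
        simp
      rw [this]
      omega
    · have : (Finset.univ : Finset (Fin d)).Nonempty := by
        obtain ⟨i, -⟩ := Function.ne_iff.1 hv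
        exact ⟨i, Finset.mem_univ i⟩
      obtain ⟨i, -, hi⟩ := Finset.exists_mem_eq_sup _ this (fun i => (v i).natAbs)
      have h1 : ht v = (v i).natAbs := hi
      rw [h1, ← Int.natAbs_mul]
      exact natAbs_le_ht (a • v) i

/-- a sequence of minimal points of the form `L` -/
structure MinSeq {d : ℕ} (L : (Fin d → ℤ) →+ ℝ) (w : ℝ) (v : ℕ → Fin d → ℤ) (x : ℕ → ℕ) :
    Prop where
  pos : ∀ k, 1 ≤ x k
  lt : ∀ k, x k < x (k + 1)
  ht_le : ∀ k, ht (v k) ≤ x k
  ne : ∀ k, v k ≠ 0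
  dec : ∀ k, |L (v (k + 1))| < |L (v k)|
  small : ∀ k, |L (v k)| ≤ 2 ^ w * (x (k + 1) : ℝ) ^ (-w)
  indep : ∀ k (a b : ℤ), a • v k + b • v (k + 1) = 0 → a = 0 ∧ b = 0

/-- near relations at all large scales, without an exact relation, give a sequence of minimal
points -/
theorem exists_minSeq {d : ℕ} (hd : 0 < d) (L : (Fin d → ℤ) →+ ℝ) (hL : ∀ v, v ≠ 0 → L v ≠ 0)
    (w : ℝ) (hw : 0 < w)
    (hU : ∃ Y : ℝ, ∀ X : ℝ, Y ≤ X → ∃ v : Fin d → ℤ, v ≠ 0 ∧ (ht v : ℝ) ≤ X ∧ |L v| ≤ X ^ (-w)) :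
    ∃ (v : ℕ → Fin d → ℤ) (x : ℕ → ℕ), MinSeq L w v x := by
  classical
  obtain ⟨Y, hY⟩ := hU
  -- minimal points
  have hmin : ∀ N : ℕ, ∃ v : Fin d → ℤ, 1 ≤ N → v ≠ 0 ∧ ht v ≤ N ∧
      ∀ u : Fin d → ℤ, u ≠ 0 → ht u ≤ N → |L v| ≤ |L u| := by
    intro N
    by_cases hN : 1 ≤ N
    · obtain ⟨S, hS⟩ : ∃ S : Finset (Fin d → ℤ), S =
        (Fintype.piFinset fun _ => Finset.Icc (-(N : ℤ)) N).filter (· ≠ 0) := ⟨_, rfl⟩
      have hmem : ∀ u : Fin d → ℤ, u ∈ S ↔ u ≠ 0 ∧ ht u ≤ N := by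
        intro u
        rw [hS, Finset.mem_filter, Fintype.mem_piFinset, ht_le_iff]
        constructor
        · rintro ⟨h1, h2⟩
          refine ⟨h2, fun i => ?_⟩
          have := Finset.mem_Icc.1 (h1 i)
          omega
        · rintro ⟨h1, h2⟩
          refine ⟨fun i => ?_, h1⟩
          have := h2 i
          rw [Finset.mem_Icc]
          omega
      have hne : S.Nonempty := by
        refine ⟨Pi.single ⟨0, hd⟩ 1, ?_⟩
        rw [hmem]
        constructor
        · intro h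
          have := congrFun h ⟨0, hd⟩
          simp at this
        · rw [ht_le_iff]
          intro i
          by_cases hi : i = ⟨0, hd⟩
          · rw [hi, Pi.single_eq_same]
            simpa using hN
          · rw [Pi.single_eq_of_ne hi]
            simp
      obtain ⟨v, hv, hv2⟩ := Finset.exists_min_image S (fun u => |L u|) hne
      refine ⟨v, fun _ => ⟨((hmem v).1 hv).1, ((hmem v).1 hv).2, fun u hu hu2 => ?_⟩⟩
      exact hv2 u ((hmem u).2 ⟨hu, hu2⟩)
    · exact ⟨0, fun h => absurd h hN⟩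
  choose V hV using hmin
  obtain ⟨g, hg⟩ : ∃ g : ℕ → ℝ, g = fun N => |L (V N)| := ⟨_, rfl⟩
  have hgN : ∀ N, g N = |L (V N)| := fun N => by rw [hg]
  obtain ⟨N0, hN0, hN1⟩ : ∃ N0 : ℕ, 1 ≤ N0 ∧ Y ≤ N0 := by
    obtain ⟨n, hn⟩ := exists_nat_ge Y
    exact ⟨max n 1, le_max_right _ _, hn.trans (by exact_mod_cast le_max_left _ _)⟩
  have hgpos : ∀ N, 1 ≤ N → 0 < g N := by
    intro N hN
    rw [hgN]
    exact abs_pos.2 (hL _ (hV N hN).1)
  have hgsmall : ∀ N : ℕ, N0 ≤ N → g N ≤ (N : ℝ) ^ (-w) := by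
    intro N hN
    obtain ⟨u, hu0, hu1, hu2⟩ := hY N (hN1.trans (by exact_mod_cast hN))
    rw [hgN]
    exact ((hV N (hN0.trans hN)).2.2 u hu0 (by exact_mod_cast hu1)).trans hu2
  have hnext : ∀ N : ℕ, N0 ≤ N → ∃ M : ℕ, N < M ∧ g M < g N := by
    intro N hN
    have h1 : Tendsto (fun n : ℕ => (n : ℝ) ^ (-w)) atTop (𝓝 0) :=
      (tendsto_rpow_neg_atTop hw).comp tendsto_natCast_atTop_atTop
    obtain ⟨M, hM1, hM2⟩ := ((h1.eventually_lt_const (hgpos N (hN0.trans hN))).and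
      (eventually_gt_atTop N)).exists
    exact ⟨M, hM2, (hgsmall M (hN.trans hM2.le)).trans_lt hM1⟩
  obtain ⟨nx, hnx⟩ : ∃ nx : ℕ → ℕ, ∀ N : ℕ, N0 ≤ N → N < nx N ∧ g (nx N) < g N ∧
      ∀ M, N ≤ M → M < nx N → g N ≤ g M := by
    have hex : ∀ N : ℕ, ∃ K : ℕ, N0 ≤ N → N < K ∧ g K < g N ∧
        ∀ M, N ≤ M → M < K → g N ≤ g M := by
      intro N
      by_cases hN : N0 ≤ N
      · have hN' := hnext N hN
        refine ⟨Nat.find hN', fun _ => ⟨(Nat.find_spec hN').1, (Nat.find_spec hN').2,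
          fun M hM1 hM2 => ?_⟩⟩
        rcases Nat.eq_or_lt_of_le hM1 with h | h
        · rw [h]
        · have := Nat.find_min hN' hM2
          push Not at this
          exact this h
      · exact ⟨0, fun h => absurd h hN⟩
    choose nx hnx using hex
    exact ⟨nx, hnx⟩
  obtain ⟨n, hn0, hns⟩ : ∃ n : ℕ → ℕ, n 0 = N0 ∧ ∀ k, n (k + 1) = nx (n k) :=
    ⟨fun k => Nat.rec N0 (fun _ x => nx x) k, rfl, fun k => rfl⟩
  have hnN : ∀ k, N0 ≤ n k := by
    intro k
    induction k with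
    | zero => rw [hn0]
    | succ k ih =>
      have := (hnx (n k) ih).1
      rw [hns]
      omega
  have hn1 : ∀ k, 1 ≤ n k := fun k => hN0.trans (hnN k)
  refine ⟨fun k => V (n k), n, ?_, ?_, ?_, ?_, ?_, ?_, ?_⟩
  · exact hn1
  · intro k
    rw [hns]
    exact (hnx (n k) (hnN k)).1
  · intro k
    exact (hV (n k) (hn1 k)).2.1
  · intro k
    exact (hV (n k) (hn1 k)).1
  · intro k
    have := (hnx (n k) (hnN k)).2.1
    rw [← hns, hgN, hgN] at this
    exact this
  · intro k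
    obtain ⟨h1, h2, h3⟩ := hnx (n k) (hnN k)
    rw [← hns] at h1 h2 h3
    have h4 := h3 (n (k + 1) - 1) (by omega) (by have := hn1 (k + 1); omega)
    have h5 := hgsmall (n (k + 1) - 1) (by have := hnN k; omega)
    show |L (V (n k))| ≤ _
    rw [← hgN]
    refine (h4.trans h5).trans ?_
    have h6 : (1 : ℝ) ≤ n k := by exact_mod_cast hn1 k
    have h7 : (n k : ℝ) + 1 ≤ n (k + 1) := by exact_mod_cast h1
    have h8 : ((n (k + 1) - 1 : ℕ) : ℝ) = n (k + 1) - 1 := by
      rw [Nat.cast_sub (hn1 (k + 1))]; simp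
    rw [h8]
    have h9 : ((n (k + 1) : ℝ) - 1) ^ (-w) ≤ ((n (k + 1) : ℝ) / 2) ^ (-w) :=
      Real.rpow_le_rpow_of_nonpos (by linarith) (by linarith) (by linarith)
    refine h9.trans (le_of_eq ?_)
    rw [Real.div_rpow (by linarith) (by norm_num), Real.rpow_neg (by norm_num : (0:ℝ) ≤ 2)]
    field_simp
  · intro k a b hab
    obtain ⟨h1, h2, h3⟩ := hnx (n k) (hnN k)
    rw [← hns] at h1 h2 h3
    have hvk := hV (n k) (hn1 k)
    have hvk1 := hV (n (k + 1)) (hn1 (k + 1))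
    by_cases ha : a = 0
    · refine ⟨ha, ?_⟩
      rw [ha, zero_smul, zero_add] at hab
      exact (smul_eq_zero.1 hab).resolve_right hvk1.1
    · exfalso
      have hb : b ≠ 0 := by
        rintro rfl
        rw [zero_smul, add_zero] at hab
        exact ha ((smul_eq_zero.1 hab).resolve_right hvk.1)
      have e1 : a • V (n k) = (-b) • V (n (k + 1)) := by
        rw [neg_smul]
        exact eq_neg_of_add_eq_zero_left hab
      have e2 : (a.natAbs : ℝ) * g (n k) = (b.natAbs : ℝ) * g (n (k + 1)) := by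
        have h4 : ∀ (c : ℤ) (z : Fin d → ℤ), L (c • z) = c * L z := fun c z => by
          rw [map_zsmul, zsmul_eq_mul]
        have h5 : |L (a • V (n k))| = |L ((-b) • V (n (k + 1)))| := by rw [e1]
        rw [h4, h4, abs_mul, abs_mul, Int.cast_neg, abs_neg] at h5
        rw [hgN, hgN, Nat.cast_natAbs, Nat.cast_natAbs, Int.cast_abs, Int.cast_abs]
        exact h5
      have e3 : a.natAbs * ht (V (n k)) = b.natAbs * ht (V (n (k + 1))) := by
        have := congrArg ht e1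
        rw [ht_smul, ht_smul, Int.natAbs_neg] at this
        exact this
      have hg1 : 0 < g (n k) := hgpos _ (hn1 k)
      have hb' : 0 < b.natAbs := Int.natAbs_pos.2 hb
      have hlt : a.natAbs < b.natAbs := by
        have hbR : (0 : ℝ) < b.natAbs := by exact_mod_cast hb'
        have h4 : (a.natAbs : ℝ) * g (n k) < (b.natAbs : ℝ) * g (n k) := by
          rw [e2]
          exact mul_lt_mul_of_pos_left h2 hbR
        have h5 := lt_of_mul_lt_mul_right h4 hg1.le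
        exact_mod_cast h5
      have hle : ht (V (n (k + 1))) ≤ ht (V (n k)) := by
        by_contra hcon
        push Not at hcon
        have h6 : a.natAbs * ht (V (n k)) ≤ b.natAbs * ht (V (n k)) :=
          Nat.mul_le_mul_right _ hlt.le
        have h7 : b.natAbs * ht (V (n k)) < b.natAbs * ht (V (n (k + 1))) :=
          Nat.mul_lt_mul_of_pos_left hcon hb'
        omega
      have h8 := hvk.2.2 (V (n (k + 1))) hvk1.1 (hle.trans hvk.2.1)
      rw [← hgN, ← hgN] at h8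
      linarith

end Pool.Agent.N538.MR
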