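import Pool.Agent.N538.MR.Loc3

/-!
# Simultaneous approximation of `ξ + t` and `ξ t`
-/

set_option autoImplicit false

namespace Pool.Agent.N538.MR

open Filter Topology

/-- the distance of `q y` and `q y'` to the integers -/
noncomputable def err (y y' : ℝ) (q : ℕ) : ℝ :=
  max |(q : ℝ) * y - round ((q : ℝ) * y)| |(q : ℝ) * y' - round ((q : ℝ) * y')|

/-- the integer vector attached to `q` -/
noncomputable def pt (y y' : ℝ) (q : ℕ) : Fin 3 → ℤ :=
  ![(q : ℤ), round ((q : ℝ) * y), round ((q : ℝ) * y')]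

lemma pt0 (y y' : ℝ) (q : ℕ) : pt y y' q 0 = q := rfl

lemma err_nonneg (y y' : ℝ) (q : ℕ) : 0 ≤ err y y' q := le_max_of_le_left (abs_nonneg _)

lemma err1 (y y' : ℝ) (q : ℕ) : |(q : ℝ) * y - pt y y' q 1| ≤ err y y' q := le_max_left _ _

lemma err2 (y y' : ℝ) (q : ℕ) : |(q : ℝ) * y' - pt y y' q 2| ≤ err y y' q := le_max_right _ _

lemma err_le (y y' : ℝ) (q : ℕ) (p p' : ℤ) (δ : ℝ) (h : |(q : ℝ) * y - p| ≤ δ)
    (h' : |(q : ℝ) * y' - p'| ≤ δ) : err y y' q ≤ δ :=
  max_le ((round_le _ _).trans h) ((round_le _ _).trans h')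

lemma err_le_half (y y' : ℝ) (q : ℕ) : err y y' q ≤ 1 / 2 :=
  max_le (abs_sub_round _) (abs_sub_round _)

lemma pt_le1 (y y' : ℝ) (q : ℕ) (hq : 1 ≤ q) : |(pt y y' q 1 : ℝ)| ≤ (2 + |y| + |y'|) * q := by
  have h1 := err1 y y' q
  have h2 := err_le_half y y' q
  have h3 : |(pt y y' q 1 : ℝ)| ≤ |(q : ℝ) * y| + |(q : ℝ) * y - pt y y' q 1| := by
    have := abs_sub ((q : ℝ) * y) ((q : ℝ) * y - pt y y' q 1)
    rwa [sub_sub_cancel] at this
  rw [abs_mul, Nat.abs_cast] at h3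
  have h4 : (1 : ℝ) ≤ q := by exact_mod_cast hq
  have h5 := mul_nonneg (Nat.cast_nonneg q : (0 : ℝ) ≤ q) (abs_nonneg y')
  nlinarith

lemma pt_le2 (y y' : ℝ) (q : ℕ) (hq : 1 ≤ q) : |(pt y y' q 2 : ℝ)| ≤ (2 + |y| + |y'|) * q := by
  have h1 := err2 y y' q
  have h2 := err_le_half y y' q
  have h3 : |(pt y y' q 2 : ℝ)| ≤ |(q : ℝ) * y'| + |(q : ℝ) * y' - pt y y' q 2| := by
    have := abs_sub ((q : ℝ) * y') ((q : ℝ) * y' - pt y y' q 2)
    rwa [sub_sub_cancel] at this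
  rw [abs_mul, Nat.abs_cast] at h3
  have h4 : (1 : ℝ) ≤ q := by exact_mod_cast hq
  have h5 := mul_nonneg (Nat.cast_nonneg q : (0 : ℝ) ≤ q) (abs_nonneg y)
  nlinarith

/-- a determinant of three integer points near a line -/
lemma D3_pt (y y' : ℝ) (u v z : Fin 3 → ℤ) : ((D3 u v z : ℤ) : ℝ) =
    (u 0 : ℝ) * (((v 0 : ℝ) * y - v 1) * ((z 0 : ℝ) * y' - z 2) -
        ((v 0 : ℝ) * y' - v 2) * ((z 0 : ℝ) * y - z 1)) -
      (v 0 : ℝ) * (((u 0 : ℝ) * y - u 1) * ((z 0 : ℝ) * y' - z 2) -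
        ((u 0 : ℝ) * y' - u 2) * ((z 0 : ℝ) * y - z 1)) +
      (z 0 : ℝ) * (((u 0 : ℝ) * y - u 1) * ((v 0 : ℝ) * y' - v 2) -
        ((u 0 : ℝ) * y' - u 2) * ((v 0 : ℝ) * y - v 1)) := by
  unfold D3
  push_cast
  ring

/-- **simultaneous approximation of `ξ + t` and `ξ t` at all large scales** -/
theorem simT {t v ξ : ℝ} (h2 : Tri t (t ^ 2)) (hv : Real.sqrt 3 - 1 < v)
    (hU : ∃ Y : ℝ, ∀ X : ℝ, Y ≤ X → ∃ q p p' : ℤ, 1 ≤ q ∧ (q : ℝ) ≤ X ∧
      |q * (ξ + t) - p| ≤ X ^ (-v) ∧ |q * (ξ * t) - p'| ≤ X ^ (-v)) :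
    ∃ u : Fin 3 → ℤ, u ≠ 0 ∧ LT t ξ u = 0 := by
  have hs2 : Real.sqrt 3 * Real.sqrt 3 = 3 := Real.mul_self_sqrt (by norm_num)
  have hs0 : 0 ≤ Real.sqrt 3 := Real.sqrt_nonneg 3
  have hs1 : 1.7 ≤ Real.sqrt 3 := Real.le_sqrt_of_sq_le (by norm_num)
  have hs3 : Real.sqrt 3 ≤ 1.8 := Real.sqrt_le_iff.2 ⟨by norm_num, by norm_num⟩
  -- a smaller exponent
  obtain ⟨s, hs, hs', hsv⟩ : ∃ s : ℝ, Real.sqrt 3 - 1 < s ∧ s < 1 ∧ s ≤ v := by
    refine ⟨min v (9 / 10), lt_min hv (by linarith), ?_, min_le_left _ _⟩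
    exact lt_of_le_of_lt (min_le_right _ _) (by norm_num)
  have hs00 : 0 < s := by linarith
  by_contra hcon
  push Not at hcon
  obtain ⟨y, hy⟩ : ∃ y : ℝ, y = ξ + t := ⟨_, rfl⟩
  obtain ⟨y', hy'⟩ : ∃ y' : ℝ, y' = ξ * t := ⟨_, rfl⟩
  obtain ⟨Y, hY⟩ := hU
  have hsmall : ∀ X : ℝ, Y ≤ X → 1 ≤ X → ∃ q : ℕ, 1 ≤ q ∧ (q : ℝ) ≤ X ∧ err y y' q ≤ X ^ (-s) := by
    intro X hX hX1
    obtain ⟨q, p, p', hq1, hqX, h3, h4⟩ := hY X hX
    obtain ⟨q', rfl⟩ := Int.eq_ofNat_of_zero_le (show 0 ≤ q by omega)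
    have hle : X ^ (-v) ≤ X ^ (-s) := Real.rpow_le_rpow_of_exponent_le hX1 (by linarith)
    refine ⟨q', by exact_mod_cast hq1, by exact_mod_cast hqX, err_le _ _ _ p p' _ ?_ ?_⟩
    · rw [hy]
      exact le_trans (by exact_mod_cast h3) hle
    · rw [hy']
      exact le_trans (by exact_mod_cast h4) hle
  have hpos : ∀ q : ℕ, 1 ≤ q → 0 < err y y' q := by
    intro q hq
    rcases (err_nonneg y y' q).lt_or_eq with h | h
    · exact h
    · exfalso
      have h1 := err1 y y' q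
      rw [← h] at h1
      have h3 := abs_eq_zero.1 (le_antisymm h1 (abs_nonneg _))
      refine hcon ![-(pt y y' q 1), q, 0] ?_ ?_
      · intro h0
        have := congrFun h0 1
        simp at this
        omega
      · rw [LT_apply, ← hy]
        simp only [Matrix.cons_val]
        push_cast
        linarith
  -- the records
  have hnext : ∀ q : ℕ, 1 ≤ q → (∀ r, 1 ≤ r → r ≤ q → err y y' q ≤ err y y' r) →
      ∃ r, q < r ∧ err y y' r < err y y' q := by
    intro q hq hrec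
    have h1 : Tendsto (fun X : ℝ => X ^ (-s)) atTop (𝓝 0) := tendsto_rpow_neg_atTop hs00
    obtain ⟨X, hX1, hX2⟩ := ((h1.eventually_lt_const (hpos q hq)).and
      (eventually_ge_atTop (max Y 1))).exists
    obtain ⟨r, hr1, -, hr2⟩ := hsmall X ((le_max_left _ _).trans hX2) ((le_max_right _ _).trans hX2)
    refine ⟨r, ?_, hr2.trans_lt hX1⟩
    by_contra hle
    push Not at hle
    have := hrec r hr1 hle
    linarith
  obtain ⟨nx, hnx⟩ : ∃ nx : ℕ → ℕ, ∀ q : ℕ, 1 ≤ q →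
      (∀ r, 1 ≤ r → r ≤ q → err y y' q ≤ err y y' r) → q < nx q ∧ err y y' (nx q) < err y y' q ∧
        ∀ r, 1 ≤ r → r < nx q → err y y' q ≤ err y y' r := by
    classical
    have hex : ∀ q : ℕ, ∃ N : ℕ, 1 ≤ q →
      (∀ r, 1 ≤ r → r ≤ q → err y y' q ≤ err y y' r) → q < N ∧ err y y' N < err y y' q ∧
        ∀ r, 1 ≤ r → r < N → err y y' q ≤ err y y' r := by
      intro q
      by_cases hq : 1 ≤ q ∧ ∀ r, 1 ≤ r → r ≤ q → err y y' q ≤ err y y' r
      · have hN := hnext q hq.1 hq.2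
        refine ⟨Nat.find hN, fun _ _ => ⟨(Nat.find_spec hN).1, (Nat.find_spec hN).2, ?_⟩⟩
        intro r hr1 hr2
        rcases Nat.lt_or_ge q r with h | h
        · have := Nat.find_min hN hr2
          push Not at this
          exact this h
        · exact hq.2 r hr1 h
      · exact ⟨0, fun h1 h2 => absurd ⟨h1, h2⟩ hq⟩
    choose nx hnx using hex
    exact ⟨nx, hnx⟩
  obtain ⟨n, hn0, hns⟩ : ∃ n : ℕ → ℕ, n 0 = 1 ∧ ∀ k, n (k + 1) = nx (n k) :=
    ⟨fun k => Nat.rec 1 (fun _ x => nx x) k, rfl, fun k => rfl⟩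
  have hrec : ∀ k, 1 ≤ n k ∧ ∀ r, 1 ≤ r → r ≤ n k → err y y' (n k) ≤ err y y' r := by
    intro k
    induction k with
    | zero =>
      rw [hn0]
      refine ⟨le_rfl, fun r h1 h2 => ?_⟩
      rw [show r = 1 by omega]
    | succ k ih =>
      obtain ⟨h1, h2⟩ := ih
      obtain ⟨h3, h4, h5⟩ := hnx (n k) h1 h2
      rw [hns]
      refine ⟨by omega, fun r h6 h7 => ?_⟩
      rcases Nat.lt_or_ge r (nx (n k)) with h | h
      · exact h4.le.trans (h5 r h6 h)
      · rw [show r = nx (n k) by omega]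
  have hn1 : ∀ k, 1 ≤ n k := fun k => (hrec k).1
  have hnlt : ∀ k, n k < n (k + 1) := fun k => by
    rw [hns]; exact (hnx (n k) (hn1 k) (hrec k).2).1
  have hdec : ∀ k, err y y' (n (k + 1)) < err y y' (n k) := fun k => by
    rw [hns]; exact (hnx (n k) (hn1 k) (hrec k).2).2.1
  have hmin : ∀ k r, 1 ≤ r → r < n (k + 1) → err y y' (n k) ≤ err y y' r := fun k r h1 h2 => by
    rw [hns] at h2; exact (hnx (n k) (hn1 k) (hrec k).2).2.2 r h1 h2
  have hntop : Tendsto (fun k => (n k : ℝ)) atTop atTop :=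
    tendsto_natCast_atTop_atTop.comp (strictMono_nat_of_lt_succ hnlt).tendsto_atTop
  have hn0' : ∀ k, (0 : ℝ) < n k := fun k => by exact_mod_cast hn1 k
  -- consecutive points are independent
  obtain ⟨z, hz⟩ : ∃ z : ℕ → Fin 3 → ℤ, z = fun k => pt y y' (n k) := ⟨_, rfl⟩
  have hzk : ∀ k, z k = pt y y' (n k) := fun k => by rw [hz]
  have hz0 : ∀ k, z k 0 = n k := fun k => by rw [hzk, pt0]
  have hind : ∀ k, W3 (z k) (z (k + 1)) ≠ 0 := by
    intro k hW
    have e0 := congrFun hW 0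
    have e1 := congrFun hW 1
    simp only [W3, Matrix.cons_val, Pi.zero_apply] at e0 e1
    rw [hz0, hz0] at e0 e1
    -- a common divisor
    obtain ⟨g, B, hg, ⟨c, hc⟩, hB⟩ := exists_prim (z (k + 1)) (by
      intro h0
      have := congrFun h0 0
      rw [hz0] at this
      have h1 := hn1 (k + 1)
      simp at this
      omega)
    have hB0 : ∀ i, z (k + 1) i = g * B i := fun i => by
      rw [hB, Pi.smul_apply, smul_eq_mul]
    obtain ⟨g', hg'⟩ := prim_mul (B := z k) (B0 := B) (z := (n (k + 1) : ℤ)) (y := (n k : ℤ) * g)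
      ⟨c, hc⟩ (by have := hn1 (k + 1); omega) (by
        intro i
        rw [mul_assoc, ← hB0]
        fin_cases i
        · show (n (k + 1) : ℤ) * z k 0 = (n k : ℤ) * z (k + 1) 0
          rw [hz0, hz0]; ring
        · show (n (k + 1) : ℤ) * z k 1 = (n k : ℤ) * z (k + 1) 1
          linarith
        · show (n (k + 1) : ℤ) * z k 2 = (n k : ℤ) * z (k + 1) 2
          linarith)
    have hg'i : ∀ i, z k i = g' * B i := fun i => by rw [hg', Pi.smul_apply, smul_eq_mul]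
    have hBne : B 0 ≠ 0 := by
      intro h0
      have := hg'i 0
      rw [hz0, h0, mul_zero] at this
      have := hn1 k
      omega
    have hgB : (n (k + 1) : ℤ) = g * B 0 := by rw [← hz0, hB0]
    have hgB' : (n k : ℤ) = g' * B 0 := by rw [← hz0, hg'i]
    -- `b = |B 0|` is a better denominator
    obtain ⟨b, hb⟩ : ∃ b : ℕ, b = (B 0).natAbs := ⟨_, rfl⟩
    have hb1 : 1 ≤ b := by rw [hb]; exact Int.natAbs_pos.2 hBne
    have habs : n (k + 1) = g.natAbs * b := by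
      have := congrArg Int.natAbs hgB
      rw [Int.natAbs_mul, Int.natAbs_natCast] at this
      rw [hb]; exact this
    have habs' : n k = g'.natAbs * b := by
      have := congrArg Int.natAbs hgB'
      rw [Int.natAbs_mul, Int.natAbs_natCast] at this
      rw [hb]; exact this
    have hlt := hnlt k
    have hg2 : 2 ≤ g.natAbs := by
      have h1 : 1 ≤ g'.natAbs := by
        rcases Nat.eq_zero_or_pos g'.natAbs with h | h
        · rw [h, zero_mul] at habs'
          have := hn1 k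
          omega
        · exact h
      by_contra h2
      have h3 : g.natAbs ≤ 1 := by omega
      have h4 : g.natAbs * b ≤ g'.natAbs * b := Nat.mul_le_mul_right b (by omega)
      omega
    have hbn : b < n (k + 1) := by
      rw [habs]; nlinarith
    have h1 := hmin k b hb1 hbn
    -- the error of `b`
    have hgR : (2 : ℝ) ≤ |(g : ℝ)| := by
      have : (2 : ℤ) ≤ |g| := by
        rw [Int.abs_eq_natAbs]
        exact_mod_cast hg2
      exact_mod_cast this
    obtain ⟨σ, hσ, hσ'⟩ : ∃ σ : ℤ, (b : ℤ) = σ * B 0 ∧ |(σ : ℝ)| = 1 := by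
      rcases le_total 0 (B 0) with h | h
      · exact ⟨1, by omega, by simp⟩
      · exact ⟨-1, by omega, by simp⟩
    have hσR : (b : ℝ) = σ * B 0 := by exact_mod_cast hσ
    have herr : ∀ (Y : ℝ) (i : Fin 3), |((n (k + 1) : ℕ) : ℝ) * Y - z (k + 1) i| ≤
        err y y' (n (k + 1)) → |(b : ℝ) * Y - ((σ * B i : ℤ) : ℝ)| ≤ err y y' (n (k + 1)) := by
      intro Y i h
      have e1 : ((n (k + 1) : ℕ) : ℝ) * Y - z (k + 1) i = g * ((B 0 : ℝ) * Y - B i) := by
        rw [hB0]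
        have : ((n (k + 1) : ℕ) : ℝ) = (g : ℝ) * B 0 := by exact_mod_cast hgB
        rw [this]
        push_cast
        ring
      have e2 : (b : ℝ) * Y - ((σ * B i : ℤ) : ℝ) = σ * ((B 0 : ℝ) * Y - B i) := by
        rw [hσR]
        push_cast
        ring
      rw [e1, abs_mul] at h
      rw [e2, abs_mul, hσ', one_mul]
      have := mul_le_mul_of_nonneg_right hgR (abs_nonneg ((B 0 : ℝ) * Y - B i))
      have := abs_nonneg ((B 0 : ℝ) * Y - B i)
      linarith
    have h3 : err y y' b ≤ err y y' (n (k + 1)) := by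
      refine err_le _ _ _ (σ * B 1) (σ * B 2) _ ?_ ?_
      · exact herr y 1 (by rw [hzk]; exact err1 _ _ _)
      · exact herr y' 2 (by rw [hzk]; exact err2 _ _ _)
    have := hdec k
    linarith
  -- the sizes of the errors
  obtain ⟨K, hK⟩ : ∃ K : ℝ, K = (2 : ℝ) ^ s := ⟨_, rfl⟩
  have hK0 : 0 < K := by rw [hK]; positivity
  obtain ⟨k0, hk0⟩ : ∃ k0, ∀ k, k0 ≤ k → max Y 1 + 1 ≤ (n k : ℝ) :=
    eventually_atTop.1 (hntop.eventually_ge_atTop _)
  have hup : ∀ k, k0 ≤ k → err y y' (n k) ≤ K * (n (k + 1) : ℝ) ^ (-s) := by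
    intro k hk
    have h1 := hk0 (k + 1) (by omega)
    have h3 : Y ≤ (n (k + 1) : ℝ) - 1 := by
      have := le_max_left Y 1
      linarith
    have h4 : 1 ≤ (n (k + 1) : ℝ) - 1 := by
      have := le_max_right Y 1
      linarith
    obtain ⟨r, hr1, hr2, hr3⟩ := hsmall _ h3 h4
    have h5 : r < n (k + 1) := by
      have : (r : ℝ) < n (k + 1) := by linarith
      exact_mod_cast this
    refine ((hmin k r hr1 h5).trans hr3).trans ?_
    have h9 : ((n (k + 1) : ℝ) - 1) ^ (-s) ≤ ((n (k + 1) : ℝ) / 2) ^ (-s) :=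
      Real.rpow_le_rpow_of_nonpos (by linarith) (by linarith) (by linarith)
    refine h9.trans (le_of_eq ?_)
    rw [Real.div_rpow (by linarith) (by norm_num), Real.rpow_neg (by norm_num : (0:ℝ) ≤ 2), hK]
    field_simp
  -- the choice of `ε`
  have hss : 0 < s * s + 2 * s - 2 := by
    nlinarith
  obtain ⟨ε, hε⟩ : ∃ ε : ℝ, ε = (s * s + 2 * s - 2) / 2 := ⟨_, rfl⟩
  have hε0 : 0 < ε := by rw [hε]; linarith
  obtain ⟨c, hc0, hc⟩ := h2 ε hε0
  obtain ⟨R, hR⟩ : ∃ R : ℝ, R = 2 + |y| + |y'| := ⟨_, rfl⟩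
  have hR1 : 2 ≤ R := by
    rw [hR]; have := abs_nonneg y; have := abs_nonneg y'; linarith
  obtain ⟨A, hA⟩ : ∃ A : ℝ, A = 1 + |t| := ⟨_, rfl⟩
  have hA0 : 0 < A := by rw [hA]; have := abs_nonneg t; linarith
  have hlow : ∀ k, c ≤ (R * n k) ^ (2 + ε) * (A * err y y' (n k)) := by
    intro k
    have h1 := hn1 k
    have h1' : (1 : ℝ) ≤ n k := by exact_mod_cast h1
    have h3 := hc (pt y y' (n k) 2) (-(pt y y' (n k) 1)) (n k) (R * n k) (by
      rintro ⟨-, -, h4⟩
      omega) (by nlinarith) (by rw [hR]; exact pt_le2 _ _ _ h1)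
      (by push_cast; rw [abs_neg, hR]; exact pt_le1 _ _ _ h1)
      (by
        rw [Int.cast_natCast, Nat.abs_cast]
        nlinarith)
    refine h3.trans (mul_le_mul_of_nonneg_left ?_ (by positivity))
    have e : (pt y y' (n k) 2 : ℝ) + ((-(pt y y' (n k) 1) : ℤ) : ℝ) * t + ((n k : ℤ) : ℝ) * t ^ 2 =
        t * ((n k : ℝ) * y - pt y y' (n k) 1) - ((n k : ℝ) * y' - pt y y' (n k) 2) := by
      rw [hy, hy']
      push_cast
      ring
    rw [e]
    refine (abs_sub _ _).trans ?_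
    rw [abs_mul, hA]
    have h4 := mul_le_mul_of_nonneg_left (err1 y y' (n k)) (abs_nonneg t)
    have h5 := err2 y y' (n k)
    linarith
  -- logarithms
  obtain ⟨a, ha⟩ : ∃ a : ℕ → ℝ, a = fun k => Real.log (n k) := ⟨_, rfl⟩
  have hak : ∀ k, a k = Real.log (n k) := fun k => by rw [ha]
  have hatop : Tendsto a atTop atTop := by
    rw [ha]
    exact Real.tendsto_log_atTop.comp hntop
  obtain ⟨C1, hC1⟩ : ∃ C1 : ℝ, C1 = (2 + ε) * Real.log R + Real.log A + Real.log K - Real.log c :=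
    ⟨_, rfl⟩
  have hgrow : ∀ k, k0 ≤ k → s * a (k + 1) ≤ (2 + ε) * a k + C1 := by
    intro k hk
    have h1 := hlow k
    have h3 := hup k hk
    have p0 := hn0' k
    have p1 := hn0' (k + 1)
    have h4 : c ≤ (R * n k) ^ (2 + ε) * (A * (K * (n (k + 1) : ℝ) ^ (-s))) := by
      refine h1.trans (mul_le_mul_of_nonneg_left ?_ (by positivity))
      exact mul_le_mul_of_nonneg_left h3 hA0.le
    have h5 := Real.log_le_log hc0 h4
    rw [Real.log_mul (by positivity) (by positivity), Real.log_rpow (by positivity),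
      Real.log_mul (by positivity) p0.ne', Real.log_mul hA0.ne' (by positivity),
      Real.log_mul hK0.ne' (by positivity), Real.log_rpow p1, ← hak, ← hak] at h5
    rw [hC1]
    linarith
  -- three consecutive points
  obtain ⟨C2, hC2⟩ : ∃ C2 : ℝ, C2 = Real.log (6 * (K * K)) := ⟨_, rfl⟩
  have hdet : ∀ k, k0 ≤ k → D3 (z k) (z (k + 1)) (z (k + 2)) ≠ 0 →
      s * a (k + 1) ≤ (1 - s) * a (k + 2) + C2 := by
    intro k hk hne
    have h1 : (1 : ℝ) ≤ |((D3 (z k) (z (k + 1)) (z (k + 2)) : ℤ) : ℝ)| := by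
      have : 1 ≤ |D3 (z k) (z (k + 1)) (z (k + 2))| := Int.one_le_abs hne
      exact_mod_cast this
    have p0 := hn0' k
    have p1 := hn0' (k + 1)
    have p2 := hn0' (k + 2)
    have d0 := err_nonneg y y' (n k)
    have d1 := err_nonneg y y' (n (k + 1))
    have d2 := err_nonneg y y' (n (k + 2))
    have hb1 : ∀ j, |((z j 0 : ℤ) : ℝ) * y - z j 1| ≤ err y y' (n j) := fun j => by
      rw [hz0, hzk, Int.cast_natCast]; exact err1 _ _ _
    have hb2 : ∀ j, |((z j 0 : ℤ) : ℝ) * y' - z j 2| ≤ err y y' (n j) := fun j => by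
      rw [hz0, hzk, Int.cast_natCast]; exact err2 _ _ _
    have hpr : ∀ i j, |(((z i 0 : ℤ) : ℝ) * y - z i 1) * (((z j 0 : ℤ) : ℝ) * y' - z j 2) -
        (((z i 0 : ℤ) : ℝ) * y' - z i 2) * (((z j 0 : ℤ) : ℝ) * y - z j 1)| ≤
        2 * (err y y' (n i) * err y y' (n j)) := fun i j => by
      rw [mul_comm (((z i 0 : ℤ) : ℝ) * y' - z i 2) _]
      exact sub_bound _ _ _ _ _ _ (hb1 i) (hb2 j) (hb1 j) (hb2 i)
    rw [D3_pt y y'] at h1
    have hm : ∀ l i j, |((z l 0 : ℤ) : ℝ) * ((((z i 0 : ℤ) : ℝ) * y - z i 1) *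
        (((z j 0 : ℤ) : ℝ) * y' - z j 2) - (((z i 0 : ℤ) : ℝ) * y' - z i 2) *
        (((z j 0 : ℤ) : ℝ) * y - z j 1))| ≤ n l * (2 * (err y y' (n i) * err y y' (n j))) := by
      intro l i j
      rw [abs_mul, hz0, Int.cast_natCast, Nat.abs_cast]
      exact mul_le_mul_of_nonneg_left (hpr i j) (hn0' l).le
    have m1 := hm k (k + 1) (k + 2)
    have m2 := hm (k + 1) k (k + 2)
    have m3 := hm (k + 2) k (k + 1)
    have o1 := hnlt k
    have o2 := hnlt (k + 1)
    have o1' : (n k : ℝ) ≤ n (k + 2) := by exact_mod_cast (o1.trans o2).le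
    have o2' : (n (k + 1) : ℝ) ≤ n (k + 2) := by exact_mod_cast o2.le
    have g1 := (hdec k).le
    have g2 := (hdec (k + 1)).le
    rw [show k + 1 + 1 = k + 2 by ring] at g2
    obtain ⟨T, hT⟩ : ∃ T : ℝ, T = n (k + 2) * (2 * (err y y' (n k) * err y y' (n (k + 1)))) :=
      ⟨_, rfl⟩
    have b1 : n k * (2 * (err y y' (n (k + 1)) * err y y' (n (k + 2)))) ≤ T := by
      rw [hT]
      apply mul_le_mul o1' _ (by positivity) p2.le
      have : err y y' (n (k + 1)) * err y y' (n (k + 2)) ≤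
          err y y' (n k) * err y y' (n (k + 1)) := mul_le_mul g1 g2 d2 d0
      linarith
    have b2 : n (k + 1) * (2 * (err y y' (n k) * err y y' (n (k + 2)))) ≤ T := by
      rw [hT]
      apply mul_le_mul o2' _ (by positivity) p2.le
      have : err y y' (n k) * err y y' (n (k + 2)) ≤
          err y y' (n k) * err y y' (n (k + 1)) := mul_le_mul_of_nonneg_left g2 d0
      linarith
    have h3 : 1 ≤ 3 * T := by
      refine h1.trans ?_
      refine (abs_add_le _ _).trans ?_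
      rw [← hT] at m3
      have t1 := abs_sub (((z k 0 : ℤ) : ℝ) * ((((z (k + 1) 0 : ℤ) : ℝ) * y - z (k + 1) 1) *
        (((z (k + 2) 0 : ℤ) : ℝ) * y' - z (k + 2) 2) - (((z (k + 1) 0 : ℤ) : ℝ) * y' - z (k + 1) 2) *
        (((z (k + 2) 0 : ℤ) : ℝ) * y - z (k + 2) 1)))
        (((z (k + 1) 0 : ℤ) : ℝ) * ((((z k 0 : ℤ) : ℝ) * y - z k 1) *
        (((z (k + 2) 0 : ℤ) : ℝ) * y' - z (k + 2) 2) - (((z k 0 : ℤ) : ℝ) * y' - z k 2) *
        (((z (k + 2) 0 : ℤ) : ℝ) * y - z (k + 2) 1)))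
      linarith
    have h4 : T ≤ 2 * (K * K) * ((n (k + 1) : ℝ) ^ (-s) * (n (k + 2) : ℝ) ^ (1 - s)) := by
      have u1 := hup k hk
      have u2 := hup (k + 1) (by omega)
      rw [show k + 1 + 1 = k + 2 by ring] at u2
      have h5 := mul_le_mul u1 u2 d1 (by positivity)
      have h6 := mul_le_mul_of_nonneg_left h5 (show (0 : ℝ) ≤ n (k + 2) * 2 by positivity)
      rw [hT]
      refine le_trans (le_of_eq ?_) (h6.trans (le_of_eq ?_))
      · ring
      · rw [show 1 - s = 1 + -s by ring, Real.rpow_add p2, Real.rpow_one]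
        ring
    have h5 : 1 ≤ (6 * (K * K)) * ((n (k + 1) : ℝ) ^ (-s) * (n (k + 2) : ℝ) ^ (1 - s)) := by
      linarith
    have h6 := Real.log_le_log one_pos h5
    rw [Real.log_one, Real.log_mul (x := 6 * (K * K)) (by positivity) (by positivity),
      Real.log_mul (x := (n (k + 1) : ℝ) ^ (-s)) (by positivity) (by positivity),
      Real.log_rpow p1, Real.log_rpow p2, ← hak, ← hak, ← hC2] at h6
    linarith
  -- the points are in a plane
  obtain ⟨k1, hk1⟩ : ∃ k1, ∀ k, k1 ≤ k → ((1 - s) * C1 + s * C2) / ε + 1 ≤ a k :=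
    eventually_atTop.1 (hatop.eventually_ge_atTop _)
  obtain ⟨k2, hk2⟩ : ∃ k2 : ℕ, k2 = max k0 k1 := ⟨_, rfl⟩
  have hD : ∀ k, k2 ≤ k → D3 (z k) (z (k + 1)) (z (k + 2)) = 0 := by
    intro k hk
    by_contra hne
    have h1 := hdet k (by omega) hne
    have h3 := hgrow (k + 1) (by omega)
    rw [show k + 1 + 1 = k + 2 by ring] at h3
    have h4 := hk1 (k + 1) (by omega)
    have h5 : s * (s * a (k + 1)) ≤ s * ((1 - s) * a (k + 2) + C2) :=
      mul_le_mul_of_nonneg_left h1 hs00.le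
    have h6 : (1 - s) * (s * a (k + 2)) ≤ (1 - s) * ((2 + ε) * a (k + 1) + C1) :=
      mul_le_mul_of_nonneg_left h3 (by linarith)
    have h7 : ((1 - s) * C1 + s * C2) / ε < a (k + 1) := by linarith
    rw [div_lt_iff₀ hε0] at h7
    have e1 : s * ((1 - s) * a (k + 2) + C2) = (1 - s) * (s * a (k + 2)) + s * C2 := by ring
    rw [e1] at h5
    have h8 : s * (s * a (k + 1)) ≤ (1 - s) * ((2 + ε) * a (k + 1)) + ((1 - s) * C1 + s * C2) := by
      linarith
    have e2 : s * (s * a (k + 1)) - (1 - s) * ((2 + ε) * a (k + 1)) =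
        (ε + s * ε) * a (k + 1) := by
      have : s * s - (1 - s) * (2 + ε) = ε + s * ε := by
        have h9 : 2 * ε = s * s + 2 * s - 2 := by rw [hε]; ring
        linarith
      calc s * (s * a (k + 1)) - (1 - s) * ((2 + ε) * a (k + 1)) =
            (s * s - (1 - s) * (2 + ε)) * a (k + 1) := by ring
        _ = (ε + s * ε) * a (k + 1) := by rw [this]
    have h9 : 0 ≤ a (k + 1) := by rw [hak]; exact Real.log_nonneg (by exact_mod_cast hn1 _)
    have h10 : 0 ≤ s * ε * a (k + 1) := by positivity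
    linarith
  -- the plane
  obtain ⟨u, hu⟩ : ∃ u : Fin 3 → ℤ, u = ![z k2 1 * z (k2 + 1) 2 - z k2 2 * z (k2 + 1) 1,
    z k2 2 * z (k2 + 1) 0 - z k2 0 * z (k2 + 1) 2, z k2 0 * z (k2 + 1) 1 - z k2 1 * z (k2 + 1) 0] :=
    ⟨_, rfl⟩
  obtain ⟨dd, hdd⟩ : ∃ dd : (Fin 3 → ℤ) → ℤ, dd = fun v => u 0 * v 0 + u 1 * v 1 + u 2 * v 2 :=
    ⟨_, rfl⟩
  have hddv : ∀ v, dd v = u 0 * v 0 + u 1 * v 1 + u 2 * v 2 := fun v => by rw [hdd]
  have hu0 : u ≠ 0 := by
    intro h0
    apply hind k2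
    rw [hu] at h0
    have c0 := congrFun h0 0
    have c1 := congrFun h0 1
    have c2 := congrFun h0 2
    simp only [Matrix.cons_val, Pi.zero_apply] at c0 c1 c2
    funext i
    fin_cases i
    · show z k2 0 * z (k2 + 1) 1 - z k2 1 * z (k2 + 1) 0 = 0
      exact c2
    · show z k2 0 * z (k2 + 1) 2 - z k2 2 * z (k2 + 1) 0 = 0
      linarith
    · show z k2 1 * z (k2 + 1) 2 - z k2 2 * z (k2 + 1) 1 = 0
      exact c0
  have hbase1 : dd (z k2) = 0 := by
    rw [hddv, hu]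
    simp only [Matrix.cons_val]
    ring
  have hbase2 : dd (z (k2 + 1)) = 0 := by
    rw [hddv, hu]
    simp only [Matrix.cons_val]
    ring
  have hlin : ∀ (p q r : ℤ) (v1 v2 v3 : Fin 3 → ℤ), p • v1 + q • v2 + r • v3 = 0 →
      p * dd v1 + q * dd v2 + r * dd v3 = 0 := by
    intro p q r v1 v2 v3 h
    have c0 := congrFun h 0
    have c1 := congrFun h 1
    have c2 := congrFun h 2
    simp only [Pi.add_apply, Pi.smul_apply, smul_eq_mul, Pi.zero_apply] at c0 c1 c2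
    rw [hddv, hddv, hddv]
    linear_combination u 0 * c0 + u 1 * c1 + u 2 * c2
  have hplane : ∀ k, k2 ≤ k → dd (z k) = 0 ∧ dd (z (k + 1)) = 0 := by
    intro k hk
    induction k, hk using Nat.le_induction with
    | base => exact ⟨hbase1, hbase2⟩
    | succ k hk ih =>
      refine ⟨ih.2, ?_⟩
      obtain ⟨p, q, r, hpqr, hr⟩ := dep3 _ _ _ (hD k hk)
      have hr0 : r ≠ 0 := by
        intro h0
        apply hind k
        rw [h0, zero_smul, add_zero] at hr
        have c0 := congrFun hr 0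
        have c1 := congrFun hr 1
        have c2 := congrFun hr 2
        simp only [Pi.add_apply, Pi.smul_apply, smul_eq_mul, Pi.zero_apply] at c0 c1 c2
        have hall : ∀ X : ℤ, p * X = 0 → q * X = 0 → X = 0 := by
          intro X h1 h3
          by_contra hX
          have hp : p = 0 := (mul_eq_zero.1 h1).resolve_right hX
          have hq : q = 0 := (mul_eq_zero.1 h3).resolve_right hX
          exact hpqr ⟨hp, hq, h0⟩
        funext i
        fin_cases i
        · show z k 0 * z (k + 1) 1 - z k 1 * z (k + 1) 0 = 0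
          apply hall
          · linear_combination z (k + 1) 1 * c0 - z (k + 1) 0 * c1
          · linear_combination z k 0 * c1 - z k 1 * c0
        · show z k 0 * z (k + 1) 2 - z k 2 * z (k + 1) 0 = 0
          apply hall
          · linear_combination z (k + 1) 2 * c0 - z (k + 1) 0 * c2
          · linear_combination z k 0 * c2 - z k 2 * c0
        · show z k 1 * z (k + 1) 2 - z k 2 * z (k + 1) 1 = 0
          apply hall
          · linear_combination z (k + 1) 2 * c1 - z (k + 1) 1 * c2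
          · linear_combination z k 1 * c2 - z k 2 * c1
      have h1 := hlin _ _ _ _ _ _ hr
      rw [ih.1, ih.2] at h1
      simp only [mul_zero, zero_add] at h1
      exact (mul_eq_zero.1 h1).resolve_left hr0
  -- the relation
  apply hcon u hu0
  have hbound : ∀ k, k2 ≤ k → |LT t ξ u| * n k ≤ |(u 1 : ℝ)| + |(u 2 : ℝ)| := by
    intro k hk
    have h1 := (hplane k hk).1
    rw [hddv] at h1
    have h3 : (u 0 : ℝ) * z k 0 + u 1 * z k 1 + u 2 * z k 2 = 0 := by exact_mod_cast h1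
    have e : LT t ξ u * n k = u 1 * ((n k : ℝ) * y - z k 1) + u 2 * ((n k : ℝ) * y' - z k 2) := by
      rw [LT_apply, ← hy, ← hy']
      have h4 : ((z k 0 : ℤ) : ℝ) = n k := by rw [hz0]; simp
      rw [h4] at h3
      linear_combination h3
    have h5 := err1 y y' (n k)
    have h6 := err2 y y' (n k)
    have h7 := err_le_half y y' (n k)
    rw [← hzk] at h5 h6
    have h8 : |LT t ξ u * n k| ≤ |(u 1 : ℝ)| * 1 + |(u 2 : ℝ)| * 1 := by
      rw [e]
      refine (abs_add_le _ _).trans ?_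
      rw [abs_mul, abs_mul]
      exact add_le_add (mul_le_mul_of_nonneg_left (by linarith) (abs_nonneg _))
        (mul_le_mul_of_nonneg_left (by linarith) (abs_nonneg _))
    rw [abs_mul, Nat.abs_cast] at h8
    linarith
  by_contra hne
  have hpos' : 0 < |LT t ξ u| := abs_pos.2 hne
  obtain ⟨k, hk1', hk2'⟩ := ((hntop.eventually_gt_atTop
    ((|(u 1 : ℝ)| + |(u 2 : ℝ)|) / |LT t ξ u|)).and (eventually_ge_atTop k2)).exists
  have h1 := hbound k hk2'
  rw [div_lt_iff₀ hpos'] at hk1'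
  linarith

end Pool.Agent.N538.MR
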