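import Pool.Agent.N538.MR.Main4

/-!
# The numbers `1, t, ξ, ξ t`
-/

set_option autoImplicit false

namespace Pool.Agent.N538.MR

open Filter Topology

/-- linear measure -/
def Lin (t : ℝ) : Prop := ∀ ε : ℝ, 0 < ε → ∃ c : ℝ, 0 < c ∧ ∀ (n0 n1 : ℤ) (H : ℝ),
  ¬ (n0 = 0 ∧ n1 = 0) → 1 ≤ H → |(n0 : ℝ)| ≤ H → |(n1 : ℝ)| ≤ H →
  c ≤ H ^ (1 + ε) * |n0 + n1 * t|

/-- measure for three numbers -/
def Tri (s t : ℝ) : Prop := ∀ ε : ℝ, 0 < ε → ∃ c : ℝ, 0 < c ∧ ∀ (n0 n1 n2 : ℤ) (H : ℝ),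
  ¬ (n0 = 0 ∧ n1 = 0 ∧ n2 = 0) → 1 ≤ H → |(n0 : ℝ)| ≤ H → |(n1 : ℝ)| ≤ H → |(n2 : ℝ)| ≤ H →
  c ≤ H ^ (2 + ε) * |n0 + n1 * s + n2 * t|

/-- the four numbers -/
noncomputable def VB (t ξ : ℝ) : Fin 4 → ℝ := ![1, t, ξ, ξ * t]

/-- a linear form as a homomorphism -/
noncomputable def LF (V : Fin 4 → ℝ) : (Fin 4 → ℤ) →+ ℝ where
  toFun u := dt (cst u) V
  map_zero' := by simp [dt, cst]
  map_add' u v := by
    simp only [dt, cst, Pi.add_apply]
    push_cast
    ring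

lemma LF_apply (V : Fin 4 → ℝ) (u : Fin 4 → ℤ) : LF V u = dt (cst u) V := rfl

/-- the functional on the bivectors -/
noncomputable def ρB (t : ℝ) (B : Fin 6 → ℤ) : ℝ := B 1 + (B 2 + B 3) * t + B 4 * t ^ 2

lemma LB_eq (t ξ : ℝ) (u : Fin 4 → ℤ) :
    LF (VB t ξ) u = (u 0 + u 1 * t) + (u 2 + u 3 * t) * ξ := by
  rw [LF_apply]
  simp [dt, cst, VB]
  ring

lemma lin_le (t H : ℝ) (p q : ℤ) (hp : |(p : ℝ)| ≤ H) (hq : |(q : ℝ)| ≤ H) :
    |(p : ℝ) + q * t| ≤ (1 + |t|) * H := by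
  refine (abs_add_le _ _).trans ?_
  rw [abs_mul]
  have := mul_le_mul_of_nonneg_right hq (abs_nonneg t)
  linarith

lemma dataB (t ξ : ℝ) (h1 : Lin t) (h2 : Tri t (t ^ 2)) :
    Data (VB t ξ) (LF (VB t ξ)) (ρB t) (1 + |t|) where
  V0 := by simp [VB]
  LV := fun u => rfl
  A0 := by have := abs_nonneg t; linarith
  smul := by
    intro g B
    simp only [ρB, Pi.smul_apply, smul_eq_mul]
    push_cast
    ring
  pair := by
    intro u v
    have e : ρB t (W u v) = (v 2 + v 3 * t) * LF (VB t ξ) u - (u 2 + u 3 * t) * LF (VB t ξ) v := by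
      rw [LB_eq, LB_eq]
      simp only [ρB, W, Matrix.cons_val]
      push_cast
      ring
    rw [e]
    refine (abs_sub _ _).trans ?_
    rw [abs_mul, abs_mul]
    have b1 := lin_le t _ _ _ (abs_le_ht v 2) (abs_le_ht v 3)
    have b2 := lin_le t _ _ _ (abs_le_ht u 2) (abs_le_ht u 3)
    have b3 := mul_le_mul_of_nonneg_right b1 (abs_nonneg (LF (VB t ξ) u))
    have b4 := mul_le_mul_of_nonneg_right b2 (abs_nonneg (LF (VB t ξ) v))
    linarith
  meas := by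
    intro ε hε
    obtain ⟨c, hc, h⟩ := h2 ε hε
    have hp : (0 : ℝ) < 2 ^ (2 + ε) := by positivity
    refine ⟨c / 2 ^ (2 + ε), by positivity, fun B H hB hH hBH => ?_⟩
    have h3 := h (B 1) (B 2 + B 3) (B 4) (2 * H) ?_ (by linarith) ?_ ?_ ?_
    · rw [div_le_iff₀ hp]
      rw [Real.mul_rpow (by norm_num) (by linarith)] at h3
      have e : (B 1 : ℝ) + ((B 2 + B 3 : ℤ) : ℝ) * t + (B 4 : ℝ) * t ^ 2 = ρB t B := by
        unfold ρB; push_cast; ring
      rw [e] at h3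
      linarith
    · rintro ⟨a1, a2, a3⟩
      apply hB
      have a2' : (B 2 : ℝ) + B 3 = 0 := by exact_mod_cast a2
      unfold ρB
      rw [a1, a3, a2']
      simp
    · have := hBH 1; linarith
    · push_cast
      refine (abs_add_le _ _).trans ?_
      have := hBH 2
      have := hBH 3
      linarith
    · have := hBH 4; linarith
  irr := by
    intro N hN
    by_contra hcon
    push Not at hcon
    apply hN
    have e1 : ∀ l, (N l : ℝ) = N 0 * VB t ξ l := by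
      intro l
      have := hcon 0 l
      have h0 : VB t ξ 0 = 1 := by simp [VB]
      rw [h0] at this
      linarith
    obtain ⟨c, hc, h⟩ := h1 1 one_pos
    have e2 : (N 1 : ℝ) = N 0 * t := by
      have := e1 1
      simpa [VB] using this
    have e3 : N 0 = 0 := by
      by_contra h0
      have h3 := h (-N 1) (N 0) (1 + |(N 0 : ℝ)| + |(N 1 : ℝ)|) (by tauto)
        (by have := abs_nonneg (N 0 : ℝ); have := abs_nonneg (N 1 : ℝ); linarith)
        (by push_cast; rw [abs_neg]; have := abs_nonneg (N 0 : ℝ); linarith)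
        (by have := abs_nonneg (N 1 : ℝ); linarith)
      push_cast at h3
      rw [e2] at h3
      have : -((N 0 : ℝ) * t) + N 0 * t = 0 := by ring
      rw [this, abs_zero, mul_zero] at h3
      linarith
    funext l
    have e4 := e1 l
    rw [e3] at e4
    simp only [Int.cast_zero, zero_mul] at e4
    exact_mod_cast e4

/-- a degenerate pair defines a rational number -/
lemma degen (u v : Fin 4 → ℤ) (hind : ∀ a b : ℤ, a • u + b • v = 0 → a = 0 ∧ b = 0)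
    (h1 : W u v 1 = 0) (h2 : W u v 2 + W u v 3 = 0) (h3 : W u v 4 = 0) :
    ∃ p q s r : ℤ, s * p + r * q = 1 ∧ q * u 0 = p * u 2 ∧ q * u 1 = p * u 3 := by
  have hW : ¬ (W u v 0 = 0 ∧ W u v 2 = 0 ∧ W u v 5 = 0) := by
    rintro ⟨a0, a2, a5⟩
    have a3 : W u v 3 = 0 := by omega
    simp only [W, Matrix.cons_val] at a0 a2 a3 a5 h1 h3
    have hu : u ≠ 0 := by
      rintro rfl
      have := (hind 1 0 (by simp)).1
      omega
    obtain ⟨i, hi⟩ := Function.ne_iff.1 hu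
    have := hind (v i) (-u i) (by
      funext j
      simp only [Pi.add_apply, Pi.smul_apply, smul_eq_mul, Pi.zero_apply]
      fin_cases i <;> fin_cases j <;> simp <;> linarith)
    apply hi
    simpa using this.2
  obtain ⟨P, Q, hPQ, e1, e2⟩ : ∃ P Q : ℤ, ¬ (P = 0 ∧ Q = 0) ∧ Q * u 0 = P * u 2 ∧
      Q * u 1 = P * u 3 := by
    simp only [W, Matrix.cons_val] at hW h1 h2 h3
    by_cases hc : (u 0 * v 1 - u 1 * v 0 = 0 ∧ u 0 * v 3 - u 3 * v 0 = 0)
    · refine ⟨u 0 * v 3 - u 3 * v 0, u 2 * v 3 - u 3 * v 2, ?_, ?_, ?_⟩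
      · rintro ⟨b1, b2⟩
        exact hW ⟨hc.1, b1, b2⟩
      · linear_combination (-(u 3)) * h1
      · linear_combination (-(u 3)) * h2 + u 2 * h3
    · refine ⟨u 0 * v 1 - u 1 * v 0, u 0 * v 3 - u 3 * v 0, hc, ?_, ?_⟩
      · linear_combination u 0 * h2 - u 1 * h1
      · linear_combination u 0 * h3
  have hne : (![P, Q] : Fin 2 → ℤ) ≠ 0 := by
    intro h
    apply hPQ
    have b1 := congrFun h 0
    have b2 := congrFun h 1
    simp at b1 b2
    exact ⟨b1, b2⟩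
  obtain ⟨g, B, hg, ⟨c, hc⟩, hB⟩ := exists_prim _ hne
  have b1 := congrFun hB 0
  have b2 := congrFun hB 1
  simp only [Matrix.cons_val_zero, Matrix.cons_val_one, Pi.smul_apply, smul_eq_mul] at b1 b2
  rw [Fin.sum_univ_two] at hc
  refine ⟨B 0, B 1, c 0, c 1, hc, ?_, ?_⟩
  · apply mul_left_cancel₀ hg
    rw [← mul_assoc, ← mul_assoc, ← b1, ← b2]
    exact e1
  · apply mul_left_cancel₀ hg
    rw [← mul_assoc, ← mul_assoc, ← b1, ← b2]
    exact e2

lemma rhoB_zero (t : ℝ) (h2 : Tri t (t ^ 2)) (B : Fin 6 → ℤ) (h : ρB t B = 0) :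
    B 1 = 0 ∧ B 2 + B 3 = 0 ∧ B 4 = 0 := by
  by_contra hcon
  obtain ⟨c, hc, h3⟩ := h2 1 one_pos
  have h4 := h3 (B 1) (B 2 + B 3) (B 4) (1 + |(B 1 : ℝ)| + |((B 2 + B 3 : ℤ) : ℝ)| + |(B 4 : ℝ)|) hcon
    (by have := abs_nonneg (B 1 : ℝ); have := abs_nonneg ((B 2 + B 3 : ℤ) : ℝ)
        have := abs_nonneg (B 4 : ℝ); linarith)
    (by have := abs_nonneg ((B 2 + B 3 : ℤ) : ℝ); have := abs_nonneg (B 4 : ℝ); linarith)
    (by have := abs_nonneg (B 1 : ℝ); have := abs_nonneg (B 4 : ℝ); linarith)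
    (by have := abs_nonneg (B 1 : ℝ); have := abs_nonneg ((B 2 + B 3 : ℤ) : ℝ); linarith)
  have e : (B 1 : ℝ) + ((B 2 + B 3 : ℤ) : ℝ) * t + (B 4 : ℝ) * t ^ 2 = 0 := by
    rw [← h]; unfold ρB; push_cast; ring
  rw [e, abs_zero, mul_zero] at h4
  linarith

lemma pow_ident (D P Q R M z T K c : ℝ) (hP : P ≠ 0) (hc : c ≠ 0) :
    D * (P * Q) * (T * z * (Q / P * (K * R) / c) + M * (K * R)) =
      D * K * (T / c) * (Q * Q * z * R) + D * K * (P * Q * M * R) := by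
  field_simp

/-- the bivectors of consecutive minimal points are not degenerate -/
theorem ndB {t ξ w : ℝ} (h1 : Lin t) (h2 : Tri t (t ^ 2)) (hw : 3 < w)
    (hL : ∀ v, v ≠ 0 → LF (VB t ξ) v ≠ 0) {v : ℕ → Fin 4 → ℤ} {x : ℕ → ℕ}
    (hS : MinSeq (LF (VB t ξ)) w v x) : ∃ k0, ∀ k, k0 ≤ k → ρB t (W (v k) (v (k + 1))) ≠ 0 := by
  obtain ⟨L, hLdef⟩ : ∃ L, L = LF (VB t ξ) := ⟨_, rfl⟩
  rw [← hLdef] at hL hS
  have hLeq : ∀ u : Fin 4 → ℤ, L u = (u 0 + u 1 * t) + (u 2 + u 3 * t) * ξ := fun u => by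
    rw [hLdef]; exact LB_eq t ξ u
  obtain ⟨ε, hε⟩ : ∃ ε : ℝ, ε = (w - 3) / 4 := ⟨_, rfl⟩
  have hε0 : 0 < ε := by rw [hε]; linarith
  obtain ⟨c, hc0, hc⟩ := h1 ε hε0
  obtain ⟨K, hK⟩ : ∃ K : ℝ, K = (2 : ℝ) ^ w := ⟨_, rfl⟩
  have hK0 : 0 < K := by rw [hK]; positivity
  have hx1 : ∀ k, (1 : ℝ) ≤ x k := fun k => by exact_mod_cast hS.pos k
  have hx0 : ∀ k, (0 : ℝ) < x k := fun k => by have := hx1 k; linarith
  have hxm : ∀ i j, i ≤ j → (x i : ℝ) ≤ x j := by
    intro i j hij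
    have : x i ≤ x j := (strictMono_nat_of_lt_succ hS.lt).monotone hij
    exact_mod_cast this
  have hvi : ∀ k i, |(v k i : ℝ)| ≤ x k := fun k i =>
    (abs_le_ht _ i).trans (by exact_mod_cast hS.ht_le k)
  have hsm : ∀ k, |L (v k)| ≤ K * (x (k + 1) : ℝ) ^ (-w) := fun k => by
    rw [hK]; exact hS.small k
  have hxtop : Tendsto (fun k => (x k : ℝ)) atTop atTop :=
    tendsto_natCast_atTop_atTop.comp (strictMono_nat_of_lt_succ hS.lt).tendsto_atTop
  have ht0 := abs_nonneg t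
  obtain ⟨A, hA⟩ : ∃ A : ℝ, A = (2 : ℝ) ^ (1 + ε) * K * ((1 + |t|) / c + 1) := ⟨_, rfl⟩
  have hA0 : 0 < A := by rw [hA]; positivity
  -- large indices
  have hlim : Tendsto (fun k => A * (x (k + 1) : ℝ) ^ (-(2 * ε))) atTop (𝓝 0) := by
    have h3 := ((tendsto_rpow_neg_atTop (show (0 : ℝ) < 2 * ε by linarith)).comp
      (hxtop.comp (tendsto_add_atTop_nat 1))).const_mul A
    rw [mul_zero] at h3
    exact h3
  obtain ⟨k1, hk1⟩ := eventually_atTop.1 (hlim.eventually_lt_const hc0)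
  refine ⟨k1, fun k hk hρ => ?_⟩
  obtain ⟨b1, b2, b3⟩ := rhoB_zero t h2 _ hρ
  obtain ⟨p, q, s, r, hsr, e1, e2⟩ := degen _ _ (hS.indep k) b1 b2 b3
  -- the size of `(p, q)`
  obtain ⟨M, hM⟩ : ∃ M : ℝ, M = max |(p : ℝ)| |(q : ℝ)| := ⟨_, rfl⟩
  have hM1 : 1 ≤ M := by
    have hpq : p ≠ 0 ∨ q ≠ 0 := by
      by_contra hcon
      push Not at hcon
      rw [hcon.1, hcon.2] at hsr
      simp at hsr
    rw [hM]
    rcases hpq with h | h
    · have h3 : 1 ≤ |p| := Int.one_le_abs h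
      exact le_max_of_le_left (by exact_mod_cast h3)
    · have h3 : 1 ≤ |q| := Int.one_le_abs h
      exact le_max_of_le_right (by exact_mod_cast h3)
  have hM0 : 0 < M := by linarith
  have hpM : |(p : ℝ)| ≤ M := by rw [hM]; exact le_max_left _ _
  have hqM : |(q : ℝ)| ≤ M := by rw [hM]; exact le_max_right _ _
  obtain ⟨l, hl⟩ : ∃ l : ℝ, l = p + q * ξ := ⟨_, rfl⟩
  -- a point on the degenerate plane
  have hpoint : ∀ m, (q * v m 0 = p * v m 2 ∧ q * v m 1 = p * v m 3) →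
      M ≤ x m ∧ c * |l| ≤ ((x m : ℝ) / M) ^ (1 + ε) * |L (v m)| ∧
        (l = 0 → L (v m) = 0) := by
    rintro m ⟨g1, g2⟩
    obtain ⟨α, hα⟩ : ∃ α : ℤ, α = s * v m 0 + r * v m 2 := ⟨_, rfl⟩
    obtain ⟨β, hβ⟩ : ∃ β : ℤ, β = s * v m 1 + r * v m 3 := ⟨_, rfl⟩
    have f0 : v m 0 = p * α := by rw [hα]; linear_combination (-(v m 0)) * hsr + r * g1
    have f2 : v m 2 = q * α := by rw [hα]; linear_combination (-(v m 2)) * hsr - s * g1
    have f1 : v m 1 = p * β := by rw [hβ]; linear_combination (-(v m 1)) * hsr + r * g2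
    have f3 : v m 3 = q * β := by rw [hβ]; linear_combination (-(v m 3)) * hsr - s * g2
    have hαβ : ¬ (α = 0 ∧ β = 0) := by
      rintro ⟨a1, a2⟩
      apply hS.ne m
      funext j
      fin_cases j
      · show v m 0 = 0
        rw [f0, a1, mul_zero]
      · show v m 1 = 0
        rw [f1, a2, mul_zero]
      · show v m 2 = 0
        rw [f2, a1, mul_zero]
      · show v m 3 = 0
        rw [f3, a2, mul_zero]
    have hMα : ∀ (γ : ℤ) (i j : Fin 4), v m i = p * γ → v m j = q * γ → M * |(γ : ℝ)| ≤ x m := by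
      intro γ i j hi hj
      have c1 := hvi m i
      have c2 := hvi m j
      rw [hi] at c1
      rw [hj] at c2
      push_cast at c1 c2
      rw [abs_mul] at c1 c2
      rw [hM]
      rcases le_total |(p : ℝ)| |(q : ℝ)| with h | h
      · rw [max_eq_right h]; exact c2
      · rw [max_eq_left h]; exact c1
    have hMα1 := hMα α 0 2 f0 f2
    have hMβ1 := hMα β 1 3 f1 f3
    have hMx : M ≤ x m := by
      by_cases h : α = 0
      · have h' : β ≠ 0 := fun h0 => hαβ ⟨h, h0⟩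
        have h3 : (1 : ℝ) ≤ |(β : ℝ)| := by
          have : 1 ≤ |β| := Int.one_le_abs h'
          exact_mod_cast this
        nlinarith
      · have h3 : (1 : ℝ) ≤ |(α : ℝ)| := by
          have : 1 ≤ |α| := Int.one_le_abs h
          exact_mod_cast this
        nlinarith
    have hLv : L (v m) = l * (α + β * t) := by
      rw [hLeq, f0, f1, f2, f3, hl]
      push_cast
      ring
    refine ⟨hMx, ?_, fun h => by rw [hLv, h, zero_mul]⟩
    have h3 := hc α β ((x m : ℝ) / M) hαβ (by rw [le_div_iff₀ hM0]; linarith)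
      (by rw [le_div_iff₀ hM0]; linarith) (by rw [le_div_iff₀ hM0]; linarith)
    have h4 := mul_le_mul_of_nonneg_right h3 (abs_nonneg l)
    rw [hLv, abs_mul]
    linarith
  have hind : ∀ m, k ≤ m → (q * v m 0 = p * v m 2 ∧ q * v m 1 = p * v m 3) := by
    intro m hm
    induction m, hm using Nat.le_induction with
    | base => exact ⟨e1, e2⟩
    | succ m hm ih =>
      by_contra hcon
      obtain ⟨hMx, hcl, -⟩ := hpoint m ih
      obtain ⟨z, hz⟩ : ∃ z : ℝ, z = x (m + 1) := ⟨_, rfl⟩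
      have hz1 : 1 ≤ z := by rw [hz]; exact hx1 _
      have hz0 : 0 < z := by linarith
      have hxz : (x m : ℝ) ≤ z := by rw [hz]; exact hxm _ _ (by omega)
      have hMz : M ≤ z := hMx.trans hxz
      have hvz : ∀ i, |(v (m + 1) i : ℝ)| ≤ z := fun i => by rw [hz]; exact hvi _ i
      obtain ⟨R0, hR0⟩ : ∃ R0 : ℤ, R0 = p * v (m + 1) 2 - q * v (m + 1) 0 := ⟨_, rfl⟩
      obtain ⟨R1, hR1⟩ : ∃ R1 : ℤ, R1 = p * v (m + 1) 3 - q * v (m + 1) 1 := ⟨_, rfl⟩
      have hR : ¬ (R0 = 0 ∧ R1 = 0) := by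
        rintro ⟨a1, a2⟩
        exact hcon ⟨by linarith, by linarith⟩
      have hbd : ∀ i j, |((p * v (m + 1) i - q * v (m + 1) j : ℤ) : ℝ)| ≤ 2 * (M * z) := by
        intro i j
        push_cast
        rw [mul_comm (q : ℝ)]
        exact sub_bound _ _ _ _ _ _ hpM (hvz i) (hvz j) hqM
      have h3 := hc R0 R1 (2 * (M * z)) hR (by nlinarith) (by rw [hR0]; exact hbd 2 0)
        (by rw [hR1]; exact hbd 3 1)
      have e3 : (R0 : ℝ) + R1 * t = (v (m + 1) 2 + v (m + 1) 3 * t) * l - q * L (v (m + 1)) := by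
        rw [hR0, hR1, hLeq, hl]
        push_cast
        ring
      have h4 : |(R0 : ℝ) + R1 * t| ≤ (1 + |t|) * z * |l| + M * |L (v (m + 1))| := by
        rw [e3]
        refine (abs_sub _ _).trans ?_
        rw [abs_mul, abs_mul]
        exact add_le_add (mul_le_mul_of_nonneg_right (lin_le t z _ _ (hvz 2) (hvz 3))
          (abs_nonneg _)) (mul_le_mul_of_nonneg_right hqM (abs_nonneg _))
      have h5 : |L (v (m + 1))| ≤ K * z ^ (-w) := by
        rw [hz]; exact (hS.dec m).le.trans (hsm m)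
      have h6 : |l| ≤ (z / M) ^ (1 + ε) * (K * z ^ (-w)) / c := by
        rw [le_div_iff₀ hc0, mul_comm]
        refine hcl.trans ?_
        apply mul_le_mul
        · apply Real.rpow_le_rpow (by have := hx0 m; positivity) _ (by linarith)
          exact div_le_div_of_nonneg_right hxz hM0.le
        · rw [hz]; exact hsm m
        · exact abs_nonneg _
        · positivity
      have h7 : c ≤ (2 * (M * z)) ^ (1 + ε) * ((1 + |t|) * z * ((z / M) ^ (1 + ε) *
          (K * z ^ (-w)) / c) + M * (K * z ^ (-w))) := by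
        refine h3.trans (mul_le_mul_of_nonneg_left (h4.trans ?_) (by positivity))
        exact add_le_add (mul_le_mul_of_nonneg_left h6 (by positivity))
          (mul_le_mul_of_nonneg_left h5 hM0.le)
      -- powers
      have g1 : (2 * (M * z)) ^ (1 + ε) = 2 ^ (1 + ε) * (M ^ (1 + ε) * z ^ (1 + ε)) := by
        rw [Real.mul_rpow (by norm_num) (by positivity), Real.mul_rpow hM0.le hz0.le]
      have g2 : (z / M) ^ (1 + ε) = z ^ (1 + ε) / M ^ (1 + ε) := Real.div_rpow hz0.le hM0.le _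
      have g3 : z ^ (1 + ε) * z ^ (1 + ε) * z * z ^ (-w) = z ^ (-(2 * ε)) := by
        have h8 : z ^ (1 + ε) * z ^ (1 + ε) * z * z ^ (-w) = z ^ ((1 + ε) + (1 + ε) + 1 + -w) := by
          rw [Real.rpow_add hz0 ((1 + ε) + (1 + ε) + 1), Real.rpow_add hz0 ((1 + ε) + (1 + ε)),
            Real.rpow_add hz0 (1 + ε), Real.rpow_one]
        rw [h8]
        congr 1
        rw [hε]; ring
      have g4 : M ^ (1 + ε) ≤ z ^ (1 + ε) := Real.rpow_le_rpow hM0.le hMz (by linarith)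
      have hMp : 0 < M ^ (1 + ε) := by positivity
      have hzp : 0 < z ^ (1 + ε) := by positivity
      have hzw : 0 < z ^ (-w) := by positivity
      have g5 : (2 * (M * z)) ^ (1 + ε) * ((1 + |t|) * z * ((z / M) ^ (1 + ε) *
          (K * z ^ (-w)) / c) + M * (K * z ^ (-w))) ≤ A * z ^ (-(2 * ε)) := by
        rw [g1, g2]
        have i1 : 2 ^ (1 + ε) * (M ^ (1 + ε) * z ^ (1 + ε)) * ((1 + |t|) * z *
            (z ^ (1 + ε) / M ^ (1 + ε) * (K * z ^ (-w)) / c) + M * (K * z ^ (-w))) =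
            2 ^ (1 + ε) * K * ((1 + |t|) / c) * (z ^ (1 + ε) * z ^ (1 + ε) * z * z ^ (-w)) +
            2 ^ (1 + ε) * K * (M ^ (1 + ε) * z ^ (1 + ε) * M * z ^ (-w)) :=
          pow_ident _ _ _ _ _ _ _ _ _ hMp.ne' hc0.ne'
        rw [i1, g3]
        have i2 : M ^ (1 + ε) * z ^ (1 + ε) * M * z ^ (-w) ≤ z ^ (-(2 * ε)) := by
          rw [← g3]
          have j1 : M ^ (1 + ε) * z ^ (1 + ε) ≤ z ^ (1 + ε) * z ^ (1 + ε) :=
            mul_le_mul_of_nonneg_right g4 hzp.le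
          have j2 := mul_le_mul j1 hMz hM0.le (by positivity)
          exact mul_le_mul_of_nonneg_right j2 hzw.le
        have i3 := mul_le_mul_of_nonneg_left i2 (show 0 ≤ (2 : ℝ) ^ (1 + ε) * K by positivity)
        have i4 : A * z ^ (-(2 * ε)) = 2 ^ (1 + ε) * K * ((1 + |t|) / c) * z ^ (-(2 * ε)) +
            2 ^ (1 + ε) * K * z ^ (-(2 * ε)) := by rw [hA]; ring
        rw [i4]
        linarith
      have h8 := hk1 m (hk.trans hm)
      rw [← hz] at h8
      linarith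
  -- the limit
  have hl0 : l = 0 := by
    by_contra hne
    have hpos : 0 < c * |l| := mul_pos hc0 (abs_pos.2 hne)
    have hlim2 : Tendsto (fun k => K * (x (k + 1) : ℝ) ^ (-(w - (1 + ε)))) atTop (𝓝 0) := by
      have h3 := ((tendsto_rpow_neg_atTop (show (0 : ℝ) < w - (1 + ε) by
        rw [hε]; linarith)).comp (hxtop.comp (tendsto_add_atTop_nat 1))).const_mul K
      rw [mul_zero] at h3
      exact h3
    obtain ⟨m, hm1, hm2⟩ := ((hlim2.eventually_lt_const hpos).and (eventually_ge_atTop k)).exists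
    obtain ⟨hMx, hcl, -⟩ := hpoint m (hind m hm2)
    have h3 : ((x m : ℝ) / M) ^ (1 + ε) ≤ (x (m + 1) : ℝ) ^ (1 + ε) := by
      apply Real.rpow_le_rpow (by have := hx0 m; positivity) _ (by linarith)
      have := div_le_self (hx0 m).le hM1
      exact this.trans (hxm m (m + 1) (by omega))
    have h4 : ((x m : ℝ) / M) ^ (1 + ε) * |L (v m)| ≤
        (x (m + 1) : ℝ) ^ (1 + ε) * (K * (x (m + 1) : ℝ) ^ (-w)) :=
      mul_le_mul h3 (hsm m) (abs_nonneg _) (by have := hx0 (m + 1); positivity)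
    have h5 : (x (m + 1) : ℝ) ^ (1 + ε) * (K * (x (m + 1) : ℝ) ^ (-w)) =
        K * (x (m + 1) : ℝ) ^ (-(w - (1 + ε))) := by
      rw [show -(w - (1 + ε)) = (1 + ε) + -w by ring, Real.rpow_add (hx0 _) (1 + ε) (-w)]
      generalize (x (m + 1) : ℝ) ^ (1 + ε) = a1
      generalize (x (m + 1) : ℝ) ^ (-w) = a2
      ring
    rw [h5] at h4
    linarith
  exact hL _ (hS.ne k) ((hpoint k (hind k le_rfl)).2.2 hl0)

/-- **near relations between `1, t, ξ, ξ t` at all large scales** -/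
theorem tb {t ξ w : ℝ} (h1 : Lin t) (h2 : Tri t (t ^ 2)) (hw : 3 + Real.sqrt 2 < w)
    (hU : ∃ Y : ℝ, ∀ X : ℝ, Y ≤ X → ∃ v : Fin 4 → ℤ, v ≠ 0 ∧ (ht v : ℝ) ≤ X ∧
      |LF (VB t ξ) v| ≤ X ^ (-w)) : ∃ v : Fin 4 → ℤ, v ≠ 0 ∧ LF (VB t ξ) v = 0 := by
  by_contra hcon
  push Not at hcon
  have hs0 : 0 ≤ Real.sqrt 2 := Real.sqrt_nonneg 2
  have hs1 : 1.4 ≤ Real.sqrt 2 := Real.le_sqrt_of_sq_le (by norm_num)
  obtain ⟨v, x, hS⟩ := exists_minSeq (by norm_num) (LF (VB t ξ)) hcon w (by linarith) hU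
  exact main4 (dataB t ξ h1 h2) hw hS (ndB h1 h2 (by linarith) hcon hS)

end Pool.Agent.N538.MR
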